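import Mathlib
import Pool.Graph.R_seed8.Split938.Basic
import Pool.Graph.R_seed8.Helper366.IV.Rep

/-! # Wirtinger calculus: integration by parts and the energy identity -/

set_option autoImplicit false

open Topology Filter Metric Set MeasureTheory
open Pool.Agent.Split938
open scoped ContDiff

namespace Pool.Agent.H20.JL

/-- complex conjugation -/
noncomputable abbrev cj : ℂ → ℂ := starRingEnd ℂ

theorem int_fderiv {F : ℂ → ℂ} (hF : ContDiff ℝ 1 F) (hc : HasCompactSupport F) (v : ℂ) :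
    ∫ z, fderiv ℝ F z v = 0 := by
  have hd : Differentiable ℝ F := hF.differentiable one_ne_zero
  have hcont : Continuous (fun z => fderiv ℝ F z v) :=
    (hF.continuous_fderiv one_ne_zero).clm_apply continuous_const
  have hsupp : HasCompactSupport (fun z => fderiv ℝ F z v) := by
    apply (hc.fderiv (𝕜 := ℝ)).comp_left (g := fun L : ℂ →L[ℝ] ℂ => L v)
    simp
  have hint : Integrable (fun z => fderiv ℝ F z v) :=
    hcont.integrable_of_hasCompactSupport hsupp
  have h := integral_bilinear_hasLineDerivAt_right_eq_neg_left_of_integrable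
    (μ := (volume : Measure ℂ)) (B := ContinuousLinearMap.mul ℝ ℂ) (v := v)
    (f := fun _ : ℂ => (1 : ℂ)) (f' := fun _ => 0) (g := F) (g' := fun z => fderiv ℝ F z v)
    (by simp) (by simpa using hint)
    (by simpa using (hF.continuous.integrable_of_hasCompactSupport hc))
    (fun x _ => by simpa using (hasFDerivAt_const (𝕜 := ℝ) (1 : ℂ) x).hasLineDerivAt v)
    (fun x _ => (hd x).hasFDerivAt.hasLineDerivAt v)
  simpa using h

theorem int_fderiv_integrable {F : ℂ → ℂ} (hF : ContDiff ℝ 1 F) (hc : HasCompactSupport F)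
    (v : ℂ) : Integrable (fun z => fderiv ℝ F z v) := by
  have hcont : Continuous (fun z => fderiv ℝ F z v) :=
    (hF.continuous_fderiv one_ne_zero).clm_apply continuous_const
  have hsupp : HasCompactSupport (fun z => fderiv ℝ F z v) := by
    apply (hc.fderiv (𝕜 := ℝ)).comp_left (g := fun L : ℂ →L[ℝ] ℂ => L v)
    simp
  exact hcont.integrable_of_hasCompactSupport hsupp

theorem int_dbar {F : ℂ → ℂ} (hF : ContDiff ℝ 1 F) (hc : HasCompactSupport F) :
    ∫ z, dbar F z = 0 := by
  unfold dbar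
  rw [integral_div, integral_add (int_fderiv_integrable hF hc 1)
    ((int_fderiv_integrable hF hc Complex.I).const_mul _), integral_const_mul,
    int_fderiv hF hc, int_fderiv hF hc]
  simp

theorem int_dz {F : ℂ → ℂ} (hF : ContDiff ℝ 1 F) (hc : HasCompactSupport F) :
    ∫ z, dz F z = 0 := by
  unfold dz
  rw [integral_div, integral_sub (int_fderiv_integrable hF hc 1)
    ((int_fderiv_integrable hF hc Complex.I).const_mul _), integral_const_mul,
    int_fderiv hF hc, int_fderiv hF hc]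
  simp

theorem cdmul {F G : ℂ → ℂ} {n : WithTop ℕ∞} (hF : ContDiff ℝ n F) (hG : ContDiff ℝ n G) :
    ContDiff ℝ n (fun z => F z * G z) := hF.mul hG

/-- integration by parts -/
theorem parts_dz {F G : ℂ → ℂ} (hF : ContDiff ℝ 1 F) (hG : ContDiff ℝ 1 G)
    (hc : HasCompactSupport G) : ∫ z, F z * dz G z = -∫ z, dz F z * G z := by
  have h1 := int_dz (F := fun z => F z * G z) (hF.mul hG) hc.mul_left
  have hFd : Differentiable ℝ F := hF.differentiable one_ne_zero
  have hGd : Differentiable ℝ G := hG.differentiable one_ne_zero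
  have e : (fun z => dz (fun z => F z * G z) z) = fun z => F z * dz G z + dz F z * G z := by
    funext z
    exact dz_mul (hFd z) (hGd z)
  rw [e, integral_add] at h1
  · exact eq_neg_of_add_eq_zero_left h1
  · exact (hF.continuous.mul (dz_continuous hG)).integrable_of_hasCompactSupport
      (dz_hcs hc).mul_left
  · exact ((dz_continuous hF).mul hG.continuous).integrable_of_hasCompactSupport hc.mul_left

theorem parts_dbar {F G : ℂ → ℂ} (hF : ContDiff ℝ 1 F) (hG : ContDiff ℝ 1 G)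
    (hc : HasCompactSupport G) : ∫ z, F z * dbar G z = -∫ z, dbar F z * G z := by
  have h1 := int_dbar (F := fun z => F z * G z) (hF.mul hG) hc.mul_left
  have hFd : Differentiable ℝ F := hF.differentiable one_ne_zero
  have hGd : Differentiable ℝ G := hG.differentiable one_ne_zero
  have e : (fun z => dbar (fun z => F z * G z) z) = fun z => F z * dbar G z + dbar F z * G z := by
    funext z
    exact dbar_mul (hFd z) (hGd z)
  rw [e, integral_add] at h1
  · exact eq_neg_of_add_eq_zero_left h1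
  · exact (hF.continuous.mul (dbar_continuous hG)).integrable_of_hasCompactSupport
      (dbar_hcs hc).mul_left
  · exact ((dbar_continuous hF).mul hG.continuous).integrable_of_hasCompactSupport hc.mul_left

theorem fderiv_cj {F : ℂ → ℂ} {z : ℂ} (hF : DifferentiableAt ℝ F z) (v : ℂ) :
    fderiv ℝ (fun z => cj (F z)) z v = cj (fderiv ℝ F z v) := by
  have h := (Complex.conjCLE.toContinuousLinearMap.hasFDerivAt (x := F z)).comp z hF.hasFDerivAt
  have h2 : HasFDerivAt (fun z => cj (F z)) (Complex.conjCLE.toContinuousLinearMap.comp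
    (fderiv ℝ F z)) z := h
  rw [h2.fderiv]
  rfl

theorem dz_cj {F : ℂ → ℂ} {z : ℂ} (hF : DifferentiableAt ℝ F z) :
    dz (fun z => cj (F z)) z = cj (dbar F z) := by
  unfold dz dbar
  rw [fderiv_cj hF, fderiv_cj hF]
  simp only [map_div₀, map_add, map_mul, Complex.conj_I, map_ofNat]
  ring

theorem dbar_cj {F : ℂ → ℂ} {z : ℂ} (hF : DifferentiableAt ℝ F z) :
    dbar (fun z => cj (F z)) z = cj (dz F z) := by
  unfold dz dbar
  rw [fderiv_cj hF, fderiv_cj hF]
  simp only [map_div₀, map_sub, map_mul, Complex.conj_I, map_ofNat]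
  ring

theorem cd_cj {F : ℂ → ℂ} {n : WithTop ℕ∞} (hF : ContDiff ℝ n F) :
    ContDiff ℝ n (fun z => cj (F z)) := Complex.conjCLE.contDiff.comp hF

theorem hcs_cj {F : ℂ → ℂ} (hF : HasCompactSupport F) :
    HasCompactSupport (fun z => cj (F z)) := hF.comp_left (g := cj) (map_zero _)

theorem ts_cj {F : ℂ → ℂ} : tsupport (fun z => cj (F z)) ⊆ tsupport F := by
  apply closure_mono
  intro z hz
  simp only [Function.mem_support, ne_eq] at hz ⊢
  intro h
  exact hz (by rw [h]; exact map_zero _)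

/-- the second derivative commutes -/
theorem fderiv_fderiv {F : ℂ → ℂ} (hF : ContDiff ℝ 2 F) (z u v : ℂ) :
    fderiv ℝ (fun z => fderiv ℝ F z u) z v = fderiv ℝ (fderiv ℝ F) z v u := by
  have h1 : ContDiff ℝ 1 (fderiv ℝ F) := hF.fderiv_right (by norm_num)
  have h2 : HasFDerivAt (fderiv ℝ F) (fderiv ℝ (fderiv ℝ F) z) z :=
    (h1.differentiable one_ne_zero z).hasFDerivAt
  have h3 := h2.clm_apply (hasFDerivAt_const u z)
  rw [h3.fderiv]
  simp

theorem fderiv_symm {F : ℂ → ℂ} (hF : ContDiff ℝ 2 F) (z u v : ℂ) :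
    fderiv ℝ (fderiv ℝ F) z v u = fderiv ℝ (fderiv ℝ F) z u v := by
  have := (hF.contDiffAt (x := z)).isSymmSndFDerivAt (by simp)
  exact this v u

theorem cd_fd {F : ℂ → ℂ} {n m : WithTop ℕ∞} (hF : ContDiff ℝ n F) (hmn : m + 1 ≤ n) (v : ℂ) :
    ContDiff ℝ m (fun z => fderiv ℝ F z v) :=
  (hF.fderiv_right hmn).clm_apply contDiff_const

theorem cd_dz {F : ℂ → ℂ} {n m : WithTop ℕ∞} (hF : ContDiff ℝ n F) (hmn : m + 1 ≤ n) :
    ContDiff ℝ m (dz F) := by
  unfold dz
  exact ((cd_fd hF hmn 1).sub (contDiff_const.mul (cd_fd hF hmn Complex.I))).div_const 2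

theorem cd_dbar {F : ℂ → ℂ} {n m : WithTop ℕ∞} (hF : ContDiff ℝ n F) (hmn : m + 1 ≤ n) :
    ContDiff ℝ m (dbar F) := by
  unfold dbar
  exact ((cd_fd hF hmn 1).add (contDiff_const.mul (cd_fd hF hmn Complex.I))).div_const 2

theorem cdi_dz {F : ℂ → ℂ} (hF : ContDiff ℝ ∞ F) : ContDiff ℝ ∞ (dz F) :=
  cd_dz hF (by simp)

theorem cdi_dbar {F : ℂ → ℂ} (hF : ContDiff ℝ ∞ F) : ContDiff ℝ ∞ (dbar F) :=
  cd_dbar hF (by simp)

theorem fd_lin {F : ℂ → ℂ} (hF : ContDiff ℝ 2 F) (c z v : ℂ) :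
    fderiv ℝ (fun z => (fderiv ℝ F z 1 + c * fderiv ℝ F z Complex.I) / 2) z v =
      (fderiv ℝ (fderiv ℝ F) z v 1 + c * fderiv ℝ (fderiv ℝ F) z v Complex.I) / 2 := by
  have d1 : DifferentiableAt ℝ (fun z => fderiv ℝ F z 1) z :=
    (cd_fd (m := 1) hF (by norm_num) 1).differentiable one_ne_zero z
  have d2 : DifferentiableAt ℝ (fun z => fderiv ℝ F z Complex.I) z :=
    (cd_fd (m := 1) hF (by norm_num) Complex.I).differentiable one_ne_zero z
  have h1 := (d1.hasFDerivAt.add (d2.hasFDerivAt.const_mul c)).mul_const (2⁻¹ : ℂ)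
  have e : (fun z => (fderiv ℝ F z 1 + c * fderiv ℝ F z Complex.I) / 2) =
      fun z => (fderiv ℝ F z 1 + c * fderiv ℝ F z Complex.I) * 2⁻¹ := by
    funext z
    rw [div_eq_mul_inv]
  rw [e]
  have h2 : HasFDerivAt (fun z => (fderiv ℝ F z 1 + c * fderiv ℝ F z Complex.I) * 2⁻¹) _ z := h1
  rw [h2.fderiv]
  simp only [smul_apply, add_apply, smul_eq_mul]
  rw [fderiv_fderiv hF, fderiv_fderiv hF]
  ring

theorem dz_dbar {F : ℂ → ℂ} (hF : ContDiff ℝ 2 F) (z : ℂ) : dz (dbar F) z = dbar (dz F) z := by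
  have e1 : dbar F = fun z => (fderiv ℝ F z 1 + Complex.I * fderiv ℝ F z Complex.I) / 2 := rfl
  have e2 : dz F = fun z => (fderiv ℝ F z 1 + (-Complex.I) * fderiv ℝ F z Complex.I) / 2 := by
    funext z
    unfold dz
    ring
  rw [e1, e2]
  unfold dz dbar
  rw [fd_lin hF, fd_lin hF, fd_lin hF, fd_lin hF, fderiv_symm hF z Complex.I 1]
  ring

/-- the energy identity, bilinear form -/
theorem energy_bil {F G : ℂ → ℂ} (hF : ContDiff ℝ 2 F) (hG : ContDiff ℝ 2 G)
    (hc : HasCompactSupport F) :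
    ∫ z, dz F z * dbar G z = ∫ z, dbar F z * dz G z := by
  have hF1 : ContDiff ℝ 1 F := hF.of_le (by norm_num)
  have h1 := parts_dz (F := dbar G) (G := F) (cd_dbar hG (by norm_num)) hF1 hc
  have h2 := parts_dbar (F := dz G) (G := F) (cd_dz hG (by norm_num)) hF1 hc
  calc ∫ z, dz F z * dbar G z = ∫ z, dbar G z * dz F z := by
        congr 1; funext z; ring
    _ = -∫ z, dz (dbar G) z * F z := h1
    _ = -∫ z, dbar (dz G) z * F z := by
        congr 2; funext z; rw [dz_dbar hG]
    _ = ∫ z, dz G z * dbar F z := h2.symm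
    _ = ∫ z, dbar F z * dz G z := by congr 1; funext z; ring

theorem mul_cj_self (w : ℂ) : w * cj w = ((‖w‖ ^ 2 : ℝ) : ℂ) := by
  rw [Complex.mul_conj, Complex.normSq_eq_norm_sq]

/-- the energy identity -/
theorem energy {F : ℂ → ℂ} (hF : ContDiff ℝ 2 F) (hc : HasCompactSupport F) :
    ∫ z, ‖dz F z‖ ^ 2 = ∫ z, ‖dbar F z‖ ^ 2 := by
  have hd : Differentiable ℝ F := hF.differentiable (by norm_num)
  have h := energy_bil (F := F) (G := fun z => cj (F z)) hF (cd_cj hF) hc
  have e1 : (fun z => dz F z * dbar (fun z => cj (F z)) z) =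
      fun z => ((‖dz F z‖ ^ 2 : ℝ) : ℂ) := by
    funext z
    rw [dbar_cj (hd z), mul_cj_self]
  have e2 : (fun z => dbar F z * dz (fun z => cj (F z)) z) =
      fun z => ((‖dbar F z‖ ^ 2 : ℝ) : ℂ) := by
    funext z
    rw [dz_cj (hd z), mul_cj_self]
  rw [e1, e2] at h
  have h3 := (integral_ofReal (𝕜 := ℂ) (μ := volume) (f := fun z => ‖dz F z‖ ^ 2)).symm.trans
    (h.trans (integral_ofReal (𝕜 := ℂ) (μ := volume) (f := fun z => ‖dbar F z‖ ^ 2)))
  exact Complex.ofReal_injective h3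

end Pool.Agent.H20.JL
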