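import Mathlib
import Pool.Agent.H20.JL.Calc

/-! # The Cauchy transform and the contraction property of the Beurling transform -/

set_option autoImplicit false

open Topology Filter Metric Set MeasureTheory
open Pool.Agent.Split938
open scoped ContDiff

namespace Pool.Agent.H20.JL

/-- the Cauchy transform (without the factor `1 / π`) -/
noncomputable def CT (V : ℂ → ℂ) (z : ℂ) : ℂ := ∫ t, t⁻¹ * V (z - t)

theorem CT_eq (V : ℂ → ℂ) (z : ℂ) : CT V z = ∫ y, V y / (z - y) := by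
  unfold CT
  have h := integral_sub_left_eq_self (μ := volume) (fun t : ℂ => t⁻¹ * V (z - t)) z
  rw [← h]
  congr 1
  funext y
  rw [sub_sub_cancel, div_eq_mul_inv, mul_comm]

theorem CT_smooth {V : ℂ → ℂ} (hV : ContDiff ℝ ∞ V) (hc : HasCompactSupport V) :
    ContDiff ℝ ∞ (CT V) := (Pool.Agent.Helper366.IV.zbar733 V hV hc).1

theorem dbar_CT {V : ℂ → ℂ} (hV : ContDiff ℝ ∞ V) (hc : HasCompactSupport V) (z : ℂ) :
    dbar (CT V) z = Real.pi * V z := (Pool.Agent.Helper366.IV.zbar733 V hV hc).2 z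

theorem CT_decay {V : ℂ → ℂ} (hV : Integrable V) {R : ℝ}
    (hs : ∀ z, R < ‖z‖ → V z = 0) {z : ℂ} (hz0 : 0 < ‖z‖) (hz : 2 * R ≤ ‖z‖) :
    ‖CT V z‖ ≤ 2 * (∫ y, ‖V y‖) / ‖z‖ := by
  rw [CT_eq]
  have h1 : ∀ y, ‖V y / (z - y)‖ ≤ ‖V y‖ * (2 / ‖z‖) := by
    intro y
    rcases lt_or_ge R ‖y‖ with h | h
    · rw [hs y h]; simp
    · rw [norm_div]
      have h2 : ‖z‖ / 2 ≤ ‖z - y‖ := by
        have := norm_sub_norm_le z y
        linarith
      have h3 : 0 < ‖z‖ / 2 := by linarith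
      rw [div_eq_mul_inv]
      apply mul_le_mul_of_nonneg_left _ (norm_nonneg _)
      calc ‖z - y‖⁻¹ ≤ (‖z‖ / 2)⁻¹ := inv_anti₀ h3 h2
        _ = 2 / ‖z‖ := by rw [inv_div]
  refine (norm_integral_le_of_norm_le (hV.norm.mul_const _) (Eventually.of_forall h1)).trans ?_
  rw [integral_mul_const]
  exact le_of_eq (by ring)

/-- a bump -/
noncomputable def cut : ContDiffBump (0 : ℂ) := ⟨1, 2, one_pos, one_lt_two⟩

/-- scaled complex valued cutoff: one for `‖z‖ ≤ r`, zero for `2 r ≤ ‖z‖` -/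
noncomputable def ct (r : ℝ) (z : ℂ) : ℂ := ((cut (r⁻¹ • z) : ℝ) : ℂ)

theorem ct_one {r : ℝ} (hr : 0 < r) {z : ℂ} (h : ‖z‖ ≤ r) : ct r z = 1 := by
  unfold ct
  rw [cut.one_of_mem_closedBall, Complex.ofReal_one]
  simp only [cut, mem_closedBall_zero_iff, norm_smul, norm_inv, Real.norm_eq_abs, abs_of_pos hr]
  rw [inv_mul_le_iff₀ hr, mul_one]
  exact h

theorem ct_zero {r : ℝ} (hr : 0 < r) {z : ℂ} (h : 2 * r ≤ ‖z‖) : ct r z = 0 := by
  unfold ct
  rw [cut.zero_of_le_dist, Complex.ofReal_zero]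
  simp only [cut, dist_zero_right, norm_smul, norm_inv, Real.norm_eq_abs, abs_of_pos hr]
  rw [le_inv_mul_iff₀ hr]
  linarith

theorem ct_norm (r : ℝ) (z : ℂ) : ‖ct r z‖ ≤ 1 := by
  unfold ct
  rw [Complex.norm_real, Real.norm_eq_abs, abs_of_nonneg cut.nonneg]
  exact cut.le_one

theorem ct_smooth (r : ℝ) : ContDiff ℝ ∞ (ct r) := by
  unfold ct
  exact Complex.ofRealCLM.contDiff.comp (cut.contDiff.comp (contDiff_const_smul _))

theorem ct_hcs {r : ℝ} (hr : 0 < r) : HasCompactSupport (ct r) := by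
  refine HasCompactSupport.intro (K := closedBall 0 (2 * r)) (isCompact_closedBall _ _)
    fun z hz => ?_
  rw [mem_closedBall_zero_iff, not_le] at hz
  exact ct_zero hr hz.le

theorem norm_dbar_le (f : ℂ → ℂ) (z : ℂ) : ‖dbar f z‖ ≤ ‖fderiv ℝ f z‖ := by
  unfold dbar
  have h1 : ‖fderiv ℝ f z 1‖ ≤ ‖fderiv ℝ f z‖ := by
    simpa using (fderiv ℝ f z).le_opNorm 1
  have h2 : ‖fderiv ℝ f z Complex.I‖ ≤ ‖fderiv ℝ f z‖ := by
    simpa using (fderiv ℝ f z).le_opNorm Complex.I
  rw [norm_div, Complex.norm_ofNat]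
  have h3 := norm_add_le (fderiv ℝ f z 1) (Complex.I * fderiv ℝ f z Complex.I)
  rw [norm_mul, Complex.norm_I, one_mul] at h3
  linarith

theorem ct_bound : ∃ C : ℝ, 0 ≤ C ∧ ∀ r : ℝ, 0 < r → ∀ z, ‖dbar (ct r) z‖ ≤ C / r := by
  have hc : Continuous (fderiv ℝ (cut : ℂ → ℝ)) :=
    (cut.contDiff (n := 1)).continuous_fderiv (by norm_num)
  have hs : HasCompactSupport (fderiv ℝ (cut : ℂ → ℝ)) := cut.hasCompactSupport.fderiv ℝ
  obtain ⟨C, hC⟩ := hs.exists_bound_of_continuous hc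
  refine ⟨C, (norm_nonneg _).trans (hC 0), fun r hr z => ?_⟩
  have h1 : HasFDerivAt (cut : ℂ → ℝ) (fderiv ℝ (cut : ℂ → ℝ) (r⁻¹ • z)) (r⁻¹ • z) :=
    ((cut.contDiff (n := 1)).differentiable (by norm_num) _).hasFDerivAt
  have h2 : HasFDerivAt (fun z : ℂ => r⁻¹ • z) (r⁻¹ • ContinuousLinearMap.id ℝ ℂ) z :=
    (hasFDerivAt_id z).const_smul (r⁻¹)
  have h3 := h1.comp z h2
  have h3' : HasFDerivAt (ct r) (Complex.ofRealCLM.comp ((fderiv ℝ (cut : ℂ → ℝ) (r⁻¹ • z)).comp
      (r⁻¹ • ContinuousLinearMap.id ℝ ℂ))) z := (Complex.ofRealCLM.hasFDerivAt).comp z h3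
  refine (norm_dbar_le _ _).trans ?_
  rw [h3'.fderiv, ContinuousLinearMap.comp_smul, ContinuousLinearMap.comp_id]
  refine (ContinuousLinearMap.opNorm_comp_le _ _).trans ?_
  rw [Complex.ofRealCLM_norm, one_mul, norm_smul, norm_inv, Real.norm_eq_abs, abs_of_pos hr,
    div_eq_inv_mul]
  exact mul_le_mul_of_nonneg_left (hC _) (inv_nonneg.2 hr.le)

theorem sq_int {F : ℂ → ℂ} (hF : Continuous F) (hc : HasCompactSupport F) :
    Integrable (fun z => ‖F z‖ ^ 2) := by
  have h1 : Continuous (fun z => ‖F z‖ ^ 2) := hF.norm.pow 2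
  have h2 : HasCompactSupport (fun z => ‖F z‖ ^ 2) :=
    hc.comp_left (g := fun w : ℂ => ‖w‖ ^ 2) (by simp)
  exact h1.integrable_of_hasCompactSupport h2

/-- The Beurling transform is a contraction. -/
theorem bl_contr {V G : ℂ → ℂ} (hV : ContDiff ℝ ∞ V) (hVc : HasCompactSupport V)
    (hG : ContDiff ℝ ∞ G) (hGc : HasCompactSupport G) :
    ‖∫ z, CT V z * dz G z‖ ≤ Real.pi / 2 * ((∫ z, ‖V z‖ ^ 2) + ∫ z, ‖G z‖ ^ 2) := by
  have hpi := Real.pi_pos
  obtain ⟨C, hC0, hC⟩ := ct_bound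
  obtain ⟨R, hR0, hRV, hRG⟩ : ∃ R : ℝ, 0 < R ∧ (∀ z, R < ‖z‖ → V z = 0) ∧
      ∀ z, R < ‖z‖ → z ∉ tsupport G := by
    obtain ⟨r1, hr1⟩ := hVc.isCompact.isBounded.subset_closedBall (0 : ℂ)
    obtain ⟨r2, hr2⟩ := hGc.isCompact.isBounded.subset_closedBall (0 : ℂ)
    refine ⟨max 1 (max r1 r2), lt_of_lt_of_le one_pos (le_max_left _ _), fun z hz => ?_,
      fun z hz h => ?_⟩
    · by_contra h
      have := mem_closedBall_zero_iff.1 (hr1 (subset_tsupport V h))
      have := (le_max_left r1 r2).trans (le_max_right 1 (max r1 r2))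
      linarith
    · have := mem_closedBall_zero_iff.1 (hr2 h)
      have := (le_max_right r1 r2).trans (le_max_right 1 (max r1 r2))
      linarith
  have hV1 : ContDiff ℝ 1 V := hV.of_le (by exact_mod_cast le_top)
  have hVi : Integrable V := hV.continuous.integrable_of_hasCompactSupport hVc
  set u := CT V with hu
  have hus : ContDiff ℝ ∞ u := CT_smooth hV hVc
  set I₁ : ℝ := ∫ y, ‖V y‖ with hI₁
  have hI₁0 : 0 ≤ I₁ := integral_nonneg fun _ => norm_nonneg _
  set C' : ℝ := (2 * I₁) ^ 2 * C ^ 2 * (4 * Real.pi) with hC'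
  have hC'0 : 0 ≤ C' := by positivity
  -- the estimate at radius `r`
  have key : ∀ r : ℝ, 2 * R ≤ r → ‖∫ z, u z * dz G z‖ ≤
      Real.pi / 2 * ((∫ z, ‖V z‖ ^ 2) + ∫ z, ‖G z‖ ^ 2) + (2 * Real.pi)⁻¹ * (C' / r ^ 2) := by
    intro r hr
    have hr0 : 0 < r := by linarith
    set v : ℂ → ℂ := fun z => ct r z * u z with hv
    have hvs : ContDiff ℝ ∞ v := (ct_smooth r).mul hus
    have hvc : HasCompactSupport v := (ct_hcs hr0).mul_right
    have hv1 : ContDiff ℝ 1 v := hvs.of_le (by exact_mod_cast le_top)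
    have hv2 : ContDiff ℝ 2 v := hvs.of_le
      (WithTop.coe_le_coe.2 (le_top : ((2 : ℕ) : ℕ∞) ≤ ⊤))
    have hG1 : ContDiff ℝ 1 G := hG.of_le (by exact_mod_cast le_top)
    have e1 : ∫ z, u z * dz G z = ∫ z, v z * dz G z := by
      congr 1
      funext z
      rcases lt_or_ge R ‖z‖ with h | h
      · rw [dz_zero_off (hRG z h), mul_zero, mul_zero]
      · simp only [hv]
        rw [ct_one hr0 (by linarith), one_mul]
    rw [e1, parts_dz hv1 hG1 hGc, norm_neg]
    have hdzi : Integrable (fun z => ‖dz v z‖ ^ 2) :=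
      sq_int (dz_continuous hv1) (dz_hcs hvc)
    have hdbi : Integrable (fun z => ‖dbar v z‖ ^ 2) :=
      sq_int (dbar_continuous hv1) (dbar_hcs hvc)
    have hGi : Integrable (fun z => ‖G z‖ ^ 2) := sq_int hG.continuous hGc
    have hVi2 : Integrable (fun z => ‖V z‖ ^ 2) := sq_int hV.continuous hVc
    have e2 : ‖∫ z, dz v z * G z‖ ≤
        ∫ z, ((2 * Real.pi)⁻¹ * ‖dz v z‖ ^ 2 + Real.pi / 2 * ‖G z‖ ^ 2) := by
      refine norm_integral_le_of_norm_le ((hdzi.const_mul _).add (hGi.const_mul _))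
        (Eventually.of_forall fun z => ?_)
      rw [norm_mul]
      have h1 : 0 ≤ (2 * Real.pi)⁻¹ * (‖dz v z‖ - Real.pi * ‖G z‖) ^ 2 := by positivity
      have h2 : (2 * Real.pi)⁻¹ * (‖dz v z‖ - Real.pi * ‖G z‖) ^ 2 =
          ((2 * Real.pi)⁻¹ * ‖dz v z‖ ^ 2 + Real.pi / 2 * ‖G z‖ ^ 2) - ‖dz v z‖ * ‖G z‖ := by
        field_simp
        ring
      linarith
    refine e2.trans ?_
    rw [integral_add (hdzi.const_mul _) (hGi.const_mul _), integral_const_mul,
      integral_const_mul, energy hv2 hvc]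
    -- the bound for `dbar v`
    have hpt : ∀ z, ‖dbar v z‖ ^ 2 ≤ Real.pi ^ 2 * ‖V z‖ ^ 2 +
        (closedBall (0 : ℂ) (2 * r)).indicator (fun _ => ((2 * I₁ / r) * (C / r)) ^ 2) z := by
      intro z
      have hd : dbar v z = ct r z * (Real.pi * V z) + dbar (ct r) z * u z := by
        rw [hv, dbar_mul ((ct_smooth r).differentiable (by simp) z)
          (hus.differentiable (by simp) z), hu, dbar_CT hV hVc]
      rcases lt_or_ge ‖z‖ r with h | h
      · have h1 : dbar (ct r) z = 0 := by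
          have : ct r =ᶠ[𝓝 z] fun _ => 1 := by
            have ho : IsOpen {w : ℂ | ‖w‖ < r} := isOpen_lt continuous_norm continuous_const
            filter_upwards [ho.mem_nhds h] with w hw
            exact ct_one hr0 (le_of_lt hw)
          rw [dbar_congr this]
          unfold dbar
          simp
        rw [hd, h1, zero_mul, add_zero, ct_one hr0 h.le, one_mul, norm_mul, Complex.norm_real,
          Real.norm_eq_abs, abs_of_pos hpi, mul_pow]
        have : 0 ≤ (closedBall (0 : ℂ) (2 * r)).indicator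
          (fun _ => ((2 * I₁ / r) * (C / r)) ^ 2) z := indicator_nonneg (fun _ _ => by positivity) z
        linarith
      · have hV0 : V z = 0 := hRV z (by linarith)
        rw [hd, hV0, mul_zero, mul_zero, zero_add, norm_zero]
        have hz0 : 0 < ‖z‖ := by linarith
        rcases le_or_gt ‖z‖ (2 * r) with h' | h'
        · rw [indicator_of_mem (mem_closedBall_zero_iff.2 h')]
          have h2 : ‖dbar (ct r) z * u z‖ ≤ (2 * I₁ / r) * (C / r) := by
            rw [norm_mul, mul_comm]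
            have h3 := CT_decay hVi hRV hz0 (by linarith)
            have h4 : 2 * I₁ / ‖z‖ ≤ 2 * I₁ / r :=
              div_le_div_of_nonneg_left (by positivity) hr0 h
            exact mul_le_mul (h3.trans h4) (hC r hr0 z) (norm_nonneg _) (by positivity)
          have h5 := pow_le_pow_left₀ (norm_nonneg _) h2 2
          linarith
        · have h1 : dbar (ct r) z = 0 := by
            have : ct r =ᶠ[𝓝 z] fun _ => 0 := by
              have ho : IsOpen {w : ℂ | 2 * r < ‖w‖} := isOpen_lt continuous_const continuous_norm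
              filter_upwards [ho.mem_nhds h'] with w hw
              exact ct_zero hr0 (le_of_lt hw)
            rw [dbar_congr this]
            unfold dbar
            simp
          rw [h1, zero_mul, norm_zero]
          have : 0 ≤ (closedBall (0 : ℂ) (2 * r)).indicator
            (fun _ => ((2 * I₁ / r) * (C / r)) ^ 2) z :=
            indicator_nonneg (fun _ _ => by positivity) z
          have h6 : (0 : ℝ) ^ 2 = 0 := by norm_num
          rw [h6, mul_zero, zero_add]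
          exact this
    have hindi : Integrable ((closedBall (0 : ℂ) (2 * r)).indicator
        (fun _ => ((2 * I₁ / r) * (C / r)) ^ 2)) := by
      rw [integrable_indicator_iff measurableSet_closedBall]
      exact integrableOn_const measure_closedBall_lt_top.ne
    have e3 : ∫ z, ‖dbar v z‖ ^ 2 ≤ Real.pi ^ 2 * (∫ z, ‖V z‖ ^ 2) + C' / r ^ 2 := by
      refine (integral_mono hdbi ((hVi2.const_mul _).add hindi) hpt).trans (le_of_eq ?_)
      rw [integral_add' (hVi2.const_mul _) hindi, integral_const_mul,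
        integral_indicator measurableSet_closedBall, setIntegral_const, smul_eq_mul,
        Measure.real, Complex.volume_closedBall]
      have e4 : (ENNReal.ofReal (2 * r) ^ 2 * (NNReal.pi : ENNReal)).toReal =
          (2 * r) ^ 2 * Real.pi := by
        rw [ENNReal.toReal_mul, ENNReal.toReal_pow, ENNReal.toReal_ofReal (by positivity)]
        rfl
      rw [e4, hC']
      field_simp
      ring
    have h7 := mul_le_mul_of_nonneg_left e3 (by positivity : 0 ≤ (2 * Real.pi)⁻¹)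
    have h8 : (2 * Real.pi)⁻¹ * (Real.pi ^ 2 * (∫ z, ‖V z‖ ^ 2) + C' / r ^ 2) =
        Real.pi / 2 * (∫ z, ‖V z‖ ^ 2) + (2 * Real.pi)⁻¹ * (C' / r ^ 2) := by
      field_simp
    rw [h8] at h7
    linarith
  -- the limit
  have hlim : Tendsto (fun r : ℝ => Real.pi / 2 * ((∫ z, ‖V z‖ ^ 2) + ∫ z, ‖G z‖ ^ 2) +
      (2 * Real.pi)⁻¹ * (C' / r ^ 2)) atTop
      (𝓝 (Real.pi / 2 * ((∫ z, ‖V z‖ ^ 2) + ∫ z, ‖G z‖ ^ 2) + (2 * Real.pi)⁻¹ * 0)) := by
    apply Tendsto.const_add
    apply Tendsto.const_mul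
    exact Tendsto.div_atTop tendsto_const_nhds (tendsto_pow_atTop (by norm_num))
  rw [mul_zero, add_zero] at hlim
  exact ge_of_tendsto hlim (by
    filter_upwards [eventually_ge_atTop (2 * R)] with r hr
    exact key r hr)

end Pool.Agent.H20.JL
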