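import Mathlib
import Pool.Agent.H20.JL.Cau
import Pool.Graph.R_seed8.Helper114.MontelSol

/-! # The kernel of a univalent function -/

set_option autoImplicit false

open Topology Filter Metric Set MeasureTheory
open Pool.Agent.Split938
open scoped ContDiff

namespace Pool.Agent.H20.JL

/-- difference quotients -/
noncomputable def Q (F : ℂ → ℂ) (p : ℂ × ℂ) : ℂ := dslope F p.2 p.1

theorem Q_ne {F : ℂ → ℂ} {p : ℂ × ℂ} (h : p.1 ≠ p.2) : Q F p = (F p.1 - F p.2) / (p.1 - p.2) := by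
  unfold Q
  rw [dslope_of_ne _ h, slope_def_field]

theorem Q_same (F : ℂ → ℂ) (z : ℂ) : Q F (z, z) = deriv F z := by
  unfold Q
  exact dslope_same _ _

theorem Q_sub {F G : ℂ → ℂ} {p : ℂ × ℂ} (hF : DifferentiableAt ℂ F p.2)
    (hG : DifferentiableAt ℂ G p.2) : Q (fun z => F z - G z) p = Q F p - Q G p := by
  by_cases h : p.1 = p.2
  · have hp : p = (p.2, p.2) := Prod.ext h rfl
    rw [hp, Q_same, Q_same, Q_same]
    exact deriv_fun_sub hF hG
  · rw [Q_ne h, Q_ne h, Q_ne h]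
    ring

theorem Q_mv {G : ℂ → ℂ} {a : ℂ} {r ε : ℝ} (hG : DifferentiableOn ℂ G (ball a r))
    (hb : ∀ w ∈ ball a r, ‖deriv G w‖ ≤ ε) {p : ℂ × ℂ} (h1 : p.1 ∈ ball a r)
    (h2 : p.2 ∈ ball a r) : ‖Q G p‖ ≤ ε := by
  by_cases h : p.1 = p.2
  · have hp : p = (p.2, p.2) := Prod.ext h rfl
    rw [hp, Q_same]
    exact hb _ h2
  · rw [Q_ne h, norm_div, div_le_iff₀ (norm_pos_iff.2 (sub_ne_zero.2 h))]
    exact (convex_ball a r).norm_image_sub_le_of_norm_deriv_le
      (fun w hw => hG.differentiableAt (isOpen_ball.mem_nhds hw)) hb h2 h1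

/-- the difference quotient is continuous -/
theorem Q_cont {W : Set ℂ} (hW : IsOpen W) {F : ℂ → ℂ} (hF : DifferentiableOn ℂ F W) :
    ContinuousOn (Q F) (W ×ˢ W) := by
  rintro ⟨a, b⟩ ⟨ha, hb⟩
  apply ContinuousAt.continuousWithinAt
  by_cases h : a = b
  · subst h
    rw [Metric.continuousAt_iff]
    intro ε hε
    have hd : ContinuousAt (deriv F) a :=
      ((hF.analyticOnNhd hW) a ha).deriv.continuousAt
    rw [Metric.continuousAt_iff] at hd
    obtain ⟨δ, hδ, hδ'⟩ := hd (ε / 2) (by positivity)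
    obtain ⟨s, hs, hsW⟩ := Metric.isOpen_iff.1 hW a ha
    refine ⟨min δ s, lt_min hδ hs, ?_⟩
    rintro ⟨x, y⟩ hxy
    rw [Prod.dist_eq, max_lt_iff] at hxy
    have hx : x ∈ ball a (min δ s) := hxy.1
    have hy : y ∈ ball a (min δ s) := hxy.2
    have hsub : ball a (min δ s) ⊆ W := (ball_subset_ball (min_le_right _ _)).trans hsW
    have hFd : DifferentiableOn ℂ (fun w => F w - deriv F a * w) (ball a (min δ s)) :=
      (hF.mono hsub).sub (differentiableOn_id.const_mul _)
    have hm := Q_mv (ε := ε / 2) hFd (by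
      intro w hw
      have e : deriv (fun w => F w - deriv F a * w) w = deriv F w - deriv F a := by
        have d1 := ((hF.mono hsub).differentiableAt (isOpen_ball.mem_nhds hw)).hasDerivAt
        have d2 := (hasDerivAt_id w).const_mul (deriv F a)
        rw [mul_one] at d2
        exact (d1.sub d2).deriv
      rw [e, ← dist_eq_norm]
      exact (hδ' (lt_of_lt_of_le hw (min_le_left _ _))).le) (p := (x, y)) hx hy
    rw [Q_sub (G := fun w => deriv F a * w) (p := (x, y))
      ((hF.mono hsub).differentiableAt (isOpen_ball.mem_nhds hy))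
      (differentiableAt_id.const_mul _)] at hm
    have e2 : Q (fun w => deriv F a * w) (x, y) = deriv F a := by
      by_cases h : x = y
      · subst h
        rw [Q_same]
        have d2 := (hasDerivAt_id x).const_mul (deriv F a)
        rw [mul_one] at d2
        exact d2.deriv
      · rw [Q_ne (by exact h), ← mul_sub, mul_div_assoc, div_self (sub_ne_zero.2 h), mul_one]
    rw [e2] at hm
    rw [Q_same, dist_eq_norm]
    linarith
  · have h1 : (fun p : ℂ × ℂ => (F p.1 - F p.2) / (p.1 - p.2)) =ᶠ[𝓝 (a, b)] Q F := by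
      have ho : IsOpen {p : ℂ × ℂ | p.1 ≠ p.2} :=
        isOpen_ne_fun continuous_fst continuous_snd
      filter_upwards [ho.mem_nhds h] with p hp
      exact (Q_ne hp).symm
    refine ContinuousAt.congr ?_ h1
    have ca : ContinuousAt F a := (hF.differentiableAt (hW.mem_nhds ha)).continuousAt
    have cb : ContinuousAt F b := (hF.differentiableAt (hW.mem_nhds hb)).continuousAt
    apply ContinuousAt.div
    · exact (ContinuousAt.comp (x := (a, b)) (f := fun p : ℂ × ℂ => p.1) ca continuousAt_fst).sub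
        (ContinuousAt.comp (x := (a, b)) (f := fun p : ℂ × ℂ => p.2) cb continuousAt_snd)
    · exact continuousAt_fst.sub continuousAt_snd
    · exact sub_ne_zero.2 h

theorem Q_ne_zero {W : Set ℂ} (hW : IsOpen W) {F : ℂ → ℂ} (hF : DifferentiableOn ℂ F W)
    (hi : InjOn F W) {p : ℂ × ℂ} (h1 : p.1 ∈ W) (h2 : p.2 ∈ W) : Q F p ≠ 0 := by
  by_cases h : p.1 = p.2
  · have hp : p = (p.2, p.2) := Prod.ext h rfl
    rw [hp, Q_same]
    exact Pool.Agent.Helper114.Montel.deriv_ne_zero_of_injOn hW F hF hi h2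
  · rw [Q_ne h]
    exact div_ne_zero (sub_ne_zero.2 fun e => h (hi h1 h2 e)) (sub_ne_zero.2 h)

/-- local uniform convergence of the difference quotients -/
theorem Q_tendsto {ι : Type} {l : Filter ι} {W : Set ℂ} (hW : IsOpen W)
    {F : ι → ℂ → ℂ} {Φ : ℂ → ℂ} (hF : ∀ᶠ i in l, DifferentiableOn ℂ (F i) W)
    (hΦ : DifferentiableOn ℂ Φ W)
    (hlim : TendstoLocallyUniformlyOn F Φ l W) :
    TendstoLocallyUniformlyOn (fun i => Q (F i)) (Q Φ) l (W ×ˢ W) := by
  have hlimd := hlim.deriv hF hW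
  rw [Metric.tendstoLocallyUniformlyOn_iff]
  rintro ε hε ⟨a, b⟩ ⟨ha, hb⟩
  by_cases h : a = b
  · subst h
    obtain ⟨s, hs, hsW⟩ := Metric.isOpen_iff.1 hW a ha
    have hcW : closedBall a (s / 2) ⊆ W := (closedBall_subset_ball (by linarith)).trans hsW
    have hu := (tendstoLocallyUniformlyOn_iff_forall_isCompact hW).1 hlimd _ hcW
      (isCompact_closedBall _ _)
    rw [Metric.tendstoUniformlyOn_iff] at hu
    refine ⟨ball a (s / 2) ×ˢ ball a (s / 2), mem_nhdsWithin_of_mem_nhds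
      (prod_mem_nhds (ball_mem_nhds _ (by positivity)) (ball_mem_nhds _ (by positivity))), ?_⟩
    filter_upwards [hu (ε / 2) (by positivity), hF] with i hi hFi
    rintro ⟨x, y⟩ ⟨hx, hy⟩
    have hbW : ball a (s / 2) ⊆ W := ball_subset_closedBall.trans hcW
    have hm := Q_mv (G := fun w => Φ w - F i w) (ε := ε / 2) ((hΦ.mono hbW).sub (hFi.mono hbW)) (by
      intro w hw
      rw [deriv_fun_sub (hΦ.differentiableAt (hW.mem_nhds (hbW hw)))
        (hFi.differentiableAt (hW.mem_nhds (hbW hw))), ← dist_eq_norm]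
      exact (hi w (ball_subset_closedBall hw)).le) (p := (x, y)) hx hy
    rw [Q_sub (hΦ.differentiableAt (hW.mem_nhds (hbW hy)))
      (hFi.differentiableAt (hW.mem_nhds (hbW hy)))] at hm
    rw [dist_eq_norm]
    linarith
  · obtain ⟨s1, hs1, hs1W⟩ := Metric.isOpen_iff.1 hW a ha
    obtain ⟨s2, hs2, hs2W⟩ := Metric.isOpen_iff.1 hW b hb
    have hab : 0 < dist a b := dist_pos.2 h
    set s := min (min (s1 / 2) (s2 / 2)) (dist a b / 4) with hs
    have hs0 : 0 < s := by positivity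
    have e1 : s ≤ s1 / 2 := (min_le_left _ _).trans (min_le_left _ _)
    have e2 : s ≤ s2 / 2 := (min_le_left _ _).trans (min_le_right _ _)
    have e3 : s ≤ dist a b / 4 := min_le_right _ _
    have hcW : closedBall a s ∪ closedBall b s ⊆ W := by
      apply union_subset
      · exact (closedBall_subset_ball (by linarith)).trans hs1W
      · exact (closedBall_subset_ball (by linarith)).trans hs2W
    have hu := (tendstoLocallyUniformlyOn_iff_forall_isCompact hW).1 hlim _ hcW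
      ((isCompact_closedBall _ _).union (isCompact_closedBall _ _))
    rw [Metric.tendstoUniformlyOn_iff] at hu
    refine ⟨ball a s ×ˢ ball b s, mem_nhdsWithin_of_mem_nhds
      (prod_mem_nhds (ball_mem_nhds _ hs0) (ball_mem_nhds _ hs0)), ?_⟩
    filter_upwards [hu (ε * dist a b / 8) (by positivity)] with i hi
    rintro ⟨x, y⟩ ⟨hx, hy⟩
    have hx' : dist x a < s := hx
    have hy' : dist y b < s := hy
    have hxy : dist a b / 2 ≤ dist x y := by
      have := dist_triangle4 a x y b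
      rw [dist_comm a x] at this
      linarith
    have hne : x ≠ y := by
      intro e
      rw [e, dist_self] at hxy
      linarith
    have k1 := hi x (Or.inl (ball_subset_closedBall hx))
    have k2 := hi y (Or.inr (ball_subset_closedBall hy))
    rw [dist_eq_norm, Q_ne (by exact hne), Q_ne (by exact hne), ← sub_div, norm_div,
      ← dist_eq_norm x y]
    rw [div_lt_iff₀ (by linarith)]
    have k3 : ‖Φ x - Φ y - (F i x - F i y)‖ ≤ dist (Φ x) (F i x) + dist (Φ y) (F i y) := by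
      rw [dist_eq_norm, dist_eq_norm]
      have : Φ x - Φ y - (F i x - F i y) = (Φ x - F i x) - (Φ y - F i y) := by ring
      rw [this]
      exact norm_sub_le _ _
    have k4 : ε * (dist a b / 2) ≤ ε * dist x y := mul_le_mul_of_nonneg_left hxy hε.le
    simp only at k3 ⊢
    have k5 : 0 < ε * dist a b := by positivity
    linarith

/-- the regularised kernel -/
noncomputable def kc (F : ℂ → ℂ) (p : ℂ × ℂ) : ℂ := deriv F p.2 / Q F p

theorem kc_eq {F : ℂ → ℂ} {p : ℂ × ℂ} (h : p.1 ≠ p.2) :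
    kc F p / (p.1 - p.2) = deriv F p.2 / (F p.1 - F p.2) := by
  unfold kc
  rw [Q_ne h, div_div_eq_mul_div, div_div, mul_div_mul_right _ _ (sub_ne_zero.2 h)]

theorem kc_cont {W : Set ℂ} (hW : IsOpen W) {F : ℂ → ℂ} (hF : DifferentiableOn ℂ F W)
    (hi : InjOn F W) : ContinuousOn (kc F) (W ×ˢ W) := by
  unfold kc
  have hd : ContinuousOn (deriv F) W := (hF.analyticOnNhd hW).deriv.continuousOn
  exact (hd.comp continuousOn_snd (fun p hp => hp.2)).div (Q_cont hW hF)
    (fun p hp => Q_ne_zero hW hF hi hp.1 hp.2)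

/-- uniform convergence of the kernels on compact sets -/
theorem kc_tendsto {ι : Type} {l : Filter ι} {W S : Set ℂ} (hW : IsOpen W) (hS : IsCompact S)
    (hSW : S ⊆ W)
    {F : ι → ℂ → ℂ} {Φ : ℂ → ℂ} (hF : ∀ᶠ i in l, DifferentiableOn ℂ (F i) W)
    (hΦ : DifferentiableOn ℂ Φ W) (hΦi : InjOn Φ W)
    (hlim : TendstoLocallyUniformlyOn F Φ l W) {ε : ℝ} (hε : 0 < ε) :
    ∀ᶠ i in l, ∀ p ∈ S ×ˢ S, ‖kc (F i) p - kc Φ p‖ ≤ ε := by
  have hSS : IsCompact (S ×ˢ S) := hS.prod hS
  have hSSW : S ×ˢ S ⊆ W ×ˢ W := prod_mono hSW hSW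
  have hWW : IsOpen (W ×ˢ W) := hW.prod hW
  have hQc := (Q_cont hW hΦ).mono hSSW
  obtain ⟨m, hm, hmQ⟩ : ∃ m : ℝ, 0 < m ∧ ∀ p ∈ S ×ˢ S, m ≤ ‖Q Φ p‖ := by
    apply hSS.exists_forall_le' hQc.norm
    intro p hp
    exact norm_pos_iff.2 (Q_ne_zero hW hΦ hΦi (hSW hp.1) (hSW hp.2))
  have hd : ContinuousOn (deriv Φ) S := ((hΦ.analyticOnNhd hW).deriv.continuousOn).mono hSW
  obtain ⟨M₀, hM₀⟩ := hS.exists_bound_of_continuousOn hd
  set M : ℝ := max M₀ 0 with hM
  have hMb : ∀ z ∈ S, ‖deriv Φ z‖ ≤ M := fun z hz => (hM₀ z hz).trans (le_max_left _ _)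
  have hM0 : 0 ≤ M := le_max_right _ _
  set δ : ℝ := min (m / 2) (ε / (2 / m + 2 * M / m ^ 2 + 1)) with hδ
  have hc0 : 0 < 2 / m + 2 * M / m ^ 2 + 1 := by positivity
  have hδ0 : 0 < δ := by positivity
  have hu1 := (tendstoLocallyUniformlyOn_iff_forall_isCompact hWW).1 (Q_tendsto hW hF hΦ hlim) _
    hSSW hSS
  have hu2 := (tendstoLocallyUniformlyOn_iff_forall_isCompact hW).1 (hlim.deriv hF hW) _ hSW hS
  rw [Metric.tendstoUniformlyOn_iff] at hu1 hu2
  filter_upwards [hu1 δ hδ0, hu2 δ hδ0] with i h1 h2 p hp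
  have k1 := h1 p hp
  have k2 := h2 p.2 hp.2
  rw [dist_eq_norm] at k1 k2
  have k3 := hmQ p hp
  have k4 := hMb p.2 hp.2
  have hδm : δ ≤ m / 2 := min_le_left _ _
  have k5 : m / 2 ≤ ‖Q (F i) p‖ := by
    have := norm_sub_norm_le (Q Φ p) (Q (F i) p)
    linarith
  have n1 : Q Φ p ≠ 0 := norm_pos_iff.1 (by linarith)
  have n2 : Q (F i) p ≠ 0 := norm_pos_iff.1 (by linarith)
  have e : kc (F i) p - kc Φ p = -(deriv Φ p.2 - deriv (F i) p.2) / Q (F i) p +
      deriv Φ p.2 * (Q Φ p - Q (F i) p) / (Q Φ p * Q (F i) p) := by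
    unfold kc
    field_simp
    ring
  rw [e]
  refine (norm_add_le _ _).trans ?_
  rw [norm_div, norm_neg, norm_div, norm_mul, norm_mul]
  have t1 : ‖deriv Φ p.2 - deriv (F i) p.2‖ / ‖Q (F i) p‖ ≤ δ / (m / 2) :=
    div_le_div₀ hδ0.le k2.le (by positivity) k5
  have t2 : ‖deriv Φ p.2‖ * ‖Q Φ p - Q (F i) p‖ / (‖Q Φ p‖ * ‖Q (F i) p‖) ≤
      M * δ / (m * (m / 2)) :=
    div_le_div₀ (by positivity) (mul_le_mul k4 k1.le (norm_nonneg _) hM0) (by positivity)
      (mul_le_mul k3 k5 (by positivity) (norm_nonneg _))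
  have t3 : δ / (m / 2) + M * δ / (m * (m / 2)) ≤ δ * (2 / m + 2 * M / m ^ 2 + 1) := by
    have : δ * (2 / m + 2 * M / m ^ 2 + 1) = δ / (m / 2) + M * δ / (m * (m / 2)) + δ := by
      field_simp
    linarith
  have t4 : δ * (2 / m + 2 * M / m ^ 2 + 1) ≤ ε := by
    rw [← le_div_iff₀ hc0]
    exact min_le_right _ _
  linarith

theorem prod_ne_ae : ∀ᵐ p : ℂ × ℂ ∂(volume.prod volume), p.1 ≠ p.2 := by
  have hm : MeasurableSet {p : ℂ × ℂ | p.1 ≠ p.2} :=
    (measurableSet_eq_fun measurable_fst measurable_snd).compl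
  rw [Measure.ae_prod_iff_ae_ae hm]
  refine Eventually.of_forall fun z => ?_
  have : ∀ᵐ w : ℂ, w ≠ z := Measure.ae_ne volume z
  filter_upwards [this] with w hw
  exact fun h => hw h.symm

/-- integrability of the kernel `1 / |z - ζ|` against compactly supported functions -/
theorem ker_int {v om : ℂ → ℂ} (hv : Continuous v) (hvc : HasCompactSupport v)
    (hom : Continuous om) (homc : HasCompactSupport om) :
    Integrable (fun p : ℂ × ℂ => v p.2 * om p.1 * (1 / (p.1 - p.2))) (volume.prod volume) := by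
  obtain ⟨r1, hr1⟩ := hvc.isCompact.isBounded.subset_closedBall (0 : ℂ)
  obtain ⟨r2, hr2⟩ := homc.isCompact.isBounded.subset_closedBall (0 : ℂ)
  obtain ⟨C, hC⟩ := homc.exists_bound_of_continuous hom
  have hvi : Integrable v := hv.integrable_of_hasCompactSupport hvc
  have h1 : Integrable (fun p : ℂ × ℂ => v p.2 *
      Pool.Agent.Helper366.IV.KM (r1 + r2 + 1) (p.1 - p.2)) (volume.prod volume) :=
    hvi.convolution_integrand (ContinuousLinearMap.mul ℝ ℂ)
      (Pool.Agent.Helper366.IV.KM_int (r1 + r2 + 1))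
  have h2 : Integrable (fun p : ℂ × ℂ => om p.1 * (v p.2 *
      Pool.Agent.Helper366.IV.KM (r1 + r2 + 1) (p.1 - p.2))) (volume.prod volume) :=
    h1.bdd_mul (hom.comp continuous_fst).aestronglyMeasurable (Eventually.of_forall fun p => hC p.1)
  refine h2.congr (Eventually.of_forall fun p => ?_)
  simp only
  by_cases h3 : om p.1 = 0
  · rw [h3]; ring
  by_cases h4 : v p.2 = 0
  · rw [h4]; ring
  have e1 := mem_closedBall_zero_iff.1 (hr2 (subset_tsupport om h3))
  have e2 := mem_closedBall_zero_iff.1 (hr1 (subset_tsupport v h4))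
  rw [Pool.Agent.Helper366.IV.KM_eq]
  · rw [one_div]; ring
  · have := norm_sub_le p.1 p.2
    linarith

theorem ker_int_mul {W : Set ℂ} (hW : IsOpen W) {v om : ℂ → ℂ} (hv : Continuous v)
    (hvc : HasCompactSupport v) (hvW : tsupport v ⊆ W)
    (hom : Continuous om) (homc : HasCompactSupport om) (homW : tsupport om ⊆ W)
    {k : ℂ × ℂ → ℂ} (hk : ContinuousOn k (W ×ˢ W)) :
    Integrable (fun p : ℂ × ℂ => v p.2 * om p.1 * (k p / (p.1 - p.2))) (volume.prod volume) := by
  have hWW : IsOpen (W ×ˢ W) := hW.prod hW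
  set T : Set (ℂ × ℂ) := tsupport om ×ˢ tsupport v with hT
  have hTc : IsCompact T := homc.isCompact.prod hvc.isCompact
  have hTW : T ⊆ W ×ˢ W := prod_mono homW hvW
  obtain ⟨C₀, hC₀⟩ := hTc.exists_bound_of_continuousOn (hk.mono hTW)
  set k' : ℂ × ℂ → ℂ := T.indicator k with hk'
  have hk'm : AEStronglyMeasurable k' (volume.prod volume) := by
    rw [hk', aestronglyMeasurable_indicator_iff hTc.measurableSet]
    exact (hk.mono hTW).aestronglyMeasurable hTc.measurableSet
  have hk'b : ∀ p, ‖k' p‖ ≤ max C₀ 0 := by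
    intro p
    by_cases h : p ∈ T
    · rw [hk', indicator_of_mem h]
      exact (hC₀ p h).trans (le_max_left _ _)
    · rw [hk', indicator_of_notMem h, norm_zero]
      exact le_max_right _ _
  have h2 := (ker_int hv hvc hom homc).bdd_mul hk'm (Eventually.of_forall hk'b)
  refine h2.congr (Eventually.of_forall fun p => ?_)
  simp only
  by_cases h : p ∈ T
  · rw [hk', indicator_of_mem h]; ring
  · rw [hk', indicator_of_notMem h, zero_mul]
    have h3 : om p.1 = 0 ∨ v p.2 = 0 := by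
      by_contra hcon
      push Not at hcon
      exact h ⟨subset_tsupport om hcon.1, subset_tsupport v hcon.2⟩
    rcases h3 with h3 | h3 <;> rw [h3] <;> ring

/-- the bilinear form of a univalent function -/
noncomputable def KK (F v om : ℂ → ℂ) : ℂ :=
  ∫ p : ℂ × ℂ, v p.2 * om p.1 * (deriv F p.2 / (F p.1 - F p.2)) ∂(volume.prod volume)

theorem KK_eq (F v om : ℂ → ℂ) :
    KK F v om = ∫ p : ℂ × ℂ, v p.2 * om p.1 * (kc F p / (p.1 - p.2)) ∂(volume.prod volume) := by
  unfold KK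
  apply integral_congr_ae
  filter_upwards [prod_ne_ae] with p hp
  rw [kc_eq hp]

/-- continuity of the bilinear form -/
theorem KK_tendsto {ι : Type} {l : Filter ι} {W : Set ℂ} (hW : IsOpen W)
    {F : ι → ℂ → ℂ} {Φ : ℂ → ℂ} (hF : ∀ᶠ i in l, DifferentiableOn ℂ (F i) W)
    (hFi : ∀ᶠ i in l, InjOn (F i) W)
    (hΦ : DifferentiableOn ℂ Φ W) (hΦi : InjOn Φ W)
    (hlim : TendstoLocallyUniformlyOn F Φ l W) {v om : ℂ → ℂ} (hv : Continuous v)
    (hvc : HasCompactSupport v) (hvW : tsupport v ⊆ W)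
    (hom : Continuous om) (homc : HasCompactSupport om) (homW : tsupport om ⊆ W) :
    Tendsto (fun i => KK (F i) v om) l (𝓝 (KK Φ v om)) := by
  rw [Metric.tendsto_nhds]
  intro ε hε
  set S : Set ℂ := tsupport v ∪ tsupport om with hS
  have hSc : IsCompact S := hvc.isCompact.union homc.isCompact
  have hSW : S ⊆ W := union_subset hvW homW
  have hI := ker_int hv hvc hom homc
  set I₀ : ℝ := ∫ p : ℂ × ℂ, ‖v p.2 * om p.1 * (1 / (p.1 - p.2))‖ ∂(volume.prod volume) with hI₀
  have hI₀0 : 0 ≤ I₀ := integral_nonneg fun _ => norm_nonneg _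
  filter_upwards [kc_tendsto hW hSc hSW hF hΦ hΦi hlim (show 0 < ε / (I₀ + 1) by positivity), hF,
    hFi] with i h1 h2 h3
  rw [dist_eq_norm, KK_eq, KK_eq,
    ← integral_sub (ker_int_mul hW hv hvc hvW hom homc homW (kc_cont hW h2 h3))
      (ker_int_mul hW hv hvc hvW hom homc homW (kc_cont hW hΦ hΦi))]
  have hb : ∀ p : ℂ × ℂ, ‖v p.2 * om p.1 * (kc (F i) p / (p.1 - p.2)) -
      v p.2 * om p.1 * (kc Φ p / (p.1 - p.2))‖ ≤
      ‖v p.2 * om p.1 * (1 / (p.1 - p.2))‖ * (ε / (I₀ + 1)) := by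
    intro p
    have e : v p.2 * om p.1 * (kc (F i) p / (p.1 - p.2)) - v p.2 * om p.1 * (kc Φ p / (p.1 - p.2)) =
        (v p.2 * om p.1 * (1 / (p.1 - p.2))) * (kc (F i) p - kc Φ p) := by ring
    by_cases hz : v p.2 * om p.1 = 0
    · rw [hz]; simp
    · rw [e, norm_mul]
      apply mul_le_mul_of_nonneg_left _ (norm_nonneg _)
      exact h1 p ⟨Or.inr (subset_tsupport om (right_ne_zero_of_mul hz)),
        Or.inl (subset_tsupport v (left_ne_zero_of_mul hz))⟩
  refine (norm_integral_le_of_norm_le (hI.norm.mul_const _) (Eventually.of_forall hb)).trans_lt ?_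
  rw [integral_mul_const]
  have : I₀ * (ε / (I₀ + 1)) < (I₀ + 1) * (ε / (I₀ + 1)) :=
    mul_lt_mul_of_pos_right (by linarith) (by positivity)
  have e2 : (I₀ + 1) * (ε / (I₀ + 1)) = ε := by field_simp
  linarith

end Pool.Agent.H20.JL
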