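import Mathlib
import Pool.Agent.H20.JL.Ker
import Pool.Graph.R_seed8.H713R2.Area

/-! # The contraction inequality for the kernel of a univalent function -/

set_option autoImplicit false

open Topology Filter Metric Set MeasureTheory
open Pool.Agent.Split938
open scoped ContDiff

namespace Pool.Agent.H20.JL

open Classical in
/-- push forward of a function by an injective map -/
noncomputable def psh (F : ℂ → ℂ) (W : Set ℂ) (h : ℂ → ℂ) (Z : ℂ) : ℂ :=
  if Z ∈ F '' W then h (Function.invFunOn F W Z) else 0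

theorem psh_map {F : ℂ → ℂ} {W : Set ℂ} (hi : InjOn F W) (h : ℂ → ℂ) {z : ℂ} (hz : z ∈ W) :
    psh F W h (F z) = h z := by
  unfold psh
  rw [if_pos (mem_image_of_mem F hz)]
  congr 1
  exact hi (Function.invFunOn_mem (s := W) (f := F) (b := F z) ⟨z, hz, rfl⟩) hz
    (Function.invFunOn_eq (s := W) (f := F) (b := F z) ⟨z, hz, rfl⟩)

theorem psh_off {F : ℂ → ℂ} {W : Set ℂ} {h : ℂ → ℂ} {Z : ℂ}
    (hZ : Z ∉ F '' (tsupport h)) : psh F W h Z = 0 := by
  unfold psh
  split_ifs with h1
  · by_contra hne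
    apply hZ
    refine ⟨Function.invFunOn F W Z, subset_tsupport h hne, ?_⟩
    obtain ⟨z, hz, rfl⟩ := h1
    exact Function.invFunOn_eq (s := W) (f := F) (b := F z) ⟨z, hz, rfl⟩
  · rfl

theorem psh_hcs {F : ℂ → ℂ} {W : Set ℂ} {h : ℂ → ℂ} (hF : ContinuousOn F W)
    (hc : HasCompactSupport h) (hs : tsupport h ⊆ W) : HasCompactSupport (psh F W h) :=
  HasCompactSupport.intro (hc.isCompact.image_of_continuousOn (hF.mono hs)) fun _ hz => psh_off hz

/-- a local inverse -/
theorem psh_local {W : Set ℂ} (hW : IsOpen W) {F : ℂ → ℂ} (hF : DifferentiableOn ℂ F W)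
    (hi : InjOn F W) {z : ℂ} (hz : z ∈ W) :
    ∃ g : ℂ → ℂ, ContDiffAt ℂ ∞ g (F z) ∧ g (F z) = z ∧ HasDerivAt g (deriv F z)⁻¹ (F z) ∧
      ∀ᶠ Z in 𝓝 (F z), g Z ∈ W ∧ F (g Z) = Z ∧ ∀ h : ℂ → ℂ, psh F W h Z = h (g Z) := by
  have hcd : ContDiffAt ℂ ∞ F z := (hF.analyticAt (hW.mem_nhds hz)).contDiffAt
  have hd0 : deriv F z ≠ 0 := Pool.Agent.Helper114.Montel.deriv_ne_zero_of_injOn hW F hF hi hz
  set F' : ℂ ≃L[ℂ] ℂ := ContinuousLinearEquiv.unitsEquivAut ℂ (Units.mk0 _ hd0) with hF'
  have hF'd : HasFDerivAt F (F' : ℂ →L[ℂ] ℂ) z := by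
    have h1 := ((hF.differentiableAt (hW.mem_nhds hz)).hasDerivAt).hasFDerivAt
    have h2 : (F' : ℂ →L[ℂ] ℂ) = ContinuousLinearMap.toSpanSingleton ℂ (deriv F z) := by
      apply ContinuousLinearMap.ext_ring
      simp [hF']
    rw [h2]
    exact h1
  have hn : (∞ : WithTop ℕ∞) ≠ 0 := by simp
  set g : ℂ → ℂ := hcd.localInverse hF'd hn with hg
  have hgd : ContDiffAt ℂ ∞ g (F z) := hcd.to_localInverse hF'd hn
  have hgz : g (F z) = z := hcd.localInverse_apply_image hF'd hn
  have hright : ∀ᶠ Z in 𝓝 (F z), F (g Z) = Z :=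
    (hcd.hasStrictFDerivAt' hF'd hn).eventually_right_inverse
  have hgc : Tendsto g (𝓝 (F z)) (𝓝 z) := by
    have := hgd.continuousAt.tendsto
    rwa [hgz] at this
  have hgW : ∀ᶠ Z in 𝓝 (F z), g Z ∈ W := hgc.eventually (hW.mem_nhds hz)
  refine ⟨g, hgd, hgz, ?_, ?_⟩
  · have h1 : HasDerivAt g (deriv g (F z)) (F z) := (hgd.differentiableAt (by simp)).hasDerivAt
    have h2 : HasDerivAt F (deriv F z) (g (F z)) := by
      rw [hgz]; exact (hF.differentiableAt (hW.mem_nhds hz)).hasDerivAt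
    have h3 := h2.comp (F z) h1
    have h4 : HasDerivAt (F ∘ g) 1 (F z) := by
      refine (hasDerivAt_id (F z)).congr_of_eventuallyEq ?_
      filter_upwards [hright] with Z hZ
      exact hZ
    have h5 := h3.unique h4
    have : deriv g (F z) = (deriv F z)⁻¹ := by
      field_simp
      rw [mul_comm]; exact h5
    rwa [this] at h1
  · filter_upwards [hright, hgW] with Z h1 h2
    refine ⟨h2, h1, fun h => ?_⟩
    have := psh_map hi h h2
    rwa [h1] at this

theorem psh_smooth {W : Set ℂ} (hW : IsOpen W) {F h : ℂ → ℂ} (hF : DifferentiableOn ℂ F W)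
    (hi : InjOn F W) (hh : ContDiff ℝ ∞ h) (hc : HasCompactSupport h) (hs : tsupport h ⊆ W) :
    ContDiff ℝ ∞ (psh F W h) := by
  rw [contDiff_iff_contDiffAt]
  intro Z
  by_cases hZ : Z ∈ F '' (tsupport h)
  · obtain ⟨z, hz, rfl⟩ := hZ
    obtain ⟨g, hg, hgz, -, hev⟩ := psh_local hW hF hi (hs hz)
    have h1 : psh F W h =ᶠ[𝓝 (F z)] fun Z => h (g Z) := by
      filter_upwards [hev] with Z hZ
      exact hZ.2.2 h
    refine ContDiffAt.congr_of_eventuallyEq ?_ h1
    exact (hh.contDiffAt).comp (F z) (hg.restrict_scalars ℝ)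
  · have ho : IsOpen (F '' (tsupport h))ᶜ :=
      (hc.isCompact.image_of_continuousOn (hF.continuousOn.mono hs)).isClosed.isOpen_compl
    have h1 : psh F W h =ᶠ[𝓝 Z] fun _ => 0 := by
      filter_upwards [ho.mem_nhds hZ] with Z' hZ'
      exact psh_off hZ'
    exact contDiffAt_const.congr_of_eventuallyEq h1

/-- change of variables -/
theorem psh_cov {W : Set ℂ} (hW : IsOpen W) {F : ℂ → ℂ} (hF : DifferentiableOn ℂ F W)
    (hi : InjOn F W) (g : ℂ → ℂ) :
    ∫ Z in F '' W, g Z = ∫ z in W, ((‖deriv F z‖ ^ 2 : ℝ) : ℂ) * g (F z) := by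
  have h1 := integral_image_eq_integral_abs_det_fderiv_smul (volume : Measure ℂ)
    hW.measurableSet (f := F)
    (f' := fun x => (ContinuousLinearMap.toSpanSingleton ℂ (deriv F x)).restrictScalars ℝ)
    (fun x hx => (((hF.differentiableAt (hW.mem_nhds hx)).hasDerivAt.hasFDerivAt).restrictScalars
      ℝ).hasFDerivWithinAt) hi g
  simp only [Pool.Agent.H713R2.det_mul_real] at h1
  rw [h1]
  apply integral_congr_ae
  refine Eventually.of_forall fun z => ?_
  simp only
  rw [abs_of_nonneg (by positivity), Complex.real_smul]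

theorem psh_cov_real {W : Set ℂ} (hW : IsOpen W) {F : ℂ → ℂ} (hF : DifferentiableOn ℂ F W)
    (hi : InjOn F W) (g : ℂ → ℝ) :
    ∫ Z in F '' W, g Z = ∫ z in W, ‖deriv F z‖ ^ 2 * g (F z) := by
  have h1 := integral_image_eq_integral_abs_det_fderiv_smul (volume : Measure ℂ)
    hW.measurableSet (f := F)
    (f' := fun x => (ContinuousLinearMap.toSpanSingleton ℂ (deriv F x)).restrictScalars ℝ)
    (fun x hx => (((hF.differentiableAt (hW.mem_nhds hx)).hasDerivAt.hasFDerivAt).restrictScalars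
      ℝ).hasFDerivWithinAt) hi g
  simp only [Pool.Agent.H713R2.det_mul_real] at h1
  rw [h1]
  apply integral_congr_ae
  refine Eventually.of_forall fun z => ?_
  simp only
  rw [abs_of_nonneg (by positivity), smul_eq_mul]

theorem setInt_full {E : Type} [NormedAddCommGroup E] [NormedSpace ℝ E] {S : Set ℂ} {g : ℂ → E}
    (h : ∀ z, z ∉ S → g z = 0) : ∫ z in S, g z = ∫ z, g z :=
  setIntegral_eq_integral_of_forall_compl_eq_zero h

/-- chain rule for `dz` under a holomorphic map -/
theorem dz_comp_holo {G F : ℂ → ℂ} {z F' : ℂ} (hG : DifferentiableAt ℝ G (F z))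
    (hF : HasDerivAt F F' z) : dz (fun z => G (F z)) z = dz G (F z) * F' := by
  have h1 : HasFDerivAt F ((ContinuousLinearMap.toSpanSingleton ℂ F').restrictScalars ℝ) z :=
    hF.hasFDerivAt.restrictScalars ℝ
  have h2 : HasFDerivAt (fun z => G (F z)) ((fderiv ℝ G (F z)).comp
      ((ContinuousLinearMap.toSpanSingleton ℂ F').restrictScalars ℝ)) z :=
    hG.hasFDerivAt.comp z h1
  unfold dz
  rw [h2.fderiv]
  simp only [ContinuousLinearMap.comp_apply, ContinuousLinearMap.coe_restrictScalars',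
    ContinuousLinearMap.toSpanSingleton_apply, smul_eq_mul, one_mul]
  have e : ∀ c : ℂ, fderiv ℝ G (F z) c = c.re * fderiv ℝ G (F z) 1 +
      c.im * fderiv ℝ G (F z) Complex.I := by
    intro c
    have : c = c.re • (1 : ℂ) + c.im • Complex.I := by
      simp [Complex.re_add_im]
    conv_lhs => rw [this]
    rw [map_add, map_smul, map_smul, Complex.real_smul, Complex.real_smul]
  rw [e F', e (Complex.I * F')]
  simp only [Complex.mul_re, Complex.mul_im, Complex.I_re, Complex.I_im, zero_mul, one_mul,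
    zero_sub, zero_add, Complex.ofReal_neg]
  linear_combination (fderiv ℝ G (F z) 1 - Complex.I * fderiv ℝ G (F z) Complex.I) / 2 *
    Complex.re_add_im F' + (F'.im * fderiv ℝ G (F z) Complex.I) / 2 * Complex.I_sq

/-- iterated form of the bilinear form -/
theorem KK_iter {W : Set ℂ} (hW : IsOpen W) {F : ℂ → ℂ} (hF : DifferentiableOn ℂ F W)
    (hi : InjOn F W) {v om : ℂ → ℂ} (hv : Continuous v) (hvc : HasCompactSupport v)
    (hvW : tsupport v ⊆ W) (hom : Continuous om) (homc : HasCompactSupport om)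
    (homW : tsupport om ⊆ W) :
    KK F v om = ∫ z, om z * ∫ y, v y * (deriv F y / (F z - F y)) := by
  have h1 : Integrable (fun p : ℂ × ℂ => v p.2 * om p.1 * (deriv F p.2 / (F p.1 - F p.2)))
      (volume.prod volume) := by
    refine (ker_int_mul hW hv hvc hvW hom homc homW (kc_cont hW hF hi)).congr ?_
    filter_upwards [prod_ne_ae] with p hp
    rw [kc_eq hp]
  unfold KK
  rw [integral_prod _ h1]
  congr 1
  funext z
  rw [← integral_const_mul]
  congr 1
  funext y
  ring

theorem tsupport_dz {f : ℂ → ℂ} : tsupport (dz f) ⊆ tsupport f := by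
  apply closure_minimal _ (isClosed_tsupport f)
  intro z hz
  by_contra h
  exact hz (dz_zero_off h)

theorem tsupport_dbar {f : ℂ → ℂ} : tsupport (dbar f) ⊆ tsupport f := by
  apply closure_minimal _ (isClosed_tsupport f)
  intro z hz
  by_contra h
  exact hz (dbar_zero_off h)

theorem tsupport_le {f g : ℂ → ℂ} (h : ∀ z, f z = 0 → g z = 0) : tsupport g ⊆ tsupport f := by
  apply closure_mono
  intro z hz h0
  exact hz (h z h0)

/-- smoothness of a quotient supported in `W` -/
theorem smooth_div {W : Set ℂ} {v q : ℂ → ℂ} (hv : ContDiff ℝ ∞ v)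
    (hvW : tsupport v ⊆ W) (hq : ∀ z ∈ W, ContDiffAt ℝ ∞ q z) (hq0 : ∀ z ∈ W, q z ≠ 0) :
    ContDiff ℝ ∞ (fun z => v z / q z) := by
  rw [contDiff_iff_contDiffAt]
  intro z
  by_cases hz : z ∈ tsupport v
  · simp only [div_eq_mul_inv]
    exact (hv.contDiffAt).mul ((hq z (hvW hz)).inv (hq0 z (hvW hz)))
  · have h1 : (fun z => v z / q z) =ᶠ[𝓝 z] fun _ => 0 := by
      filter_upwards [(isClosed_tsupport v).isOpen_compl.mem_nhds hz] with y hy
      rw [image_eq_zero_of_notMem_tsupport hy, zero_div]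
    exact contDiffAt_const.congr_of_eventuallyEq h1

/-- The contraction inequality. -/
theorem KK_bound {W : Set ℂ} (hW : IsOpen W) {F : ℂ → ℂ} (hF : DifferentiableOn ℂ F W)
    (hi : InjOn F W) {v w : ℂ → ℂ} (hv : ContDiff ℝ ∞ v) (hvc : HasCompactSupport v)
    (hvW : tsupport v ⊆ W) (hw : ContDiff ℝ ∞ w) (hwc : HasCompactSupport w)
    (hwW : tsupport w ⊆ W) :
    ‖KK F v (dz (fun z => cj (w z)))‖ ≤
      Real.pi / 2 * ((∫ z, ‖v z‖ ^ 2) + ∫ z, ‖w z‖ ^ 2) := by
  have hd0 : ∀ z ∈ W, deriv F z ≠ 0 := fun z hz =>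
    Pool.Agent.Helper114.Montel.deriv_ne_zero_of_injOn hW F hF hi hz
  have hda : ∀ z ∈ W, ContDiffAt ℝ ∞ (deriv F) z := fun z hz =>
    ((hF.analyticAt (hW.mem_nhds hz)).deriv.contDiffAt).restrict_scalars ℝ
  have hdh : ∀ z ∈ W, DifferentiableAt ℂ (deriv F) z := fun z hz =>
    (hF.analyticAt (hW.mem_nhds hz)).deriv.differentiableAt
  set v1 : ℂ → ℂ := fun z => v z / cj (deriv F z) with hv1
  set w1 : ℂ → ℂ := fun z => w z / deriv F z with hw1
  have hv1s : ContDiff ℝ ∞ v1 := smooth_div hv hvW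
    (fun z hz => (Complex.conjCLE.contDiff.contDiffAt).comp z (hda z hz))
    (fun z hz h => hd0 z hz ((map_eq_zero _).1 h))
  have hw1s : ContDiff ℝ ∞ w1 := smooth_div hw hwW hda hd0
  have hv1t : tsupport v1 ⊆ tsupport v := tsupport_le fun z h => by
    simp only [hv1]; rw [h, zero_div]
  have hw1t : tsupport w1 ⊆ tsupport w := tsupport_le fun z h => by
    simp only [hw1]; rw [h, zero_div]
  have hv1c : HasCompactSupport v1 := hvc.mono' ((subset_tsupport _).trans hv1t)
  have hw1c : HasCompactSupport w1 := hwc.mono' ((subset_tsupport _).trans hw1t)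
  set V : ℂ → ℂ := psh F W v1 with hV
  set G₀ : ℂ → ℂ := psh F W w1 with hG₀
  have hVs : ContDiff ℝ ∞ V := psh_smooth hW hF hi hv1s hv1c (hv1t.trans hvW)
  have hG₀s : ContDiff ℝ ∞ G₀ := psh_smooth hW hF hi hw1s hw1c (hw1t.trans hwW)
  have hVc : HasCompactSupport V := psh_hcs hF.continuousOn hv1c (hv1t.trans hvW)
  have hG₀c : HasCompactSupport G₀ := psh_hcs hF.continuousOn hw1c (hw1t.trans hwW)
  set G : ℂ → ℂ := fun Z => cj (G₀ Z) with hG
  have hGs : ContDiff ℝ ∞ G := cd_cj hG₀s
  have hGc : HasCompactSupport G := hcs_cj hG₀c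
  have hb := bl_contr hVs hVc hGs hGc
  have e0 : ∀ z, z ∉ W → v z = 0 := fun z hz =>
    image_eq_zero_of_notMem_tsupport fun h => hz (hvW h)
  have e0w : ∀ z, z ∉ W → w z = 0 := fun z hz =>
    image_eq_zero_of_notMem_tsupport fun h => hz (hwW h)
  -- the norms
  have n1 : ∫ Z, ‖V Z‖ ^ 2 = ∫ z, ‖v z‖ ^ 2 := by
    rw [← setInt_full (S := F '' W), psh_cov_real hW hF hi, ← setInt_full (S := W)]
    · apply setIntegral_congr_fun hW.measurableSet
      intro z hz
      simp only
      rw [hV, psh_map hi v1 hz, hv1]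
      simp only
      rw [norm_div, RCLike.norm_conj]
      have := norm_pos_iff.2 (hd0 z hz)
      field_simp
    · intro z hz
      rw [e0 z hz]; simp
    · intro Z hZ
      rw [hV, psh_off fun h => hZ (image_mono (hv1t.trans hvW) h)]; simp
  have n2 : ∫ Z, ‖G Z‖ ^ 2 = ∫ z, ‖w z‖ ^ 2 := by
    rw [← setInt_full (S := F '' W), psh_cov_real hW hF hi, ← setInt_full (S := W)]
    · apply setIntegral_congr_fun hW.measurableSet
      intro z hz
      simp only
      rw [hG]
      simp only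
      rw [RCLike.norm_conj, hG₀, psh_map hi w1 hz, hw1]
      simp only
      rw [norm_div]
      have := norm_pos_iff.2 (hd0 z hz)
      field_simp
    · intro z hz
      rw [e0w z hz]; simp
    · intro Z hZ
      rw [hG]
      simp only
      rw [RCLike.norm_conj, hG₀, psh_off fun h => hZ (image_mono (hw1t.trans hwW) h)]; simp
  -- the derivative
  have d1 : ∀ z ∈ W, ((‖deriv F z‖ ^ 2 : ℝ) : ℂ) * dz G (F z) = dz (fun z => cj (w z)) z := by
    intro z hz
    have h1 : dz (fun z => G (F z)) z = dz G (F z) * deriv F z :=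
      dz_comp_holo (hGs.differentiable (by simp) _)
        (hF.differentiableAt (hW.mem_nhds hz)).hasDerivAt
    have h2 : (fun z => cj (w z)) =ᶠ[𝓝 z] fun z => G (F z) * cj (deriv F z) := by
      filter_upwards [hW.mem_nhds hz] with y hy
      rw [hG]
      simp only
      rw [hG₀, psh_map hi w1 hy, hw1]
      simp only
      rw [← map_mul, div_mul_cancel₀ _ (hd0 y hy)]
    have hFr : DifferentiableAt ℝ F z :=
      (hF.differentiableAt (hW.mem_nhds hz)).restrictScalars ℝ
    have hGF : DifferentiableAt ℝ (fun z => G (F z)) z :=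
      DifferentiableAt.comp (g := G) (f := F) z (hGs.differentiable (by simp) _) hFr
    have hdr : DifferentiableAt ℝ (deriv F) z := (hdh z hz).restrictScalars ℝ
    have hdc : DifferentiableAt ℝ (fun z => cj (deriv F z)) z :=
      Complex.conjCLE.differentiableAt.comp z hdr
    rw [dz_congr h2, dz_mul hGF hdc, dz_cj hdr, dbar_of_hasDerivAt (hdh z hz).hasDerivAt, show cj 0 = 0 from map_zero _, mul_zero,
      zero_add, h1, ← mul_cj_self]
    ring
  -- the Cauchy transform
  have c1 : ∀ z ∈ W, CT V (F z) = ∫ y, v y * (deriv F y / (F z - F y)) := by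
    intro z hz
    rw [CT_eq, ← setInt_full (S := F '' W), psh_cov hW hF hi, ← setInt_full (S := W)]
    · apply setIntegral_congr_fun hW.measurableSet
      intro y hy
      simp only
      rw [hV, psh_map hi v1 hy, hv1, ← mul_cj_self]
      simp only
      have : cj (deriv F y) ≠ 0 := fun h => hd0 y hy ((map_eq_zero _).1 h)
      field_simp
    · intro y hy
      rw [e0 y hy]; simp
    · intro Z hZ
      rw [hV, psh_off fun h => hZ (image_mono (hv1t.trans hvW) h)]; simp
  have hdzs : ContDiff ℝ ∞ (dz (fun z => cj (w z))) := cdi_dz (cd_cj hw)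
  have hdzt : tsupport (dz (fun z => cj (w z))) ⊆ tsupport w := tsupport_dz.trans ts_cj
  have hdzc : HasCompactSupport (dz (fun z => cj (w z))) := dz_hcs (hcs_cj hwc)
  rw [n1, n2] at hb
  refine le_trans (le_of_eq ?_) hb
  congr 1
  rw [KK_iter hW hF hi hv.continuous hvc hvW hdzs.continuous hdzc (hdzt.trans hwW)]
  symm
  rw [← setInt_full (S := F '' W) (g := fun Z => CT V Z * dz G Z), psh_cov hW hF hi,
    ← setInt_full (S := W) (g := fun z => dz (fun z => cj (w z)) z * _)]
  · apply setIntegral_congr_fun hW.measurableSet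
    intro z hz
    simp only
    rw [← c1 z hz, ← d1 z hz]
    ring
  · intro z hz
    rw [image_eq_zero_of_notMem_tsupport fun h => hz (hwW (hdzt h)), zero_mul]
  · intro Z hZ
    rw [dz_zero_off (fun h => ?_), mul_zero]
    have h2 := ts_cj (F := G₀) h
    have h3 : tsupport G₀ ⊆ F '' W := by
      have hcl : IsClosed (F '' (tsupport w1)) :=
        (hw1c.isCompact.image_of_continuousOn
          (hF.continuousOn.mono (hw1t.trans hwW))).isClosed
      refine (closure_minimal ?_ hcl).trans (image_mono (hw1t.trans hwW))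
      intro Z' hZ'
      by_contra hcon
      exact hZ' (psh_off hcon)
    exact hZ (h3 h2)

end Pool.Agent.H20.JL
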