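import Mathlib
import Pool.Agent.H20.JL.CI

/-! # Holomorphic dependence of the bilinear form -/

set_option autoImplicit false

open Topology Filter Metric Set MeasureTheory
open scoped ContDiff

namespace Pool.Agent.H20.JL

/-- Holomorphic dependence of integrals. -/
theorem holo_int {α : Type} [MeasurableSpace α] {μ : Measure α} {U : Set ℂ} (hU : IsOpen U)
    {f : ℂ → α → ℂ} (hm : ∀ t ∈ U, AEStronglyMeasurable (f t) μ)
    (hd : ∀ᵐ p ∂μ, DifferentiableOn ℂ (fun t => f t p) U)
    (hb : ∀ t₀ ∈ U, ∃ (δ : ℝ) (g : α → ℝ), 0 < δ ∧ Integrable g μ ∧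
      ∀ᵐ p ∂μ, ∀ t ∈ ball t₀ δ, ‖f t p‖ ≤ g p) :
    DifferentiableOn ℂ (fun t => ∫ p, f t p ∂μ) U := by
  intro t₀ ht₀
  obtain ⟨δ₀, g, hδ₀, hg, hgb⟩ := hb t₀ ht₀
  obtain ⟨δ₁, hδ₁, hδ₁U⟩ := Metric.isOpen_iff.1 hU t₀ ht₀
  set δ : ℝ := min δ₀ δ₁ with hδ
  have hδ0 : 0 < δ := lt_min hδ₀ hδ₁
  have hs : ball t₀ δ ⊆ U := (ball_subset_ball (min_le_right _ _)).trans hδ₁U
  have hs' : ball t₀ δ ⊆ ball t₀ δ₀ := ball_subset_ball (min_le_left _ _)
  have hcl : ∀ t ∈ ball t₀ (δ / 2), closedBall t (δ / 4) ⊆ ball t₀ δ := by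
    intro t ht w hw
    rw [mem_ball] at ht ⊢
    rw [mem_closedBall] at hw
    have := dist_triangle w t t₀
    linarith
  have hmeas : AEStronglyMeasurable (fun p => deriv (fun t => f t p) t₀) μ := by
    have hmem : ∀ n : ℕ, t₀ + ((δ / (n + 2) : ℝ) : ℂ) ∈ ball t₀ δ := by
      intro n
      rw [mem_ball, dist_eq_norm, add_sub_cancel_left, Complex.norm_real, Real.norm_eq_abs,
        abs_of_pos (by positivity), div_lt_iff₀ (by positivity)]
      nlinarith [hδ0, (Nat.cast_nonneg n : (0 : ℝ) ≤ n)]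
    refine aestronglyMeasurable_of_tendsto_ae atTop
      (f := fun (n : ℕ) p => (((δ / (n + 2) : ℝ) : ℂ))⁻¹ *
        (f (t₀ + ((δ / (n + 2) : ℝ) : ℂ)) p - f t₀ p)) (fun n => ?_) ?_
    · exact ((hm _ (hs (hmem n))).sub (hm _ ht₀)).const_mul _
    · filter_upwards [hd] with p hp
      have h1 : HasDerivAt (fun t => f t p) (deriv (fun t => f t p) t₀) t₀ :=
        (hp.differentiableAt (hU.mem_nhds ht₀)).hasDerivAt
      have h2 : Tendsto (fun n : ℕ => ((δ / (n + 2) : ℝ) : ℂ)) atTop (𝓝[≠] 0) := by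
        rw [tendsto_nhdsWithin_iff]
        constructor
        · have h3 : Tendsto (fun n : ℕ => (δ / (n + 2) : ℝ)) atTop (𝓝 0) := by
            apply Tendsto.div_atTop tendsto_const_nhds
            exact tendsto_atTop_add_const_right _ _ tendsto_natCast_atTop_atTop
          have h4 := (Complex.continuous_ofReal.tendsto 0).comp h3
          rwa [Complex.ofReal_zero] at h4
        · refine Eventually.of_forall fun n => ?_
          simp only [mem_compl_iff, mem_singleton_iff, Complex.ofReal_eq_zero]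
          positivity
      have h5 := h1.tendsto_slope_zero.comp h2
      refine h5.congr fun n => ?_
      simp only [Function.comp, smul_eq_mul]
  have hint : Integrable (f t₀) μ := by
    refine hg.mono' (hm t₀ ht₀) ?_
    filter_upwards [hgb] with p hp
    exact hp t₀ (mem_ball_self hδ₀)
  have key := hasDerivAt_integral_of_dominated_loc_of_deriv_le (μ := μ) (F := f) (x₀ := t₀)
    (s := ball t₀ (δ / 2)) (bound := fun p => g p / (δ / 4))
    (F' := fun t p => deriv (fun t => f t p) t) (ball_mem_nhds t₀ (by positivity))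
    (by filter_upwards [hU.mem_nhds ht₀] with t ht using hm t ht) hint hmeas ?_
    (hg.div_const _) ?_
  · exact key.2.differentiableAt.differentiableWithinAt
  · filter_upwards [hd, hgb] with p hp hpg t ht
    refine Complex.norm_deriv_le_of_forall_mem_sphere_norm_le (by positivity) ?_ ?_
    · refine (hp.mono ((hcl t ht).trans hs)).diffContOnCl_ball (subset_refl _)
    · intro z hz
      exact hpg z (hs' (hcl t ht (sphere_subset_closedBall hz)))
  · filter_upwards [hd] with p hp t ht
    exact (hp.differentiableAt (hU.mem_nhds (hs (hcl t ht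
      (mem_closedBall_self (by positivity)))))).hasDerivAt

/-- The derivative of a holomorphic family is a holomorphic function of the parameter. -/
theorem deriv_holo {U W : Set ℂ} (hU : IsOpen U) (hW : IsOpen W) {F : ℂ → ℂ → ℂ}
    (hF : ∀ t ∈ U, DifferentiableOn ℂ (F t) W) (hz : ∀ z ∈ W, DifferentiableOn ℂ (fun t => F t z) U)
    (hlim : ∀ t₀ ∈ U, TendstoLocallyUniformlyOn F (F t₀) (𝓝 t₀) W) {z : ℂ} (hzW : z ∈ W) :
    DifferentiableOn ℂ (fun t => deriv (F t) z) U := by
  obtain ⟨s, hs, hsW⟩ := Metric.isOpen_iff.1 hW z hzW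
  have hcW : closedBall z (s / 2) ⊆ W := (closedBall_subset_ball (by linarith)).trans hsW
  have hs2 : 0 < s / 2 := by positivity
  have hsph : ∀ θ : ℝ, circleMap z (s / 2) θ ∈ W := fun θ =>
    hcW (circleMap_mem_closedBall z hs2.le θ)
  have h1 : ∀ t ∈ U, deriv (F t) z = ∫ θ in Ioc (0 : ℝ) (2 * Real.pi),
      (2 * Real.pi * Complex.I : ℂ)⁻¹ * (deriv (circleMap z (s / 2)) θ *
        (1 / (circleMap z (s / 2) θ - z) ^ 2 * F t (circleMap z (s / 2) θ))) := by
    intro t ht
    have h2 := DifferentiableOn.deriv_eq_smul_circleIntegral hs2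
      (f := F t) (c := z) ((hF t ht).mono hcW)
    rw [circleIntegral, intervalIntegral.integral_of_le (by positivity)] at h2
    simp only [smul_eq_mul] at h2
    rw [integral_const_mul, h2, ← mul_assoc, inv_mul_cancel₀ Complex.two_pi_I_ne_zero, one_mul]
  have hcm : Continuous (fun θ : ℝ => circleMap z (s / 2) θ) := continuous_circleMap z (s / 2)
  have hbd : Continuous fun θ : ℝ => deriv (circleMap z (s / 2)) θ := by
    have : (fun θ : ℝ => deriv (circleMap z (s / 2)) θ) =
        fun θ => circleMap 0 (s / 2) θ * Complex.I := by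
      funext θ
      exact deriv_circleMap z (s / 2) θ
    rw [this]
    exact (continuous_circleMap 0 (s / 2)).mul continuous_const
  have hbq : Continuous fun θ : ℝ => 1 / (circleMap z (s / 2) θ - z) ^ 2 := by
    apply continuous_const.div ((hcm.sub continuous_const).pow 2)
    intro θ
    exact pow_ne_zero 2 (sub_ne_zero.2 (circleMap_ne_center hs2.ne'))
  have hbase : Continuous fun θ : ℝ => (2 * Real.pi * Complex.I : ℂ)⁻¹ *
      (deriv (circleMap z (s / 2)) θ * (1 / (circleMap z (s / 2) θ - z) ^ 2)) :=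
    continuous_const.mul (hbd.mul hbq)
  have hgoal : DifferentiableOn ℂ (fun t => ∫ θ in Ioc (0 : ℝ) (2 * Real.pi),
      (2 * Real.pi * Complex.I : ℂ)⁻¹ * (deriv (circleMap z (s / 2)) θ *
        (1 / (circleMap z (s / 2) θ - z) ^ 2 * F t (circleMap z (s / 2) θ)))) U := by
    apply holo_int hU
    · intro t ht
      apply ContinuousOn.aestronglyMeasurable _ measurableSet_Ioc
      have h3 : Continuous fun θ : ℝ => F t (circleMap z (s / 2) θ) :=
        (hF t ht).continuousOn.comp_continuous hcm hsph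
      exact (continuous_const.mul (hbd.mul (hbq.mul h3))).continuousOn
    · refine Eventually.of_forall fun θ => ?_
      exact (((hz _ (hsph θ)).const_mul _).const_mul _).const_mul _
    · intro t₀ ht₀
      have hu := (tendstoLocallyUniformlyOn_iff_forall_isCompact hW).1 (hlim t₀ ht₀) _ hcW
        (isCompact_closedBall _ _)
      rw [Metric.tendstoUniformlyOn_iff] at hu
      obtain ⟨δ, hδ, hδ'⟩ := Metric.eventually_nhds_iff_ball.1 (hu 1 one_pos)
      obtain ⟨C₁, hC₁⟩ := (isCompact_closedBall z (s / 2)).exists_bound_of_continuousOn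
        ((hF t₀ ht₀).continuousOn.mono hcW)
      have hcc : Continuous fun θ : ℝ => ‖(2 * Real.pi * Complex.I : ℂ)⁻¹ *
        (deriv (circleMap z (s / 2)) θ * (1 / (circleMap z (s / 2) θ - z) ^ 2))‖ * (C₁ + 1) :=
        hbase.norm.mul continuous_const
      refine ⟨δ, fun θ => ‖(2 * Real.pi * Complex.I : ℂ)⁻¹ *
        (deriv (circleMap z (s / 2)) θ * (1 / (circleMap z (s / 2) θ - z) ^ 2))‖ * (C₁ + 1),
        hδ, ?_, Eventually.of_forall fun θ t ht => ?_⟩
      · exact (hcc.integrableOn_Icc (a := 0) (b := 2 * Real.pi)).mono_set Ioc_subset_Icc_self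
      · rw [← mul_assoc, ← mul_assoc, mul_assoc (2 * Real.pi * Complex.I : ℂ)⁻¹, norm_mul]
        apply mul_le_mul_of_nonneg_left _ (norm_nonneg _)
        have k1 := hδ' t ht _ (circleMap_mem_closedBall z hs2.le θ)
        have k2 := hC₁ _ (circleMap_mem_closedBall z hs2.le θ)
        rw [dist_eq_norm] at k1
        have k3 := norm_sub_norm_le (F t (circleMap z (s / 2) θ)) (F t₀ (circleMap z (s / 2) θ))
        rw [norm_sub_rev] at k3
        linarith
  exact hgoal.congr h1

/-- The bilinear form is a holomorphic function of the parameter. -/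
theorem KK_holo {U W : Set ℂ} (hU : IsOpen U) (hW : IsOpen W) {F : ℂ → ℂ → ℂ}
    (hF : ∀ t ∈ U, DifferentiableOn ℂ (F t) W) (hi : ∀ t ∈ U, InjOn (F t) W)
    (hz : ∀ z ∈ W, DifferentiableOn ℂ (fun t => F t z) U)
    (hlim : ∀ t₀ ∈ U, TendstoLocallyUniformlyOn F (F t₀) (𝓝 t₀) W)
    {v om : ℂ → ℂ} (hv : Continuous v)
    (hvc : HasCompactSupport v) (hvW : tsupport v ⊆ W)
    (hom : Continuous om) (homc : HasCompactSupport om) (homW : tsupport om ⊆ W) :
    DifferentiableOn ℂ (fun t => KK (F t) v om) U := by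
  have hS : IsCompact (tsupport v ∪ tsupport om) := hvc.isCompact.union homc.isCompact
  have hSW : tsupport v ∪ tsupport om ⊆ W := union_subset hvW homW
  unfold KK
  apply holo_int hU
  · intro t ht
    refine (ker_int_mul hW hv hvc hvW hom homc homW
      (kc_cont hW (hF t ht) (hi t ht))).aestronglyMeasurable.congr ?_
    filter_upwards [prod_ne_ae] with p hp
    rw [kc_eq hp]
  · filter_upwards [prod_ne_ae] with p hp
    by_cases h0 : v p.2 * om p.1 = 0
    · simp only [h0, zero_mul]
      exact differentiableOn_const _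
    · have h1 : p.2 ∈ W := hvW (subset_tsupport v (left_ne_zero_of_mul h0))
      have h2 : p.1 ∈ W := homW (subset_tsupport om (right_ne_zero_of_mul h0))
      apply DifferentiableOn.const_mul
      apply (deriv_holo hU hW hF hz hlim h1).div ((hz _ h2).sub (hz _ h1))
      intro t ht
      exact sub_ne_zero.2 fun e => hp (hi t ht h2 h1 e)
  · intro t₀ ht₀
    have hFe : ∀ᶠ t in 𝓝 t₀, DifferentiableOn ℂ (F t) W := by
      filter_upwards [hU.mem_nhds ht₀] with t ht using hF t ht
    have h1 := kc_tendsto hW hS hSW hFe (hF t₀ ht₀) (hi t₀ ht₀) (hlim t₀ ht₀) one_pos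
    obtain ⟨δ, hδ, hδ'⟩ := Metric.eventually_nhds_iff_ball.1 h1
    obtain ⟨C₁, hC₁⟩ := (hS.prod hS).exists_bound_of_continuousOn
      ((kc_cont hW (hF t₀ ht₀) (hi t₀ ht₀)).mono (prod_mono hSW hSW))
    refine ⟨δ, fun p => ‖v p.2 * om p.1 * (1 / (p.1 - p.2))‖ * (C₁ + 1), hδ,
      (ker_int hv hvc hom homc).norm.mul_const _, ?_⟩
    filter_upwards [prod_ne_ae] with p hp t ht
    rw [← kc_eq hp]
    by_cases h0 : v p.2 * om p.1 = 0
    · rw [h0]; simp
    · have e : v p.2 * om p.1 * (kc (F t) p / (p.1 - p.2)) =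
          (v p.2 * om p.1 * (1 / (p.1 - p.2))) * kc (F t) p := by ring
      rw [e, norm_mul]
      apply mul_le_mul_of_nonneg_left _ (norm_nonneg _)
      have hpS : p ∈ (tsupport v ∪ tsupport om) ×ˢ (tsupport v ∪ tsupport om) :=
        ⟨Or.inr (subset_tsupport om (right_ne_zero_of_mul h0)),
          Or.inl (subset_tsupport v (left_ne_zero_of_mul h0))⟩
      have k1 := hδ' t ht p hpS
      have k2 := hC₁ p hpS
      have k3 := norm_sub_norm_le (kc (F t) p) (kc (F t₀) p)
      linarith

end Pool.Agent.H20.JL
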