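import Mathlib
import Pool.Agent.H20.JL.Hol
import Pool.Graph.R_seed8.H713R2.AR.AF4
import Pool.Graph.R_pool_sql_team_seeded_c8625f6e.K4H45.LL.Fab

/-! # Radial test functions and the coefficients at infinity -/

set_option autoImplicit false

open Topology Filter Metric Set MeasureTheory
open Pool.Agent.Split938 Pool.Agent.H713R2 Pool.Agent.H713R2.AR
open scoped ContDiff

namespace Pool.Agent.H20.JL

/-- radial cutoff, as a function of the square of the radius -/
noncomputable def rho (a b u : ℝ) : ℝ := Real.smoothTransition ((b ^ 2 - u) / (b ^ 2 - a ^ 2))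

theorem rho_one {a b : ℝ} (ha : 0 < a) (hab : a < b) {u : ℝ} (h : u ≤ a ^ 2) : rho a b u = 1 := by
  unfold rho
  apply Real.smoothTransition.one_of_one_le
  have : a ^ 2 < b ^ 2 := pow_lt_pow_left₀ hab ha.le (by norm_num)
  rw [one_le_div (by linarith)]
  linarith

theorem rho_zero {a b : ℝ} (ha : 0 < a) (hab : a < b) {u : ℝ} (h : b ^ 2 ≤ u) : rho a b u = 0 := by
  unfold rho
  apply Real.smoothTransition.zero_of_nonpos
  have : a ^ 2 < b ^ 2 := pow_lt_pow_left₀ hab ha.le (by norm_num)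
  exact div_nonpos_of_nonpos_of_nonneg (by linarith) (by linarith)

theorem rho_smooth (a b : ℝ) : ContDiff ℝ ∞ (rho a b) := by
  unfold rho
  exact Real.smoothTransition.contDiff.comp ((contDiff_const.sub contDiff_id).div_const _)

/-- its derivative -/
noncomputable def rhd (a b : ℝ) : ℝ → ℝ := deriv (rho a b)

theorem rhd_smooth (a b : ℝ) : ContDiff ℝ ∞ (rhd a b) := by
  exact (contDiff_infty_iff_deriv.1 (rho_smooth a b)).2

theorem rhd_has (a b u : ℝ) : HasDerivAt (rho a b) (rhd a b u) u :=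
  ((rho_smooth a b).differentiable (by simp) u).hasDerivAt

theorem rhd_low {a b : ℝ} (ha : 0 < a) (hab : a < b) {u : ℝ} (h : u ≤ a ^ 2) : rhd a b u = 0 := by
  have h2 : HasDerivWithinAt (rho a b) 0 (Iic u) u := by
    refine (hasDerivWithinAt_const u (Iic u) (1 : ℝ)).congr (fun y hy => ?_) ?_
    · exact rho_one ha hab (le_trans hy h)
    · exact rho_one ha hab h
  exact ((uniqueDiffOn_Iic u) u self_mem_Iic).eq_deriv _ (rhd_has a b u).hasDerivWithinAt h2

theorem rhd_high {a b : ℝ} (ha : 0 < a) (hab : a < b) {u : ℝ} (h : b ^ 2 ≤ u) : rhd a b u = 0 := by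
  have h2 : HasDerivWithinAt (rho a b) 0 (Ici u) u := by
    refine (hasDerivWithinAt_const u (Ici u) (0 : ℝ)).congr (fun y hy => ?_) ?_
    · exact rho_zero ha hab (le_trans h hy)
    · exact rho_zero ha hab h
  exact ((uniqueDiffOn_Ici u) u self_mem_Ici).eq_deriv _ (rhd_has a b u).hasDerivWithinAt h2

theorem rhd_int {a b : ℝ} (ha : 0 < a) (hab : a < b) :
    ∫ r in Icc a b, r * rhd a b (r ^ 2) = -(1 / 2) := by
  rw [integral_Icc_eq_integral_Ioc, ← intervalIntegral.integral_of_le hab.le]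
  have h : ∀ r ∈ uIcc a b, HasDerivAt (fun r => 1 / 2 * rho a b (r ^ 2)) (r * rhd a b (r ^ 2)) r := by
    intro r _
    have h1 : HasDerivAt (fun r : ℝ => r ^ 2) (2 * r) r := by
      simpa using hasDerivAt_pow 2 r
    have h2 := ((rhd_has a b (r ^ 2)).comp r h1).const_mul (1 / 2 : ℝ)
    have e : 1 / 2 * (rhd a b (r ^ 2) * (2 * r)) = r * rhd a b (r ^ 2) := by ring
    rw [e] at h2
    exact h2
  rw [intervalIntegral.integral_eq_sub_of_hasDerivAt h]
  · rw [rho_one ha hab (le_refl (a ^ 2)), rho_zero ha hab (le_refl (b ^ 2))]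
    norm_num
  · apply Continuous.intervalIntegrable
    exact continuous_id.mul ((rhd_smooth a b).continuous.comp (continuous_pow 2))

theorem ncs (θ : ℝ) : ‖(Real.cos θ : ℂ) + Real.sin θ * Complex.I‖ = 1 := by
  have h := Complex.norm_exp_ofReal_mul_I θ
  rwa [Complex.exp_mul_I, ← Complex.ofReal_cos, ← Complex.ofReal_sin] at h

/-- integrals of radial weights against holomorphic functions of the inverse -/
theorem rad_int {a b s : ℝ} (ha : 0 < a) (hab : a < b) (has : a⁻¹ < s) {h : ℂ → ℂ}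
    (hh : DifferentiableOn ℂ h (ball 0 s)) (k : ℕ) :
    ∫ z : ℂ, (rhd a b (‖z‖ ^ 2) : ℂ) * (z ^ k * h z⁻¹) = -(Real.pi * tc h k) := by
  have hpi := Real.pi_pos
  have hval : ∀ r ∈ Icc a b, ∀ θ : ℝ, ((r : ℂ) * (Real.cos θ + Real.sin θ * Complex.I))⁻¹ ∈
      ball (0 : ℂ) s := by
    intro r hr θ
    have hr0 : 0 < r := ha.trans_le hr.1
    rw [mem_ball_zero_iff, norm_inv, norm_mul, Complex.norm_real, Real.norm_eq_abs,
      abs_of_pos hr0, ncs, mul_one]
    exact (inv_anti₀ ha hr.1).trans_lt has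
  have hval0 : ∀ r ∈ Icc a b, ∀ θ : ℝ, ((r : ℂ) * (Real.cos θ + Real.sin θ * Complex.I)) ≠ 0 := by
    intro r hr θ h0
    have hr0 : 0 < r := ha.trans_le hr.1
    have := congrArg norm h0
    rw [norm_mul, Complex.norm_real, Real.norm_eq_abs, abs_of_pos hr0,
      ncs, mul_one, norm_zero] at this
    linarith
  have hnorm : ∀ r : ℝ, 0 < r → ∀ θ : ℝ, ‖(r : ℂ) * (Real.cos θ + Real.sin θ * Complex.I)‖ = r := by
    intro r hr0 θ
    rw [norm_mul, Complex.norm_real, Real.norm_eq_abs, abs_of_pos hr0,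
      ncs, mul_one]
  rw [← Complex.integral_comp_polarCoord_symm]
  simp only [Complex.polarCoord_symm_apply]
  rw [polarCoord_target]
  -- restriction to a compact set
  have hsub : Icc a b ×ˢ Ioo (-Real.pi) Real.pi ⊆ Ioi (0 : ℝ) ×ˢ Ioo (-Real.pi) Real.pi :=
    prod_mono (fun r hr => ha.trans_le hr.1) (subset_refl _)
  have e1 := setIntegral_eq_of_subset_of_forall_sdiff_eq_zero (μ := volume)
    (f := fun p : ℝ × ℝ => p.1 • ((rhd a b (‖(p.1 : ℂ) * (Real.cos p.2 +
      Real.sin p.2 * Complex.I)‖ ^ 2) : ℂ) * (((p.1 : ℂ) * (Real.cos p.2 +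
      Real.sin p.2 * Complex.I)) ^ k * h ((p.1 : ℂ) * (Real.cos p.2 +
      Real.sin p.2 * Complex.I))⁻¹))) (measurableSet_Ioi.prod measurableSet_Ioo) hsub (by
    rintro ⟨r, θ⟩ ⟨⟨hr, hθ⟩, h2⟩
    have hr0 : 0 < r := hr
    have h3 : r ∉ Icc a b := fun h4 => h2 ⟨h4, hθ⟩
    simp only
    rw [hnorm r hr0 θ]
    rcases lt_or_ge r a with h4 | h4
    · rw [rhd_low ha hab (pow_le_pow_left₀ hr0.le h4.le 2)]; simp
    · rcases lt_or_ge b r with h5 | h5
      · rw [rhd_high ha hab (pow_le_pow_left₀ (ha.trans hab).le h5.le 2)]; simp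
      · exact absurd ⟨h4, h5⟩ h3)
  rw [e1]
  have hcont : ContinuousOn (fun p : ℝ × ℝ => p.1 • ((rhd a b (‖(p.1 : ℂ) * (Real.cos p.2 +
      Real.sin p.2 * Complex.I)‖ ^ 2) : ℂ) * (((p.1 : ℂ) * (Real.cos p.2 +
      Real.sin p.2 * Complex.I)) ^ k * h ((p.1 : ℂ) * (Real.cos p.2 +
      Real.sin p.2 * Complex.I))⁻¹))) (Icc a b ×ˢ Icc (-Real.pi) Real.pi) := by
    have c0 : Continuous (fun p : ℝ × ℝ => (p.1 : ℂ) * (Real.cos p.2 +
      Real.sin p.2 * Complex.I)) := by fun_prop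
    have c1 : ContinuousOn (fun p : ℝ × ℝ => h ((p.1 : ℂ) * (Real.cos p.2 +
      Real.sin p.2 * Complex.I))⁻¹) (Icc a b ×ˢ Icc (-Real.pi) Real.pi) := by
      apply hh.continuousOn.comp (c0.continuousOn.inv₀ fun p hp => hval0 p.1 hp.1 p.2)
      intro p hp
      exact hval p.1 hp.1 p.2
    have c2 : Continuous (fun p : ℝ × ℝ => ((rhd a b (‖(p.1 : ℂ) * (Real.cos p.2 +
      Real.sin p.2 * Complex.I)‖ ^ 2) : ℝ) : ℂ)) :=
      Complex.continuous_ofReal.comp ((rhd_smooth a b).continuous.comp (c0.norm.pow 2))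
    exact continuous_fst.continuousOn.smul (c2.continuousOn.mul ((c0.pow k).continuousOn.mul c1))
  have hint : IntegrableOn (fun p : ℝ × ℝ => p.1 • ((rhd a b (‖(p.1 : ℂ) * (Real.cos p.2 +
      Real.sin p.2 * Complex.I)‖ ^ 2) : ℂ) * (((p.1 : ℂ) * (Real.cos p.2 +
      Real.sin p.2 * Complex.I)) ^ k * h ((p.1 : ℂ) * (Real.cos p.2 +
      Real.sin p.2 * Complex.I))⁻¹))) (Icc a b ×ˢ Ioo (-Real.pi) Real.pi) (volume.prod volume) :=
    (hcont.integrableOn_compact (isCompact_Icc.prod isCompact_Icc)).mono_set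
      (prod_mono (subset_refl _) Ioo_subset_Icc_self)
  rw [Measure.volume_eq_prod, setIntegral_prod _ hint]
  -- the inner integrals
  have hinner : ∀ r ∈ Icc a b, ∫ θ in Ioo (-Real.pi) Real.pi, (r • ((rhd a b (‖(r : ℂ) *
      (Real.cos θ + Real.sin θ * Complex.I)‖ ^ 2) : ℂ) * (((r : ℂ) * (Real.cos θ +
      Real.sin θ * Complex.I)) ^ k * h ((r : ℂ) * (Real.cos θ +
      Real.sin θ * Complex.I))⁻¹))) = ((r * rhd a b (r ^ 2) : ℝ) : ℂ) *
      (2 * Real.pi * tc h k) := by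
    intro r hr
    have hr0 : 0 < r := ha.trans_le hr.1
    have hrC : (r : ℂ) ≠ 0 := by exact_mod_cast hr0.ne'
    rw [← integral_Icc_eq_integral_Ioo, integral_Icc_eq_integral_Ioc,
      ← intervalIntegral.integral_of_le (by linarith)]
    have h1 := integral_exp_tc' (R := s) (r := r⁻¹) hh (by positivity)
      ((inv_anti₀ ha hr.1).trans_lt has) k
    have h1' := intervalIntegral.integral_comp_neg (a := -Real.pi) (b := Real.pi)
      (fun θ : ℝ => Complex.exp (-(k * θ * Complex.I)) * h (circleMap 0 r⁻¹ θ))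
    rw [neg_neg] at h1'
    rw [← h1'] at h1
    have h2 : ∀ θ : ℝ, (r • ((rhd a b (‖(r : ℂ) *
      (Real.cos θ + Real.sin θ * Complex.I)‖ ^ 2) : ℂ) * (((r : ℂ) * (Real.cos θ +
      Real.sin θ * Complex.I)) ^ k * h ((r : ℂ) * (Real.cos θ +
      Real.sin θ * Complex.I))⁻¹))) = (((r * rhd a b (r ^ 2) : ℝ) : ℂ) * (r : ℂ) ^ k) *
      (Complex.exp (-(k * ((-θ : ℝ) : ℂ) * Complex.I)) * h (circleMap 0 r⁻¹ (-θ))) := by
      intro θ
      rw [hnorm r hr0 θ, Complex.real_smul]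
      have e2 : (Real.cos θ : ℂ) + Real.sin θ * Complex.I = Complex.exp (θ * Complex.I) := by
        rw [Complex.exp_mul_I, Complex.ofReal_cos, Complex.ofReal_sin]
      have e3 : circleMap 0 r⁻¹ (-θ) = ((r : ℂ) * Complex.exp (θ * Complex.I))⁻¹ := by
        rw [circleMap, zero_add, mul_inv, ← Complex.exp_neg]
        push_cast
        congr 2
        ring
      have e4 : Complex.exp (-(k * ((-θ : ℝ) : ℂ) * Complex.I)) =
          Complex.exp (θ * Complex.I) ^ k := by
        rw [← Complex.exp_nat_mul]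
        push_cast
        congr 1
        ring
      rw [e2, e3, e4, mul_pow]
      push_cast
      ring
    simp only [h2]
    rw [intervalIntegral.integral_const_mul, h1]
    push_cast
    rw [inv_pow]
    field_simp
  have h3 : ∫ r in Icc a b, ((r * rhd a b (r ^ 2) : ℝ) : ℂ) = ((-(1 / 2) : ℝ) : ℂ) := by
    rw [← rhd_int ha hab]
    exact integral_ofReal
  rw [setIntegral_congr_fun measurableSet_Icc hinner, integral_mul_const, h3]
  push_cast
  ring

end Pool.Agent.H20.JL
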