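import Mathlib
import Pool.Agent.H20.JL.Rad

/-! # The bilinear form on radial test functions -/

set_option autoImplicit false

open Topology Filter Metric Set MeasureTheory
open Pool.Agent.Split938 Pool.Agent.H713R2 Pool.Agent.H713R2.AR
open scoped ContDiff

namespace Pool.Agent.H20.JL

/-- the radial cutoff in the plane -/
noncomputable def rc (a b : ℝ) (z : ℂ) : ℂ := ((rho a b (‖z‖ ^ 2) : ℝ) : ℂ)

theorem normsq_has (z : ℂ) : HasFDerivAt (fun z : ℂ => ‖z‖ ^ 2) (2 • (innerSL ℝ z)) z :=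
  (hasStrictFDerivAt_norm_sq z).hasFDerivAt

theorem rc_has (a b : ℝ) (z : ℂ) : HasFDerivAt (rc a b)
    (Complex.ofRealCLM.comp (rhd a b (‖z‖ ^ 2) • (2 • (innerSL ℝ z)))) z := by
  have h1 := HasDerivAt.comp_hasFDerivAt (f := fun z : ℂ => ‖z‖ ^ 2) z (rhd_has a b (‖z‖ ^ 2))
    (normsq_has z)
  exact (Complex.ofRealCLM.hasFDerivAt).comp z h1

theorem rc_smooth (a b : ℝ) : ContDiff ℝ ∞ (rc a b) := by
  unfold rc
  exact Complex.ofRealCLM.contDiff.comp ((rho_smooth a b).comp (contDiff_norm_sq ℝ))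

theorem rc_fderiv (a b : ℝ) (z v : ℂ) : fderiv ℝ (rc a b) z v =
    (rhd a b (‖z‖ ^ 2) : ℂ) * (2 * ((z.re * v.re + z.im * v.im : ℝ) : ℂ)) := by
  rw [(rc_has a b z).fderiv]
  simp only [ContinuousLinearMap.comp_apply, smul_apply, innerSL_apply_apply,
    Complex.inner, Complex.ofRealCLM_apply]
  push_cast
  simp only [smul_eq_mul, nsmul_eq_mul, Complex.conj_re, Complex.mul_re, Complex.conj_im,
    Complex.ofReal_mul, Complex.ofReal_sub, Complex.ofReal_neg]
  push_cast
  ring

theorem dz_rc (a b : ℝ) (z : ℂ) : dz (rc a b) z = (rhd a b (‖z‖ ^ 2) : ℂ) * cj z := by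
  unfold dz
  rw [rc_fderiv, rc_fderiv]
  apply Complex.ext
  · simp
    ring
  · simp
    ring

theorem dbar_rc (a b : ℝ) (z : ℂ) : dbar (rc a b) z = (rhd a b (‖z‖ ^ 2) : ℂ) * z := by
  unfold dbar
  rw [rc_fderiv, rc_fderiv]
  apply Complex.ext
  · simp
    ring
  · simp
    ring

/-- the function `z` cut off at infinity -/
noncomputable def chi (a b : ℝ) (z : ℂ) : ℂ := z * rc a b z

/-- the function `conj z ^ j` cut off at infinity -/
noncomputable def phj (a b : ℝ) (j : ℕ) (z : ℂ) : ℂ := cj z ^ j * rc a b z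

theorem chi_smooth (a b : ℝ) : ContDiff ℝ ∞ (chi a b) := contDiff_id.mul (rc_smooth a b)

theorem cj_smooth : ContDiff ℝ ∞ (fun z : ℂ => cj z) := cd_cj contDiff_id

theorem phj_smooth (a b : ℝ) (j : ℕ) : ContDiff ℝ ∞ (phj a b j) :=
  (cj_smooth.pow j).mul (rc_smooth a b)

theorem rc_hcs {a b : ℝ} (ha : 0 < a) (hab : a < b) : HasCompactSupport (rc a b) := by
  refine HasCompactSupport.intro (K := closedBall 0 b) (isCompact_closedBall _ _)
    fun z hz => ?_
  rw [mem_closedBall_zero_iff, not_le] at hz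
  unfold rc
  rw [rho_zero ha hab (pow_le_pow_left₀ (ha.trans hab).le hz.le 2)]
  simp

theorem rc_one {a b : ℝ} (ha : 0 < a) (hab : a < b) {z : ℂ} (h : ‖z‖ ≤ a) : rc a b z = 1 := by
  unfold rc
  rw [rho_one ha hab (pow_le_pow_left₀ (norm_nonneg _) h 2)]
  simp

theorem chi_hcs {a b : ℝ} (ha : 0 < a) (hab : a < b) : HasCompactSupport (chi a b) :=
  (rc_hcs ha hab).mul_left

theorem phj_hcs {a b : ℝ} (ha : 0 < a) (hab : a < b) (j : ℕ) : HasCompactSupport (phj a b j) :=
  (rc_hcs ha hab).mul_left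

theorem dbar_chi (a b : ℝ) (z : ℂ) :
    dbar (chi a b) z = (rhd a b (‖z‖ ^ 2) : ℂ) * z ^ 2 := by
  unfold chi
  rw [dbar_mul (f := fun z => z) differentiableAt_id ((rc_smooth a b).differentiable (by simp) z), dbar_rc,
    show dbar (fun z : ℂ => z) z = 0 from dbar_of_hasDerivAt (hasDerivAt_id z)]
  ring

theorem dz_conj_pow (j : ℕ) (z : ℂ) : dz (fun z : ℂ => cj z ^ j) z = 0 := by
  have e : (fun z : ℂ => cj z ^ j) = fun z => cj (z ^ j) := by
    funext z
    exact (map_pow _ _ _).symm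
  rw [e, dz_cj (differentiableAt_pow j), dbar_of_hasDerivAt (hasDerivAt_pow j z)]
  exact map_zero _

theorem dz_phj (a b : ℝ) (j : ℕ) (z : ℂ) :
    dz (phj a b j) z = (rhd a b (‖z‖ ^ 2) : ℂ) * cj z ^ (j + 1) := by
  unfold phj
  rw [dz_mul ((cj_smooth.pow j).differentiable (by simp) z)
    ((rc_smooth a b).differentiable (by simp) z), dz_rc, dz_conj_pow]
  ring

theorem rhd_supp {a b : ℝ} (ha : 0 < a) (hab : a < b) {z : ℂ} (h : rhd a b (‖z‖ ^ 2) ≠ 0) :
    a ≤ ‖z‖ ∧ ‖z‖ ≤ b := by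
  constructor
  · by_contra hc
    push Not at hc
    exact h (rhd_low ha hab (pow_le_pow_left₀ (norm_nonneg _) hc.le 2))
  · by_contra hc
    push Not at hc
    exact h (rhd_high ha hab (pow_le_pow_left₀ (ha.trans hab).le hc.le 2))

theorem ann_closed (a b : ℝ) : IsClosed {z : ℂ | a ≤ ‖z‖ ∧ ‖z‖ ≤ b} :=
  (isClosed_le continuous_const continuous_norm).inter
    (isClosed_le continuous_norm continuous_const)

theorem supp_chi {a b : ℝ} (ha : 0 < a) (hab : a < b) :
    tsupport (dbar (chi a b)) ⊆ {z : ℂ | a ≤ ‖z‖ ∧ ‖z‖ ≤ b} := by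
  apply closure_minimal _ (ann_closed a b)
  intro z hz
  rw [Function.mem_support, dbar_chi] at hz
  exact rhd_supp ha hab fun h => hz (by rw [h]; simp)

theorem supp_phj {a b : ℝ} (ha : 0 < a) (hab : a < b) (j : ℕ) :
    tsupport (dz (phj a b j)) ⊆ {z : ℂ | a ≤ ‖z‖ ∧ ‖z‖ ≤ b} := by
  apply closure_minimal _ (ann_closed a b)
  intro z hz
  rw [Function.mem_support, dz_phj] at hz
  exact rhd_supp ha hab fun h => hz (by rw [h]; simp)

/-- a map which is tangent to the identity at infinity -/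
structure Inf (F : ℂ → ℂ) (s : ℝ) (G : ℂ → ℂ) : Prop where
  pos : 0 < s
  hol : DifferentiableOn ℂ G (ball 0 s)
  zero : G 0 = 1
  one : deriv G 0 = 0
  eq : ∀ t : ℂ, t ≠ 0 → ‖t‖ < s → G t = t * F t⁻¹

theorem Inf.val {F G : ℂ → ℂ} {s : ℝ} (h : Inf F s G) {z : ℂ} (hz : s⁻¹ < ‖z‖) :
    F z = z * G z⁻¹ := by
  have hs := h.pos
  have h0 : 0 < ‖z‖ := (inv_pos.2 hs).trans hz
  have hz0 : z ≠ 0 := norm_pos_iff.1 h0
  rw [h.eq z⁻¹ (inv_ne_zero hz0) (by rw [norm_inv]; exact inv_lt_of_inv_lt₀ hs hz), inv_inv]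
  field_simp

theorem Inf.der {F G : ℂ → ℂ} {s : ℝ} (h : Inf F s G) {z : ℂ} (hz : s⁻¹ < ‖z‖) :
    HasDerivAt F (G z⁻¹ - z⁻¹ * deriv G z⁻¹) z := by
  have hs := h.pos
  have h0 : 0 < ‖z‖ := (inv_pos.2 hs).trans hz
  have hz0 : z ≠ 0 := norm_pos_iff.1 h0
  have hb : z⁻¹ ∈ ball (0 : ℂ) s := by
    rw [mem_ball_zero_iff, norm_inv]
    exact inv_lt_of_inv_lt₀ hs hz
  have h1 : HasDerivAt G (deriv G z⁻¹) z⁻¹ :=
    (h.hol.differentiableAt (isOpen_ball.mem_nhds hb)).hasDerivAt
  have h2 := (hasDerivAt_id z).mul (h1.comp z (hasDerivAt_inv hz0))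
  have h3 : HasDerivAt (fun z => z * G z⁻¹)
      (1 * G z⁻¹ + z * (deriv G z⁻¹ * -(z ^ 2)⁻¹)) z := h2
  have e : 1 * G z⁻¹ + z * (deriv G z⁻¹ * -(z ^ 2)⁻¹) = G z⁻¹ - z⁻¹ * deriv G z⁻¹ := by
    field_simp
    ring
  rw [e] at h3
  refine h3.congr_of_eventuallyEq ?_
  filter_upwards [(isOpen_lt continuous_const continuous_norm).mem_nhds hz] with y hy
  exact h.val hy

theorem tc_one (G : ℂ → ℂ) : tc G 1 = deriv G 0 := by
  have := tc_deriv G 0
  rw [tc_zero] at this
  rw [this]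
  push_cast
  ring

theorem tc_sub_mul_deriv {G : ℂ → ℂ} {s : ℝ} (hs : 0 < s) (hG : DifferentiableOn ℂ G (ball 0 s))
    (j : ℕ) : tc (fun t => G t - t * deriv G t) (j + 1) = -(j * tc G (j + 1)) := by
  have hd : DifferentiableOn ℂ (deriv G) (ball 0 s) := hG.deriv isOpen_ball
  have h1 : DifferentiableOn ℂ (fun t => t * deriv G t) (ball 0 s) :=
    differentiableOn_id.mul hd
  rw [Pool.Agent.K4H45.LL.tc_sub hs hG h1]
  have h2 := Pool.Agent.K4H45.LL.tc_pow_mul hs hd 1 (j + 1)
  simp only [pow_one] at h2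
  rw [h2, if_pos (by omega), Nat.add_sub_cancel, tc_deriv]
  ring

/-- The value of the bilinear form on the radial test functions. -/
theorem KK_coef {W : Set ℂ} (hW : IsOpen W) {F : ℂ → ℂ} (hF : DifferentiableOn ℂ F W)
    (hi : InjOn F W) {G : ℂ → ℂ} {s : ℝ} (hG : Inf F s G) (hWs : ∀ z : ℂ, s⁻¹ < ‖z‖ → z ∈ W)
    {a b c e : ℝ} (has : s⁻¹ < a) (hab : a < b) (hbc : b < c) (hce : c < e) (j : ℕ) :
    KK F (dbar (chi c e)) (dz (fun z => cj (dz (phj a b j) z))) =
      -(Real.pi ^ 2 * (j * tc G (j + 1))) := by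
  have hs := hG.pos
  have ha : 0 < a := (inv_pos.2 hs).trans has
  have hb : 0 < b := ha.trans hab
  have hc : 0 < c := hb.trans hbc
  have hvs : ContDiff ℝ ∞ (dbar (chi c e)) := cdi_dbar (chi_smooth c e)
  have hvc : HasCompactSupport (dbar (chi c e)) := dbar_hcs (chi_hcs hc hce)
  have hvW : tsupport (dbar (chi c e)) ⊆ W := fun z hz =>
    hWs z (by have := (supp_chi hc hce hz).1; linarith)
  set g : ℂ → ℂ := fun z => cj (dz (phj a b j) z) with hg
  have hgs : ContDiff ℝ ∞ g := cd_cj (cdi_dz (phj_smooth a b j))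
  have hgc : HasCompactSupport g := hcs_cj (dz_hcs (phj_hcs ha hab j))
  have hgt : tsupport g ⊆ {z : ℂ | a ≤ ‖z‖ ∧ ‖z‖ ≤ b} := ts_cj.trans (supp_phj ha hab j)
  have hgW : tsupport g ⊆ W := fun z hz => hWs z (by have := (hgt hz).1; linarith)
  have hos : ContDiff ℝ ∞ (dz g) := cdi_dz hgs
  have hoc : HasCompactSupport (dz g) := dz_hcs hgc
  have hot : tsupport (dz g) ⊆ {z : ℂ | a ≤ ‖z‖ ∧ ‖z‖ ≤ b} := tsupport_dz.trans hgt
  rw [KK_iter hW hF hi hvs.continuous hvc hvW hos.continuous hoc (tsupport_dz.trans hgW)]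
  -- the inner integral
  have inner : ∀ z : ℂ, a ≤ ‖z‖ → ‖z‖ ≤ b →
      ∫ y, dbar (chi c e) y * (deriv F y / (F z - F y)) = Real.pi * F z := by
    intro z hz1 hz2
    have hzW : z ∈ W := hWs z (by linarith)
    have hbs : b⁻¹ ≤ s := by
      rw [inv_le_comm₀ hb hs]
      linarith
    have hbb : ball (0 : ℂ) b⁻¹ ⊆ ball (0 : ℂ) s := ball_subset_ball hbs
    have hden : ∀ t ∈ ball (0 : ℂ) b⁻¹, G t - t * F z ≠ 0 := by
      intro t ht
      by_cases ht0 : t = 0
      · rw [ht0, hG.zero]; simp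
      · have hts : ‖t‖ < s := mem_ball_zero_iff.1 (hbb ht)
        rw [hG.eq t ht0 hts, ← mul_sub]
        apply mul_ne_zero ht0
        rw [sub_ne_zero]
        intro h
        have h1 : b < ‖t⁻¹‖ := by
          rw [norm_inv]
          exact lt_inv_of_lt_inv₀ (norm_pos_iff.2 ht0) (mem_ball_zero_iff.1 ht)
        have h2 := hi (hWs _ (by linarith)) hzW h
        rw [h2] at h1
        linarith
    set h : ℂ → ℂ := fun t => -((G t - t * deriv G t) / (G t - t * F z)) with hh
    have hhd : DifferentiableOn ℂ h (ball 0 b⁻¹) := by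
      apply DifferentiableOn.neg
      apply DifferentiableOn.div _ _ hden
      · exact (hG.hol.mono hbb).sub
          (differentiableOn_id.mul ((hG.hol.deriv isOpen_ball).mono hbb))
      · exact (hG.hol.mono hbb).sub (differentiableOn_id.mul_const _)
    have h1 := rad_int hc hce (s := b⁻¹) ((inv_lt_inv₀ hc hb).2 hbc) hhd 1
    have h2 : tc h 1 = -F z := by
      rw [tc_one]
      have m0 : (0 : ℂ) ∈ ball (0 : ℂ) s := mem_ball_self hs
      have d1 : HasDerivAt G 0 0 := by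
        have := (hG.hol.differentiableAt (isOpen_ball.mem_nhds m0)).hasDerivAt
        rwa [hG.one] at this
      have d2 : HasDerivAt (deriv G) (deriv (deriv G) 0) 0 :=
        ((hG.hol.deriv isOpen_ball).differentiableAt (isOpen_ball.mem_nhds m0)).hasDerivAt
      have d3 := d1.sub ((hasDerivAt_id (0 : ℂ)).mul d2)
      have d4 := d1.sub ((hasDerivAt_id (0 : ℂ)).mul_const (F z))
      have d5 := (d3.div d4 (by simp [hG.zero])).neg
      have d6 : HasDerivAt h _ 0 := d5
      rw [d6.deriv]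
      simp [hG.zero, hG.one]
    rw [h2] at h1
    have h3 : ∫ y, dbar (chi c e) y * (deriv F y / (F z - F y)) =
        ∫ y : ℂ, (rhd c e (‖y‖ ^ 2) : ℂ) * (y ^ 1 * h y⁻¹) := by
      apply integral_congr_ae
      refine Eventually.of_forall fun y => ?_
      simp only
      rw [dbar_chi]
      by_cases h0 : rhd c e (‖y‖ ^ 2) = 0
      · rw [h0]; simp
      · have h4 := (rhd_supp hc hce h0).1
        have hy0 : y ≠ 0 := norm_pos_iff.1 (by linarith)
        have hy : s⁻¹ < ‖y‖ := by linarith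
        have h5 := hden y⁻¹ (by
          rw [mem_ball_zero_iff, norm_inv]
          exact (inv_lt_inv₀ (by linarith) hb).2 (by linarith))
        rw [(hG.der hy).deriv, hh]
        simp only
        have h6 : F z - F y = -(y * (G y⁻¹ - y⁻¹ * F z)) := by
          rw [hG.val hy]
          field_simp
          ring
        rw [h6, pow_one]
        field_simp
    rw [h3, h1]
    ring
  -- the outer integral
  have h7 : ∫ z, dz g z * ∫ y, dbar (chi c e) y * (deriv F y / (F z - F y)) =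
      ∫ z, Real.pi * (dz g z * F z) := by
    apply integral_congr_ae
    refine Eventually.of_forall fun z => ?_
    simp only
    by_cases h0 : dz g z = 0
    · rw [h0]; simp
    · have h8 := hot (subset_tsupport (dz g) h0)
      rw [inner z h8.1 h8.2]
      ring
  rw [h7, integral_const_mul]
  -- integration by parts
  set gF : ℂ → ℂ := fun z => g z * F z with hgF
  have hgFs : ContDiff ℝ ∞ gF := by
    rw [contDiff_iff_contDiffAt]
    intro z
    by_cases hz : z ∈ tsupport g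
    · exact (hgs.contDiffAt).mul
        (((hF.analyticAt (hW.mem_nhds (hgW hz))).contDiffAt).restrict_scalars ℝ)
    · have h1 : gF =ᶠ[𝓝 z] fun _ => 0 := by
        filter_upwards [(isClosed_tsupport g).isOpen_compl.mem_nhds hz] with y hy
        simp only [hgF]
        rw [image_eq_zero_of_notMem_tsupport hy, zero_mul]
      exact contDiffAt_const.congr_of_eventuallyEq h1
  have hgFc : HasCompactSupport gF := hgc.mul_right
  have h9 := int_dz (hgFs.of_le (by exact_mod_cast le_top)) hgFc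
  have h10 : ∀ z, dz gF z = g z * (G z⁻¹ - z⁻¹ * deriv G z⁻¹) + dz g z * F z := by
    intro z
    by_cases hz : z ∈ tsupport g
    · have hzs : s⁻¹ < ‖z‖ := by have := (hgt hz).1; linarith
      have hFd := hG.der hzs
      have h11 := dz_mul (f := g) (g := F) (z := z) (hgs.differentiable (by simp) z)
        (hFd.differentiableAt.restrictScalars ℝ)
      have h12 : dz F z = G z⁻¹ - z⁻¹ * deriv G z⁻¹ := dz_of_hasDerivAt hFd
      rw [h12] at h11
      exact h11
    · have h13 : z ∉ tsupport gF := fun h => hz (tsupport_le (f := g) (g := gF) (fun y hy => by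
        simp only [hgF, hy, zero_mul]) h)
      rw [dz_zero_off h13, dz_zero_off hz, image_eq_zero_of_notMem_tsupport hz]
      ring
  have hi1 : Integrable (fun z => dz g z * F z) := by
    have hcF : ContinuousOn (fun z => dz g z * F z) (tsupport g) :=
      (hos.continuous.continuousOn).mul (hF.continuousOn.mono hgW)
    have h14 : IntegrableOn (fun z => dz g z * F z) (tsupport g) :=
      hcF.integrableOn_compact hgc.isCompact
    refine (integrableOn_iff_integrable_of_support_subset ?_).1 h14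
    intro z hz
    by_contra h
    exact hz (by simp only [dz_zero_off h, zero_mul])
  have hi2 : Integrable (fun z => g z * (G z⁻¹ - z⁻¹ * deriv G z⁻¹)) := by
    have h15 : Integrable (dz gF) :=
      (cdi_dz hgFs).continuous.integrable_of_hasCompactSupport (dz_hcs hgFc)
    have h16 := h15.sub hi1
    refine h16.congr (Eventually.of_forall fun z => ?_)
    simp only [Pi.sub_apply]
    rw [h10 z]
    ring
  have h17 : ∫ z, g z * (G z⁻¹ - z⁻¹ * deriv G z⁻¹) = Real.pi * (j * tc G (j + 1)) := by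
    have h18 := rad_int ha hab (s := s) (inv_lt_of_inv_lt₀ hs has)
      (h := fun t => G t - t * deriv G t)
      (hG.hol.sub (differentiableOn_id.mul (hG.hol.deriv isOpen_ball))) (j + 1)
    rw [tc_sub_mul_deriv hs hG.hol] at h18
    rw [show Real.pi * (j * tc G (j + 1)) = -(Real.pi * -(j * tc G (j + 1))) by ring, ← h18]
    congr 1
    funext z
    simp only [hg]
    rw [dz_phj]
    have : cj ((rhd a b (‖z‖ ^ 2) : ℂ) * cj z ^ (j + 1)) =
        (rhd a b (‖z‖ ^ 2) : ℂ) * z ^ (j + 1) := by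
      simp
    rw [this]
    ring
  have h19 : ∫ z, dz gF z = (∫ z, g z * (G z⁻¹ - z⁻¹ * deriv G z⁻¹)) + ∫ z, dz g z * F z := by
    rw [← integral_add hi2 hi1]
    congr 1
    funext z
    exact h10 z
  rw [h9, h17] at h19
  have h20 : ∫ z, dz g z * F z = -(Real.pi * (j * tc G (j + 1))) := by
    linear_combination -h19
  rw [h20]
  ring

end Pool.Agent.H20.JL
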