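import Mathlib
import Pool.Agent.H20.JL.Coe

/-! # The energy functional -/

set_option autoImplicit false

open Topology Filter Metric Set MeasureTheory
open Pool.Agent.Split938 Pool.Agent.H713R2 Pool.Agent.H713R2.AR
open scoped ContDiff

namespace Pool.Agent.H20.JL

/-- smooth functions with compact support in `W` -/
structure Ts (W : Set ℂ) (f : ℂ → ℂ) : Prop where
  sm : ContDiff ℝ ∞ f
  hc : HasCompactSupport f
  ts : tsupport f ⊆ W

theorem Ts.add {W : Set ℂ} {f g : ℂ → ℂ} (hf : Ts W f) (hg : Ts W g) (α : ℂ) :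
    Ts W (fun z => f z + α * g z) := by
  refine ⟨hf.sm.add (contDiff_const.mul hg.sm), hf.hc.add hg.hc.mul_left, ?_⟩
  refine (closure_mono (t := Function.support f ∪ Function.support g) ?_).trans ?_
  · intro z hz
    by_contra h
    simp only [mem_union, Function.mem_support, not_or, not_not] at h
    apply hz
    simp only [h.1, h.2, mul_zero, add_zero]
  · rw [closure_union]
    exact union_subset hf.ts hg.ts

/-- the form `dz (conj w)` -/
noncomputable def dc (w : ℂ → ℂ) : ℂ → ℂ := dz (fun z => cj (w z))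

theorem Ts.dc {W : Set ℂ} {w : ℂ → ℂ} (hw : Ts W w) : Ts W (dc w) :=
  ⟨cdi_dz (cd_cj hw.sm), dz_hcs (hcs_cj hw.hc), (tsupport_dz.trans ts_cj).trans hw.ts⟩

theorem dc_add {W : Set ℂ} {w g : ℂ → ℂ} (hw : Ts W w) (hg : Ts W g) (α : ℂ) :
    dc (fun z => w z + α * g z) = fun z => dc w z + cj α * dc g z := by
  funext z
  have hwd : DifferentiableAt ℝ (fun z => cj (w z)) z :=
    (cd_cj hw.sm).differentiable (by simp) z
  have hgd : DifferentiableAt ℝ (fun z => cj (g z)) z :=
    (cd_cj hg.sm).differentiable (by simp) z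
  have h1 : dc (fun z => w z + α * g z) z =
      dz (fun z => cj (w z) + cj α * cj (g z)) z := by
    unfold dc
    congr 1
    funext y
    simp only [map_add, map_mul]
  have h2 : HasFDerivAt (fun z => cj (w z) + cj α * cj (g z))
      (fderiv ℝ (fun z => cj (w z)) z + cj α • fderiv ℝ (fun z => cj (g z)) z) z :=
    hwd.hasFDerivAt.add (hgd.hasFDerivAt.const_mul (cj α))
  rw [h1]
  unfold dc dz
  rw [h2.fderiv]
  simp only [add_apply, smul_apply, smul_eq_mul]
  ring

section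
variable {W : Set ℂ} {F : ℂ → ℂ}

theorem KK_int (hW : IsOpen W) (hF : DifferentiableOn ℂ F W) (hi : InjOn F W) {v om : ℂ → ℂ}
    (hv : Ts W v) (ho : Ts W om) : Integrable (fun p : ℂ × ℂ =>
      v p.2 * om p.1 * (deriv F p.2 / (F p.1 - F p.2))) (volume.prod volume) := by
  refine (ker_int_mul hW hv.sm.continuous hv.hc hv.ts ho.sm.continuous ho.hc ho.ts
    (kc_cont hW hF hi)).congr ?_
  filter_upwards [prod_ne_ae] with p hp
  rw [kc_eq hp]

theorem KK_lin (hW : IsOpen W) (hF : DifferentiableOn ℂ F W) (hi : InjOn F W)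
    {v u om om' : ℂ → ℂ} (hv : Ts W v) (hu : Ts W u) (ho : Ts W om) (ho' : Ts W om') (α β : ℂ) :
    KK F (fun z => v z + α * u z) (fun z => om z + β * om' z) =
      KK F v om + β * KK F v om' + α * KK F u om + α * β * KK F u om' := by
  unfold KK
  have i1 := KK_int hW hF hi hv ho
  have i2 := (KK_int hW hF hi hv ho').const_mul β
  have i3 := (KK_int hW hF hi hu ho).const_mul α
  have i4 := (KK_int hW hF hi hu ho').const_mul (α * β)
  have s3 := integral_add' ((i1.add i2).add i3) i4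
  rw [integral_add' (i1.add i2) i3, integral_add' i1 i2] at s3
  rw [← integral_const_mul, ← integral_const_mul, ← integral_const_mul, ← s3]
  congr 1
  funext p
  simp only [Pi.add_apply]
  ring

/-- squared norm -/
noncomputable def sn (f : ℂ → ℂ) : ℝ := ∫ z, ‖f z‖ ^ 2

/-- inner product -/
noncomputable def ip (f g : ℂ → ℂ) : ℂ := ∫ z, f z * cj (g z)

theorem sn_add {f g : ℂ → ℂ} (hf : Ts W f) (hg : Ts W g) (α : ℂ) :
    sn (fun z => f z + α * g z) = sn f + 2 * (α * ip g f).re + ‖α‖ ^ 2 * sn g := by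
  have i1 : Integrable (fun z => ‖f z‖ ^ 2) := sq_int hf.sm.continuous hf.hc
  have i2 : Integrable (fun z => ‖g z‖ ^ 2) := sq_int hg.sm.continuous hg.hc
  have i3 : Integrable (fun z => g z * cj (f z)) :=
    (hg.sm.continuous.mul (cd_cj hf.sm).continuous).integrable_of_hasCompactSupport
      hg.hc.mul_right
  have i4 : Integrable (fun z => (α * (g z * cj (f z))).re) :=
    (i3.const_mul α).re
  have e : (α * ip g f).re = ∫ z, (α * (g z * cj (f z))).re := by
    unfold ip
    rw [← integral_const_mul]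
    exact (integral_re (i3.const_mul α)).symm
  rw [e]
  unfold sn
  have s3 := integral_add' (i1.add (i4.const_mul 2)) (i2.const_mul (‖α‖ ^ 2))
  rw [integral_add' i1 (i4.const_mul 2)] at s3
  rw [← integral_const_mul, ← integral_const_mul, ← s3]
  congr 1
  funext z
  simp only [Pi.add_apply]
  rw [← Complex.normSq_eq_norm_sq, ← Complex.normSq_eq_norm_sq, ← Complex.normSq_eq_norm_sq,
    ← Complex.normSq_eq_norm_sq, Complex.normSq_add, Complex.normSq_mul]
  have e2 : (f z * cj (α * g z)).re = (α * (g z * cj (f z))).re := by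
    rw [← Complex.conj_re (f z * cj (α * g z))]
    congr 1
    simp
    ring
  rw [e2]
  ring

/-- the energy -/
noncomputable def EN (F v w : ℂ → ℂ) : ℝ :=
  sn v + sn w + 2 / Real.pi * (KK F v (dc w)).re

theorem EN_nonneg (hW : IsOpen W) (hF : DifferentiableOn ℂ F W) (hi : InjOn F W)
    {v w : ℂ → ℂ} (hv : Ts W v) (hw : Ts W w) : 0 ≤ EN F v w := by
  have h := KK_bound hW hF hi hv.sm hv.hc hv.ts hw.sm hw.hc hw.ts
  have hpi := Real.pi_pos
  have h1 : -(Real.pi / 2 * (sn v + sn w)) ≤ (KK F v (dc w)).re := by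
    have h2 := Complex.abs_re_le_norm (KK F v (dc w))
    have h3 := neg_abs_le (KK F v (dc w)).re
    have h4 : ‖KK F v (dc w)‖ ≤ Real.pi / 2 * (sn v + sn w) := h
    linarith
  unfold EN
  have h5 := mul_le_mul_of_nonneg_left h1 (by positivity : 0 ≤ 2 / Real.pi)
  have h6 : 2 / Real.pi * -(Real.pi / 2 * (sn v + sn w)) = -(sn v + sn w) := by
    field_simp
  linarith

theorem EN_add (hW : IsOpen W) (hF : DifferentiableOn ℂ F W) (hi : InjOn F W)
    {f w u g : ℂ → ℂ} (hf : Ts W f) (hw : Ts W w) (hu : Ts W u) (hg : Ts W g) (α : ℂ) :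
    EN F (fun z => f z + α * u z) (fun z => w z + α * g z) =
      sn f + sn w + 2 / Real.pi * (KK F f (dc w)).re + 2 * (α * (ip u f + ip g w)).re +
      2 / Real.pi * (α * KK F u (dc w)).re + 2 / Real.pi * (cj α * KK F f (dc g)).re +
      ‖α‖ ^ 2 * EN F u g := by
  unfold EN
  rw [sn_add hf hu, sn_add hw hg, dc_add hw hg, KK_lin hW hF hi hf hu hw.dc hg.dc]
  have e : α * cj α * KK F u (dc g) = ((‖α‖ ^ 2 : ℝ) : ℂ) * KK F u (dc g) := by
    rw [mul_cj_self]
  rw [e]
  simp only [Complex.add_re, mul_add, Complex.re_ofReal_mul]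
  ring

/-- the functional for one coefficient -/
noncomputable def HC (F f w u g : ℂ → ℂ) (β : ℂ) : ℂ :=
  ((sn f + sn w + sn u + sn g : ℝ) : ℂ) + (2 / Real.pi : ℝ) * KK F f (dc w) +
    2 * β * (ip u f + ip g w) + (2 / Real.pi : ℝ) * (β * KK F u (dc w)) +
    (2 / Real.pi : ℝ) * KK F u (dc g)

theorem HC_eq (hW : IsOpen W) (hF : DifferentiableOn ℂ F W) (hi : InjOn F W)
    {f w u g : ℂ → ℂ} (hf : Ts W f) (hw : Ts W w) (hu : Ts W u) (hg : Ts W g) (β : ℂ) :
    (HC F f w u g β).re = EN F (fun z => f z + β * u z) (fun z => w z + β * g z) -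
      2 / Real.pi * (cj β * KK F f (dc g)).re + (1 - ‖β‖ ^ 2) * EN F u g := by
  rw [EN_add hW hF hi hf hw hu hg]
  unfold HC EN
  simp only [Complex.add_re, Complex.re_ofReal_mul, Complex.ofReal_re, mul_assoc]
  have e : (2 * (β * (ip u f + ip g w)) : ℂ).re = 2 * (β * (ip u f + ip g w)).re := by
    have : (2 : ℂ) = ((2 : ℝ) : ℂ) := by norm_num
    rw [this, Complex.re_ofReal_mul]
  rw [e]
  ring

theorem HC_ge (hW : IsOpen W) (hF : DifferentiableOn ℂ F W) (hi : InjOn F W)
    {f w u g : ℂ → ℂ} (hf : Ts W f) (hw : Ts W w) (hu : Ts W u) (hg : Ts W g) {β : ℂ} {x : ℝ}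
    (hβ : ‖β‖ ≤ 1) (hx : KK F f (dc g) = -(Real.pi ^ 2 * (x * β))) :
    2 * Real.pi * x * ‖β‖ ^ 2 ≤ (HC F f w u g β).re := by
  have hpi := Real.pi_pos
  rw [HC_eq hW hF hi hf hw hu hg, hx]
  have e : cj β * -((Real.pi : ℂ) ^ 2 * (x * β)) = ((-(Real.pi ^ 2 * x * ‖β‖ ^ 2) : ℝ) : ℂ) := by
    have : cj β * -((Real.pi : ℂ) ^ 2 * (x * β)) = -((Real.pi : ℂ) ^ 2 * x * (β * cj β)) := by ring
    rw [this, mul_cj_self]
    push_cast
    ring
  rw [e, Complex.ofReal_re]
  have h1 := EN_nonneg hW hF hi (hf.add hu β) (hw.add hg β)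
  have h2 := EN_nonneg hW hF hi hu hg
  have h3 : 0 ≤ (1 - ‖β‖ ^ 2) * EN F u g := by
    apply mul_nonneg _ h2
    have := pow_le_one₀ (norm_nonneg β) hβ (n := 2)
    linarith
  have h4 : 2 / Real.pi * -(Real.pi ^ 2 * x * ‖β‖ ^ 2) = -(2 * Real.pi * x * ‖β‖ ^ 2) := by
    field_simp
  linarith

theorem HC_zero (F f w u g : ℂ → ℂ) :
    (HC F f w u g 0).re = EN F f w + EN F u g := by
  unfold HC EN
  simp only [Complex.add_re, Complex.re_ofReal_mul, Complex.ofReal_re]
  simp
  ring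

end

end Pool.Agent.H20.JL
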