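import Mathlib
import Pool.Agent.H20.JL.HF

/-! # The energies of the identity -/

set_option autoImplicit false

open Topology Filter Metric Set MeasureTheory
open Pool.Agent.Split938 Pool.Agent.H713R2 Pool.Agent.H713R2.AR
open scoped ContDiff

namespace Pool.Agent.H20.JL

theorem CT_dbar {φ : ℂ → ℂ} (hφ : ContDiff ℝ ∞ φ) (hc : HasCompactSupport φ) (z : ℂ) :
    CT (dbar φ) z = Real.pi * φ z := by
  rw [← Pool.Agent.Helper366.IV.cauchy_pompeiu φ (hφ.of_le (by exact_mod_cast le_top)) hc z]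
  unfold CT dbar
  congr 1
  funext t
  ring

theorem Ts.univ {W : Set ℂ} {f : ℂ → ℂ} (h : Ts W f) : Ts Set.univ f :=
  ⟨h.sm, h.hc, subset_univ _⟩

theorem KK_id_left {χ w : ℂ → ℂ} (hχ : Ts univ χ) (hw : Ts univ w) :
    KK (fun z => z) (dbar χ) (dc w) = -(Real.pi * ∫ z, dz χ z * cj (w z)) := by
  have hd : Ts univ (dbar χ) := ⟨cdi_dbar hχ.sm, dbar_hcs hχ.hc, subset_univ _⟩
  rw [KK_iter (F := fun z => z) isOpen_univ differentiableOn_id (fun x _ y _ h => h) hd.sm.continuous hd.hc hd.ts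
    hw.dc.sm.continuous hw.dc.hc hw.dc.ts]
  have e1 : ∀ z : ℂ, ∫ y, dbar χ y * (deriv (fun z : ℂ => z) y / (z - y)) = Real.pi * χ z := by
    intro z
    rw [← CT_dbar hχ.sm hχ.hc, CT_eq]
    congr 1
    funext y
    rw [deriv_id'']
    ring
  have e2 : ∫ z, dc w z * ∫ y, dbar χ y * (deriv (fun z : ℂ => z) y / (z - y)) =
      Real.pi * ∫ z, χ z * dz (fun z => cj (w z)) z := by
    rw [← integral_const_mul]
    congr 1
    funext z
    rw [e1]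
    unfold dc
    ring
  rw [e2, parts_dz (hχ.sm.of_le (by exact_mod_cast le_top))
    ((cd_cj hw.sm).of_le (by exact_mod_cast le_top)) (hcs_cj hw.hc)]
  ring

theorem dc_dz {φ : ℂ → ℂ} (hφ : ContDiff ℝ ∞ φ) :
    dc (dz φ) = dbar (dz (fun z => cj (φ z))) := by
  funext z
  have hd : Differentiable ℝ φ := hφ.differentiable (by simp)
  have h1 : (fun z => cj (dz φ z)) = dbar (fun z => cj (φ z)) := by
    funext y
    exact (dbar_cj (hd y)).symm
  unfold dc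
  rw [h1]
  exact dz_dbar ((cd_cj hφ).of_le (WithTop.coe_le_coe.2 (le_top : ((2 : ℕ) : ℕ∞) ≤ ⊤))) z

theorem KK_id_right {u φ : ℂ → ℂ} (hu : Ts univ u) (hφ : Ts univ φ) :
    KK (fun z => z) u (dc (dz φ)) = -(Real.pi * ∫ z, u z * cj (dbar φ z)) := by
  have hd : Ts univ (dz φ) := ⟨cdi_dz hφ.sm, dz_hcs hφ.hc, subset_univ _⟩
  have hI := KK_int isOpen_univ (F := fun z => z) differentiableOn_id (fun x _ y _ h => h) hu hd.dc
  unfold KK
  rw [integral_prod_symm _ hI, ← integral_const_mul, ← integral_neg]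
  congr 1
  funext y
  have hφd : Differentiable ℝ φ := hφ.sm.differentiable (by simp)
  have e1 : CT (dc (dz φ)) y = Real.pi * cj (dbar φ y) := by
    rw [dc_dz hφ.sm, CT_dbar (cdi_dz (cd_cj hφ.sm)) (dz_hcs (hcs_cj hφ.hc)), dz_cj (hφd y)]
  rw [CT_eq] at e1
  have e2 : ∫ x, u y * dc (dz φ) x * (deriv (fun z : ℂ => z) y / (x - y)) =
      -(u y * ∫ x, dc (dz φ) x / (y - x)) := by
    rw [← integral_const_mul, ← integral_neg]
    congr 1
    funext x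
    rw [deriv_id'', ← neg_sub y x, one_div, inv_neg]
    ring
  simp only
  rw [e2, e1]
  ring

/-- a real cutoff -/
structure Ct (κ : ℂ → ℝ) (O : Set ℂ) : Prop where
  sm : ContDiff ℝ ∞ κ
  nn : ∀ z, 0 ≤ κ z
  le : ∀ z, κ z ≤ 1
  off : ∀ z, z ∉ O → κ z = 1
  mO : MeasurableSet O
  fin : volume O ≠ ⊤

theorem mulc {W O : Set ℂ} {κ : ℂ → ℝ} {f : ℂ → ℂ} (hκ : Ct κ O) (hf : Ts univ f)
    (hs : tsupport κ ⊆ W) : Ts W (fun z => (κ z : ℂ) * f z) := by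
  refine ⟨(Complex.ofRealCLM.contDiff.comp hκ.sm).mul hf.sm, hf.hc.mul_left, ?_⟩
  refine (closure_mono ?_).trans hs
  intro z hz h
  apply hz
  simp only [h, Complex.ofReal_zero, zero_mul]

theorem cut_energy {O : Set ℂ} {κ : ℂ → ℝ} {f g : ℂ → ℂ} (hκ : Ct κ O) (hf : Ts univ f)
    (hfg : sn g = sn f) {Bd : ℝ} (hB : ∀ z ∈ O, ‖f z‖ ≤ Bd) :
    sn g + sn (fun z => (κ z : ℂ) * f z) - 2 * ∫ z, κ z * ‖f z‖ ^ 2 ≤
      Bd ^ 2 * (volume O).toReal := by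
  have i1 : Integrable (fun z => ‖f z‖ ^ 2) := sq_int hf.sm.continuous hf.hc
  have hκc : Continuous κ := hκ.sm.continuous
  have i2 : Integrable (fun z => κ z * ‖f z‖ ^ 2) := by
    refine i1.bdd_mul (c := 1) hκc.aestronglyMeasurable (Eventually.of_forall fun z => ?_)
    rw [Real.norm_eq_abs, abs_of_nonneg (hκ.nn z)]
    exact hκ.le z
  have i3 : Integrable (fun z => κ z ^ 2 * ‖f z‖ ^ 2) := by
    refine i1.bdd_mul (c := 1) (hκc.pow 2).aestronglyMeasurable (Eventually.of_forall fun z => ?_)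
    rw [Real.norm_eq_abs, abs_of_nonneg (by positivity)]
    exact pow_le_one₀ (hκ.nn z) (hκ.le z)
  have e1 : sn (fun z => (κ z : ℂ) * f z) = ∫ z, κ z ^ 2 * ‖f z‖ ^ 2 := by
    unfold sn
    congr 1
    funext z
    rw [norm_mul, mul_pow, Complex.norm_real, Real.norm_eq_abs, sq_abs]
  have s3 := integral_sub' (i1.add i3) (i2.const_mul 2)
  rw [integral_add' i1 i3] at s3
  rw [hfg, e1, ← integral_const_mul]
  unfold sn
  rw [← s3]
  have e2 : ∀ z, ‖f z‖ ^ 2 + κ z ^ 2 * ‖f z‖ ^ 2 - 2 * (κ z * ‖f z‖ ^ 2) ≤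
      O.indicator (fun _ => Bd ^ 2) z := by
    intro z
    by_cases hz : z ∈ O
    · rw [indicator_of_mem hz]
      have h1 : ‖f z‖ ^ 2 ≤ Bd ^ 2 := pow_le_pow_left₀ (norm_nonneg _) (hB z hz) 2
      have h2 : (1 - κ z) ^ 2 ≤ 1 := pow_le_one₀ (by linarith [hκ.le z]) (by linarith [hκ.nn z])
      have h3 : (1 - κ z) ^ 2 * ‖f z‖ ^ 2 ≤ 1 * ‖f z‖ ^ 2 :=
        mul_le_mul_of_nonneg_right h2 (by positivity)
      nlinarith
    · rw [indicator_of_notMem hz, hκ.off z hz]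
      apply le_of_eq
      ring
  refine (integral_mono ((i1.add i3).sub (i2.const_mul 2)) ?_ e2).trans (le_of_eq ?_)
  · rw [integrable_indicator_iff hκ.mO]
    exact integrableOn_const hκ.fin
  · rw [integral_indicator hκ.mO, setIntegral_const, smul_eq_mul, Measure.real, mul_comm]

/-- the energy of the first pair -/
theorem EN_base1 {O : Set ℂ} {κ : ℂ → ℝ} {χ : ℂ → ℂ} (hκ : Ct κ O) (hχ : Ts univ χ) {Bd : ℝ}
    (hB : ∀ z ∈ O, ‖dz χ z‖ ≤ Bd) :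
    EN (fun z => z) (dbar χ) (fun z => (κ z : ℂ) * dz χ z) ≤ Bd ^ 2 * (volume O).toReal := by
  have hpi := Real.pi_pos
  have hd : Ts univ (dbar χ) := ⟨cdi_dbar hχ.sm, dbar_hcs hχ.hc, subset_univ _⟩
  have hz : Ts univ (dz χ) := ⟨cdi_dz hχ.sm, dz_hcs hχ.hc, subset_univ _⟩
  have hw := mulc (W := univ) hκ hz (subset_univ _)
  have h1 := cut_energy hκ hz (by
    unfold sn
    exact (energy (hχ.sm.of_le (WithTop.coe_le_coe.2 (le_top : ((2 : ℕ) : ℕ∞) ≤ ⊤))) hχ.hc).symm) hB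
  unfold EN
  rw [KK_id_left hχ hw]
  have e : (∫ z, dz χ z * cj ((κ z : ℂ) * dz χ z)) = ((∫ z, κ z * ‖dz χ z‖ ^ 2 : ℝ) : ℂ) := by
    rw [← integral_complex_ofReal]
    congr 1
    funext z
    have e3 : cj ((κ z : ℂ) * dz χ z) = (κ z : ℂ) * cj (dz χ z) := by simp
    rw [e3, Complex.ofReal_mul, ← mul_cj_self]
    ring
  rw [e, ← Complex.ofReal_mul, ← Complex.ofReal_neg, Complex.ofReal_re]
  have e2 : 2 / Real.pi * -(Real.pi * ∫ z, κ z * ‖dz χ z‖ ^ 2) =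
      -(2 * ∫ z, κ z * ‖dz χ z‖ ^ 2) := by
    field_simp
  linarith

/-- the energy of the second pairs -/
theorem EN_base2 {O : Set ℂ} {κ : ℂ → ℝ} {φ : ℂ → ℂ} (hκ : Ct κ O) (hφ : Ts univ φ) {Bd : ℝ}
    (hB : ∀ z ∈ O, ‖dbar φ z‖ ≤ Bd) :
    EN (fun z => z) (fun z => (κ z : ℂ) * dbar φ z) (dz φ) ≤ Bd ^ 2 * (volume O).toReal := by
  have hpi := Real.pi_pos
  have hd : Ts univ (dbar φ) := ⟨cdi_dbar hφ.sm, dbar_hcs hφ.hc, subset_univ _⟩
  have hz : Ts univ (dz φ) := ⟨cdi_dz hφ.sm, dz_hcs hφ.hc, subset_univ _⟩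
  have hw := mulc (W := univ) hκ hd (subset_univ _)
  have h1 := cut_energy hκ hd (by
    unfold sn
    exact energy (hφ.sm.of_le (WithTop.coe_le_coe.2 (le_top : ((2 : ℕ) : ℕ∞) ≤ ⊤))) hφ.hc) hB
  unfold EN
  rw [KK_id_right hw hφ]
  have e : (∫ z, ((κ z : ℂ) * dbar φ z) * cj (dbar φ z)) =
      ((∫ z, κ z * ‖dbar φ z‖ ^ 2 : ℝ) : ℂ) := by
    rw [← integral_complex_ofReal]
    congr 1
    funext z
    rw [Complex.ofReal_mul, ← mul_cj_self]
    ring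
  rw [e, ← Complex.ofReal_mul, ← Complex.ofReal_neg, Complex.ofReal_re]
  have e2 : 2 / Real.pi * -(Real.pi * ∫ z, κ z * ‖dbar φ z‖ ^ 2) =
      -(2 * ∫ z, κ z * ‖dbar φ z‖ ^ 2) := by
    field_simp
  linarith

end Pool.Agent.H20.JL
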