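import Mathlib
import Pool.Agent.H20.JL.Base

/-! # Existence of the test functions -/

set_option autoImplicit false

open Topology Filter Metric Set MeasureTheory
open Pool.Agent.Split938 Pool.Agent.H713R2 Pool.Agent.H713R2.AR
open scoped ContDiff Manifold

namespace Pool.Agent.H20.JL

theorem exists_cut {W : Set ℂ} (hW : IsOpen W) {R₀ a : ℝ} (hWR : ∀ z : ℂ, R₀ < ‖z‖ → z ∈ W)
    (hRa : R₀ < a) {η : ℝ} (hη : 0 < η) : ∃ (κ : ℂ → ℝ) (O : Set ℂ), Ct κ O ∧ tsupport κ ⊆ W ∧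
      O ⊆ ball 0 a ∧ (volume O).toReal ≤ (volume Wᶜ).toReal + η := by
  have hBb : Wᶜ ⊆ closedBall (0 : ℂ) R₀ := by
    intro z hz
    rw [mem_closedBall_zero_iff]
    by_contra h
    exact hz (hWR z (not_le.1 h))
  have hBc : IsCompact Wᶜ := (isCompact_closedBall (0 : ℂ) R₀).of_isClosed_subset
    hW.isClosed_compl hBb
  have hBf : volume Wᶜ ≠ ⊤ := hBc.measure_lt_top.ne
  have hlt : volume Wᶜ < volume Wᶜ + ENNReal.ofReal η :=
    ENNReal.lt_add_right hBf (ENNReal.ofReal_pos.2 hη).ne'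
  obtain ⟨U, hUB, hUo, hUv⟩ := Set.exists_isOpen_lt_of_lt Wᶜ _ hlt
  set O : Set ℂ := U ∩ ball 0 a with hO
  have hOo : IsOpen O := hUo.inter isOpen_ball
  have hBO : Wᶜ ⊆ O := subset_inter hUB (hBb.trans (closedBall_subset_ball hRa))
  have hOv : volume O < volume Wᶜ + ENNReal.ofReal η := (measure_mono inter_subset_left).trans_lt hUv
  obtain ⟨L, hL, hBL, hLO⟩ := exists_compact_between hBc hOo hBO
  have hdis : Disjoint L Oᶜ := by
    rw [Set.disjoint_compl_right_iff_subset]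
    exact hLO
  obtain ⟨κ, hκ, hκr, hκ0, hκ1⟩ := exists_contMDiff_zero_iff_one_iff_of_isClosed (n := ⊤) 𝓘(ℝ, ℂ)
    hL.isClosed hOo.isClosed_compl hdis
  refine ⟨κ, O, ⟨contMDiff_iff_contDiff.1 hκ, fun z => (hκr ⟨z, rfl⟩).1,
    fun z => (hκr ⟨z, rfl⟩).2, fun z hz => (hκ1 z).1 hz, hOo.measurableSet, ?_⟩, ?_,
    inter_subset_right, ?_⟩
  · exact (hOv.trans_le le_top).ne
  · have h1 : Function.support κ ⊆ Lᶜ := fun z hz hzL => hz ((hκ0 z).1 hzL)
    refine (closure_mono h1).trans ?_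
    rw [closure_compl]
    intro z hz
    by_contra hzW
    exact hz (hBL hzW)
  · have h2 : (volume Wᶜ + ENNReal.ofReal η) ≠ ⊤ := ENNReal.add_ne_top.2 ⟨hBf, ENNReal.ofReal_ne_top⟩
    have h3 := ENNReal.toReal_mono h2 hOv.le
    rwa [ENNReal.toReal_add hBf ENNReal.ofReal_ne_top, ENNReal.toReal_ofReal hη.le] at h3

theorem dz_chi_low {c e : ℝ} (hc : 0 < c) (hce : c < e) {z : ℂ} (hz : ‖z‖ < c) :
    dz (chi c e) z = 1 := by
  have h : chi c e =ᶠ[𝓝 z] fun z => z := by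
    filter_upwards [(isOpen_lt continuous_norm continuous_const).mem_nhds hz] with y hy
    unfold chi
    rw [rc_one hc hce (le_of_lt hy), mul_one]
  rw [dz_congr h]
  exact dz_of_hasDerivAt (hasDerivAt_id z)

theorem dbar_phj_low {a b : ℝ} (ha : 0 < a) (hab : a < b) (j : ℕ) {z : ℂ} (hz : ‖z‖ < a) :
    ‖dbar (phj a b j) z‖ ≤ j * a ^ (j - 1) := by
  have h : phj a b j =ᶠ[𝓝 z] fun z => cj (z ^ j) := by
    filter_upwards [(isOpen_lt continuous_norm continuous_const).mem_nhds hz] with y hy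
    unfold phj
    rw [rc_one ha hab (le_of_lt hy), mul_one]
    exact (map_pow _ _ _).symm
  rw [dbar_congr h, dbar_cj (differentiableAt_pow j), dz_of_hasDerivAt (hasDerivAt_pow j z)]
  rw [RCLike.norm_conj, norm_mul, norm_pow, Complex.norm_natCast]
  exact mul_le_mul_of_nonneg_left (pow_le_pow_left₀ (norm_nonneg _) hz.le _) (Nat.cast_nonneg _)

/-- The test functions. -/
theorem exists_tests {W : Set ℂ} (hW : IsOpen W) {R₀ a b c e : ℝ} (hR : 0 < R₀)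
    (hWR : ∀ z : ℂ, R₀ < ‖z‖ → z ∈ W) (hRa : R₀ < a) (hab : a < b) (hbc : b < c) (hce : c < e)
    {η : ℝ} (hη : 0 < η) : ∃ (w : ℂ → ℂ) (u : ℕ → ℂ → ℂ), Ts W w ∧ (∀ j, Ts W (u j)) ∧
      EN (fun z => z) (dbar (chi c e)) w ≤ (volume Wᶜ).toReal + η ∧
      ∀ j, EN (fun z => z) (u j) (dz (phj a b j)) ≤
        (j * a ^ (j - 1)) ^ 2 * ((volume Wᶜ).toReal + η) := by
  have ha : 0 < a := hR.trans hRa
  have hc : 0 < c := (ha.trans hab).trans hbc
  obtain ⟨κ, O, hκ, hs, hOa, hOv⟩ := exists_cut hW hWR hRa hη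
  have hχ : Ts univ (chi c e) := ⟨chi_smooth c e, chi_hcs hc hce, subset_univ _⟩
  have hφ : ∀ j, Ts univ (phj a b j) := fun j =>
    ⟨phj_smooth a b j, phj_hcs ha hab j, subset_univ _⟩
  refine ⟨fun z => (κ z : ℂ) * dz (chi c e) z, fun j z => (κ z : ℂ) * dbar (phj a b j) z,
    mulc hκ ⟨cdi_dz hχ.sm, dz_hcs hχ.hc, subset_univ _⟩ hs,
    fun j => mulc hκ ⟨cdi_dbar (hφ j).sm, dbar_hcs (hφ j).hc, subset_univ _⟩ hs, ?_, fun j => ?_⟩
  · have h1 := EN_base1 hκ hχ (Bd := 1) (fun z hz => by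
      have h2 := mem_ball_zero_iff.1 (hOa hz)
      rw [dz_chi_low hc hce (by linarith), norm_one])
    linarith
  · have h1 := EN_base2 hκ (hφ j) (Bd := j * a ^ (j - 1)) (fun z hz =>
      dbar_phj_low ha hab j (mem_ball_zero_iff.1 (hOa hz)))
    exact h1.trans (mul_le_mul_of_nonneg_left hOv (by positivity))

end Pool.Agent.H20.JL
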