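import Mathlib
import Pool.Agent.H20.JL.Cutoff

/-! # The functional on conformal maps -/

set_option autoImplicit false

open Topology Filter Metric Set MeasureTheory
open Pool.Agent.Split938 Pool.Agent.H713R2 Pool.Agent.H713R2.AR
open scoped ContDiff

namespace Pool.Agent.H20.JL

/-- normalized coefficients -/
noncomputable def bet (a b c e ε : ℝ) (Ψ : ℂ → ℂ) (j : ℕ) : ℂ :=
  -(KK Ψ (dbar (chi c e)) (dc (dz (phj a b j)))) / ((Real.pi : ℂ) ^ 2 * (((j * ε : ℝ)) : ℂ))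

/-- the functional -/
noncomputable def FN (a b c e ε : ℝ) (m : ℕ) (w : ℂ → ℂ) (u : ℕ → ℂ → ℂ) (Ψ : ℂ → ℂ) : ℂ :=
  ∑ j ∈ Finset.Icc 1 m, HC Ψ (dbar (chi c e)) w (u j) (dz (phj a b j)) (bet a b c e ε Ψ j)

section
variable {W : Set ℂ} {a b c e ε : ℝ} {m : ℕ} {w : ℂ → ℂ} {u : ℕ → ℂ → ℂ}

theorem Ts_f (hWa : ∀ z : ℂ, a ≤ ‖z‖ → z ∈ W) (ha : 0 < a) (hab : a < b) (hbc : b < c)
    (hce : c < e) : Ts W (dbar (chi c e)) :=
  ⟨cdi_dbar (chi_smooth c e), dbar_hcs (chi_hcs ((ha.trans hab).trans hbc) hce),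
    fun z hz => hWa z (by have := (supp_chi ((ha.trans hab).trans hbc) hce hz).1; linarith)⟩

theorem Ts_g (hWa : ∀ z : ℂ, a ≤ ‖z‖ → z ∈ W) (ha : 0 < a) (hab : a < b) (j : ℕ) :
    Ts W (dz (phj a b j)) :=
  ⟨cdi_dz (phj_smooth a b j), dz_hcs (phj_hcs ha hab j),
    fun z hz => hWa z ((supp_phj ha hab j hz).1)⟩

theorem bet_KK (hε : 0 < ε) (Ψ : ℂ → ℂ) {j : ℕ} (hj : 1 ≤ j) :
    KK Ψ (dbar (chi c e)) (dc (dz (phj a b j))) =
      -((Real.pi : ℂ) ^ 2 * (((j * ε : ℝ) : ℂ) * bet a b c e ε Ψ j)) := by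
  have h1 : ((j * ε : ℝ) : ℂ) ≠ 0 := by
    have : (0 : ℝ) < j := by exact_mod_cast hj
    exact_mod_cast (mul_pos this hε).ne'
  have h2 : (Real.pi : ℂ) ≠ 0 := by exact_mod_cast Real.pi_ne_zero
  unfold bet
  field_simp

theorem bet_eq (hW : IsOpen W) {Ψ : ℂ → ℂ} (hΨ : DifferentiableOn ℂ Ψ W) (hi : InjOn Ψ W)
    {G : ℂ → ℂ} {s : ℝ} (hG : Inf Ψ s G) (hWs : ∀ z : ℂ, s⁻¹ < ‖z‖ → z ∈ W) (has : s⁻¹ < a)
    (hab : a < b) (hbc : b < c) (hce : c < e) (hε : 0 < ε) {j : ℕ} (hj : 1 ≤ j) :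
    bet a b c e ε Ψ j = tc G (j + 1) / ε := by
  have h := KK_coef hW hΨ hi hG hWs has hab hbc hce j
  have h0 : (j : ℂ) ≠ 0 := by exact_mod_cast (by omega : j ≠ 0)
  have h1 : (ε : ℂ) ≠ 0 := by exact_mod_cast hε.ne'
  have h2 : (Real.pi : ℂ) ≠ 0 := by exact_mod_cast Real.pi_ne_zero
  unfold bet dc
  rw [h]
  push_cast
  field_simp

theorem FN_ge (hW : IsOpen W) {Ψ : ℂ → ℂ} (hΨ : DifferentiableOn ℂ Ψ W) (hi : InjOn Ψ W)
    (hWa : ∀ z : ℂ, a ≤ ‖z‖ → z ∈ W) (ha : 0 < a) (hab : a < b) (hbc : b < c)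
    (hce : c < e) (hε : 0 < ε) (hw : Ts W w) (hu : ∀ j, Ts W (u j))
    (hβ : ∀ j ∈ Finset.Icc 1 m, ‖bet a b c e ε Ψ j‖ ≤ 1) :
    0 ≤ (FN a b c e ε m w u Ψ).re ∧ ∀ i ∈ Finset.Icc 1 m,
      2 * Real.pi * ε * ‖bet a b c e ε Ψ i‖ ^ 2 ≤ (FN a b c e ε m w u Ψ).re := by
  have hpi := Real.pi_pos
  have hf := Ts_f hWa ha hab hbc hce
  have hg := Ts_g hWa ha hab
  have key : ∀ j ∈ Finset.Icc 1 m, 2 * Real.pi * (j * ε) * ‖bet a b c e ε Ψ j‖ ^ 2 ≤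
      (HC Ψ (dbar (chi c e)) w (u j) (dz (phj a b j)) (bet a b c e ε Ψ j)).re := by
    intro j hj
    exact HC_ge hW hΨ hi hf hw (hu j) (hg j) (hβ j hj)
      (bet_KK hε Ψ (Finset.mem_Icc.1 hj).1)
  have hnn : ∀ j ∈ Finset.Icc 1 m,
      0 ≤ (HC Ψ (dbar (chi c e)) w (u j) (dz (phj a b j)) (bet a b c e ε Ψ j)).re := by
    intro j hj
    exact (by positivity : 0 ≤ 2 * Real.pi * (j * ε) * ‖bet a b c e ε Ψ j‖ ^ 2).trans (key j hj)
  unfold FN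
  rw [Complex.re_sum]
  refine ⟨Finset.sum_nonneg hnn, fun i hi' => ?_⟩
  refine le_trans ?_ (Finset.single_le_sum hnn hi')
  refine le_trans ?_ (key i hi')
  have h1 : (1 : ℝ) ≤ i := by exact_mod_cast (Finset.mem_Icc.1 hi').1
  have h2 : 0 ≤ 2 * Real.pi * ‖bet a b c e ε Ψ i‖ ^ 2 * ε := by positivity
  nlinarith

theorem bet_id (ha : 0 < a) (hab : a < b) (hbc : b < c) (hce : c < e) (hε : 0 < ε) {j : ℕ}
    (hj : 1 ≤ j) : bet a b c e ε (fun z => z) j = 0 := by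
  have hs : ((2 / a : ℝ))⁻¹ < a := by
    rw [inv_div]
    linarith
  have hG : Inf (fun z => z) (2 / a) (fun _ => 1) :=
    ⟨by positivity, differentiableOn_const _, rfl, by simp, fun t ht _ => by field_simp⟩
  rw [bet_eq (Ψ := fun z => z) isOpen_univ (W := univ) differentiableOn_id (fun _ _ _ _ h => h) hG
    (fun _ _ => mem_univ _) hs hab hbc hce hε hj]
  have : tc (fun _ : ℂ => (1 : ℂ)) (j + 1) = 0 := by
    unfold tc
    rw [iteratedDeriv_const]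
    simp
  rw [this, zero_div]

/-- the constant in the base estimate -/
noncomputable def C0 (a : ℝ) (m : ℕ) : ℝ := ∑ j ∈ Finset.Icc 1 m, (1 + (j * a ^ (j - 1)) ^ 2)

theorem FN_base (ha : 0 < a) (hab : a < b) (hbc : b < c) (hce : c < e) (hε : 0 < ε) {V : ℝ}
    (h1 : EN (fun z => z) (dbar (chi c e)) w ≤ V)
    (h2 : ∀ j, EN (fun z => z) (u j) (dz (phj a b j)) ≤ (j * a ^ (j - 1)) ^ 2 * V) :
    (FN a b c e ε m w u (fun z => z)).re ≤ C0 a m * V := by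
  unfold FN C0
  rw [Complex.re_sum, Finset.sum_mul]
  apply Finset.sum_le_sum
  intro j hj
  rw [bet_id ha hab hbc hce hε (Finset.mem_Icc.1 hj).1, HC_zero]
  have := h2 j
  linarith

theorem bet_holo {U : Set ℂ} (hU : IsOpen U) (hW : IsOpen W) {F : ℂ → ℂ → ℂ}
    (hF : ∀ t ∈ U, DifferentiableOn ℂ (F t) W) (hi : ∀ t ∈ U, InjOn (F t) W)
    (hz : ∀ z ∈ W, DifferentiableOn ℂ (fun t => F t z) U)
    (hlim : ∀ t₀ ∈ U, TendstoLocallyUniformlyOn F (F t₀) (𝓝 t₀) W)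
    (hWa : ∀ z : ℂ, a ≤ ‖z‖ → z ∈ W) (ha : 0 < a) (hab : a < b) (hbc : b < c)
    (hce : c < e) (j : ℕ) : DifferentiableOn ℂ (fun t => bet a b c e ε (F t) j) U := by
  have hf := Ts_f hWa ha hab hbc hce
  have hg := (Ts_g hWa ha hab j).dc
  unfold bet
  exact ((KK_holo hU hW hF hi hz hlim hf.sm.continuous hf.hc hf.ts hg.sm.continuous hg.hc
    hg.ts).neg).div_const _

theorem FN_holo {U : Set ℂ} (hU : IsOpen U) (hW : IsOpen W) {F : ℂ → ℂ → ℂ}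
    (hF : ∀ t ∈ U, DifferentiableOn ℂ (F t) W) (hi : ∀ t ∈ U, InjOn (F t) W)
    (hz : ∀ z ∈ W, DifferentiableOn ℂ (fun t => F t z) U)
    (hlim : ∀ t₀ ∈ U, TendstoLocallyUniformlyOn F (F t₀) (𝓝 t₀) W)
    (hWa : ∀ z : ℂ, a ≤ ‖z‖ → z ∈ W) (ha : 0 < a) (hab : a < b) (hbc : b < c)
    (hce : c < e) (hw : Ts W w) (hu : ∀ j, Ts W (u j)) :
    DifferentiableOn ℂ (fun t => FN a b c e ε m w u (F t)) U := by
  have hf := Ts_f hWa ha hab hbc hce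
  have hK : ∀ {v om : ℂ → ℂ}, Ts W v → Ts W om → DifferentiableOn ℂ (fun t => KK (F t) v om) U :=
    fun hv ho => KK_holo hU hW hF hi hz hlim hv.sm.continuous hv.hc hv.ts ho.sm.continuous ho.hc
      ho.ts
  unfold FN
  apply DifferentiableOn.fun_sum
  intro j _
  have hg := Ts_g hWa ha hab j
  have hb := bet_holo (ε := ε) hU hW hF hi hz hlim hWa ha hab hbc hce j
  unfold HC
  exact ((((differentiableOn_const _).add ((hK hf hw.dc).const_mul _)).add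
    ((hb.const_mul _).mul_const _)).add ((hb.mul (hK (hu j) hw.dc)).const_mul _)).add
    ((hK (hu j) hg.dc).const_mul _)

theorem bet_tendsto {ι : Type} {l : Filter ι} (hW : IsOpen W) {F : ι → ℂ → ℂ} {Ψ : ℂ → ℂ}
    (hF : ∀ᶠ i in l, DifferentiableOn ℂ (F i) W) (hFi : ∀ᶠ i in l, InjOn (F i) W)
    (hΨ : DifferentiableOn ℂ Ψ W) (hΨi : InjOn Ψ W) (hlim : TendstoLocallyUniformlyOn F Ψ l W)
    (hWa : ∀ z : ℂ, a ≤ ‖z‖ → z ∈ W) (ha : 0 < a) (hab : a < b) (hbc : b < c)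
    (hce : c < e) (j : ℕ) :
    Tendsto (fun i => bet a b c e ε (F i) j) l (𝓝 (bet a b c e ε Ψ j)) := by
  have hf := Ts_f hWa ha hab hbc hce
  have hg := (Ts_g hWa ha hab j).dc
  unfold bet
  exact ((KK_tendsto hW hF hFi hΨ hΨi hlim hf.sm.continuous hf.hc hf.ts hg.sm.continuous hg.hc
    hg.ts).neg).div_const _

theorem FN_tendsto {ι : Type} {l : Filter ι} (hW : IsOpen W) {F : ι → ℂ → ℂ} {Ψ : ℂ → ℂ}
    (hF : ∀ᶠ i in l, DifferentiableOn ℂ (F i) W) (hFi : ∀ᶠ i in l, InjOn (F i) W)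
    (hΨ : DifferentiableOn ℂ Ψ W) (hΨi : InjOn Ψ W) (hlim : TendstoLocallyUniformlyOn F Ψ l W)
    (hWa : ∀ z : ℂ, a ≤ ‖z‖ → z ∈ W) (ha : 0 < a) (hab : a < b) (hbc : b < c)
    (hce : c < e) (hw : Ts W w) (hu : ∀ j, Ts W (u j)) :
    Tendsto (fun i => FN a b c e ε m w u (F i)) l (𝓝 (FN a b c e ε m w u Ψ)) := by
  have hf := Ts_f hWa ha hab hbc hce
  have hK : ∀ {v om : ℂ → ℂ}, Ts W v → Ts W om →
      Tendsto (fun i => KK (F i) v om) l (𝓝 (KK Ψ v om)) :=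
    fun hv ho => KK_tendsto hW hF hFi hΨ hΨi hlim hv.sm.continuous hv.hc hv.ts ho.sm.continuous
      ho.hc ho.ts
  unfold FN
  apply tendsto_finsetSum
  intro j _
  have hg := Ts_g hWa ha hab j
  have hb := bet_tendsto (ε := ε) hW hF hFi hΨ hΨi hlim hWa ha hab hbc hce j
  unfold HC
  exact ((((tendsto_const_nhds).add ((hK hf hw.dc).const_mul _)).add
    ((hb.const_mul _).mul_const _)).add ((hb.mul (hK (hu j) hw.dc)).const_mul _)).add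
    ((hK (hu j) hg.dc).const_mul _)

end

end Pool.Agent.H20.JL
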