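import Mathlib
import Pool.Agent.H20.JL.Hol
import Pool.Graph.R_seed8.H713R5.QJ.TMINA

/-! # The mean value contradiction at a minimum -/

set_option autoImplicit false

open Topology Filter Metric Set MeasureTheory
open Pool.Agent.H713R3.ZA Pool.Agent.H713R5.QJ

namespace Pool.Agent.H20.JL

theorem circ_re {ρ r : ℝ} {h : ℂ → ℂ} (hr : 0 < r) (hρ : r < ρ)
    (hd : DifferentiableOn ℂ h (ball (0 : ℂ) ρ)) :
    ∫ θ in (0 : ℝ)..(2 * Real.pi), (h (circleMap 0 r θ)).re = 2 * Real.pi * (h 0).re := by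
  have h1 := circ_mean hr hρ hd
  have hc := circ_cont hr hρ hd.continuousOn
  have h2 : ∫ θ in (0 : ℝ)..(2 * Real.pi), (h (circleMap 0 r θ)).re =
      (∫ θ in (0 : ℝ)..(2 * Real.pi), h (circleMap 0 r θ)).re := by
    have h3 := Complex.reCLM.intervalIntegral_comp_comm (μ := volume) (a := 0) (b := 2 * Real.pi)
      (f := fun θ : ℝ => h (circleMap 0 r θ)) (hc.intervalIntegrable _ _)
    exact h3
  rw [h2, h1]
  have : (2 * Real.pi * h 0 : ℂ) = ((2 * Real.pi : ℝ) : ℂ) * h 0 := by push_cast; ring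
  rw [this, Complex.re_ofReal_mul]

theorem min_contra {V J : Type} [NormedAddCommGroup V] [NormedSpace ℂ V] [Fintype J]
    {cf : J → V → ℂ} (hcf : ∀ j, Differentiable ℂ (cf j)) {AN : V → ℝ} {S : Set (V × (ℂ → ℂ))}
    {f : V → ℂ} {Q : (ℂ → ℂ) → ℂ} {c₀ δ : ℝ} (hc₀ : 0 < c₀) {x : V} {Ψ : ℂ → ℂ}
    (hmin : ∀ (y : V) (Φ : ℂ → ℂ), (y, Φ) ∈ S →
      AN x + ((Q Ψ).re - δ * Real.log ‖f x‖) ≤ AN y + ((Q Φ).re - δ * Real.log ‖f y‖))
    {r₀ : ℝ} {γ : ℂ → V} {Ψt : ℂ → ℂ → ℂ} (hr₀ : 0 < r₀) (hγ0 : γ 0 = x)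
    (hγd : DifferentiableOn ℂ γ (ball 0 r₀)) (hγS : ∀ t ∈ ball (0 : ℂ) r₀, (γ t, Ψt t) ∈ S)
    (hQ0 : Q (Ψt 0) = Q Ψ) (hfd : DifferentiableOn ℂ (fun t => f (γ t)) (ball 0 r₀))
    (hfne : ∀ t ∈ ball (0 : ℂ) r₀, f (γ t) ≠ 0)
    (hQd : DifferentiableOn ℂ (fun t => Q (Ψt t)) (ball 0 r₀))
    (hj : ∃ j, deriv (fun t => cf j (γ t)) 0 ≠ 0)
    (hγs : ∀ r : ℝ, 0 < r → r < r₀ → ∀ η : ℝ, 0 < η → ∀ q : ℝ → ℝ, Continuous q →
      ∃ θ : ℝ, AN (γ (circleMap 0 r θ)) + q θ <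
        AN (γ 0) + η + (2 * Real.pi)⁻¹ * ∫ θ in (0 : ℝ)..(2 * Real.pi),
          (q θ - c₀ * ∑ j, ‖cf j (γ (circleMap 0 r θ)) - cf j (γ 0)‖ ^ 2)) : False := by
  have hpi := Real.pi_pos
  obtain ⟨j, hj⟩ := hj
  set r : ℝ := r₀ / 2 with hr
  have hr0 : 0 < r := by positivity
  have hrr : r < r₀ := by linarith
  have hdj : 0 < ‖deriv (fun t => cf j (γ t)) 0‖ := norm_pos_iff.mpr hj
  set gain : ℝ := c₀ * (r ^ 2 * ‖deriv (fun t => cf j (γ t)) 0‖ ^ 2) with hgain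
  have hgain0 : 0 < gain := by positivity
  have hγc := circ_cont hr0 hrr hγd.continuousOn
  have hlogc : Continuous (fun θ : ℝ => Real.log ‖f (γ (circleMap 0 r θ))‖) := by
    have h1 := circ_cont hr0 hrr hfd.continuousOn
    exact h1.norm.log (fun θ => (norm_pos_iff.mpr (hfne _ (circ_mem hr0 hrr θ))).ne')
  have hQc : Continuous (fun θ : ℝ => (Q (Ψt (circleMap 0 r θ))).re) :=
    Complex.continuous_re.comp (circ_cont hr0 hrr hQd.continuousOn)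
  have hDlγ : Continuous (fun θ : ℝ => ∑ j, ‖cf j (γ (circleMap 0 r θ)) - cf j (γ 0)‖ ^ 2) :=
    continuous_finsetSum _ fun j _ =>
      ((((hcf j).continuous).comp hγc).sub continuous_const).norm.pow 2
  set q : ℝ → ℝ := fun θ => (Q (Ψt (circleMap 0 r θ))).re -
    δ * Real.log ‖f (γ (circleMap 0 r θ))‖ with hq
  have hqc : Continuous q := hQc.sub (continuous_const.mul hlogc)
  obtain ⟨θ, hθ⟩ := hγs r hr0 hrr (gain / 2) (by positivity) q hqc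
  have hθm := circ_mem hr0 hrr θ
  have hge := hmin _ _ (hγS _ hθm)
  set J' : ℝ := ∫ θ in (0 : ℝ)..(2 * Real.pi),
    ∑ j, ‖cf j (γ (circleMap 0 r θ)) - cf j (γ 0)‖ ^ 2 with hJ
  have hint : ∫ θ in (0 : ℝ)..(2 * Real.pi), (q θ - c₀ * ∑ j, ‖cf j (γ (circleMap 0 r θ)) -
      cf j (γ 0)‖ ^ 2) =
      2 * Real.pi * (Q Ψ).re - δ * (2 * Real.pi * Real.log ‖f x‖) - c₀ * J' := by
    have i1 : IntervalIntegrable q volume 0 (2 * Real.pi) := hqc.intervalIntegrable _ _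
    have i2 : IntervalIntegrable (fun θ : ℝ => c₀ * ∑ j, ‖cf j (γ (circleMap 0 r θ)) -
        cf j (γ 0)‖ ^ 2) volume 0 (2 * Real.pi) :=
      (continuous_const.mul hDlγ).intervalIntegrable _ _
    have i3 : IntervalIntegrable (fun θ : ℝ => (Q (Ψt (circleMap 0 r θ))).re)
        volume 0 (2 * Real.pi) := hQc.intervalIntegrable _ _
    have i4 : IntervalIntegrable (fun θ : ℝ => δ * Real.log ‖f (γ (circleMap 0 r θ))‖)
        volume 0 (2 * Real.pi) := (continuous_const.mul hlogc).intervalIntegrable _ _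
    rw [intervalIntegral.integral_sub i1 i2, intervalIntegral.integral_const_mul]
    simp only [hq]
    rw [intervalIntegral.integral_sub i3 i4, intervalIntegral.integral_const_mul,
      circ_re hr0 hrr hQd, circ_log hr0 hrr hfd hfne, hJ, hγ0, hQ0]
  have hJge : 2 * Real.pi * (r ^ 2 * ‖deriv (fun t => cf j (γ t)) 0‖ ^ 2) ≤ J' :=
    MINA_circ_ge hcf hr0 hrr hγd j
  rw [hint, hγ0] at hθ
  have h1 : (2 * Real.pi)⁻¹ * (2 * Real.pi * (Q Ψ).re - δ * (2 * Real.pi * Real.log ‖f x‖) -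
      c₀ * J') = (Q Ψ).re - δ * Real.log ‖f x‖ - c₀ * ((2 * Real.pi)⁻¹ * J') := by
    field_simp
  have h2 : gain ≤ c₀ * ((2 * Real.pi)⁻¹ * J') := by
    rw [hgain]
    apply mul_le_mul_of_nonneg_left _ hc₀.le
    rw [inv_mul_eq_div, le_div_iff₀ (by positivity), mul_comm]
    exact hJge
  rw [h1] at hθ
  simp only [hq] at hθ
  linarith

theorem exists_min {T₀ : Type} {S : Set T₀} {E : T₀ → ℝ} (hne : S.Nonempty)
    (hbdd : BddBelow (E '' S))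
    (hcpt : ∀ σs : ℕ → T₀, (∀ k, σs k ∈ S) →
      Tendsto (fun k => E (σs k)) atTop (𝓝 (sInf (E '' S))) →
      ∃ σ ∈ S, E σ ≤ sInf (E '' S)) : ∃ σ ∈ S, ∀ σ' ∈ S, E σ ≤ E σ' := by
  obtain ⟨u, -, hu, huS⟩ := exists_seq_tendsto_sInf (hne.image E) hbdd
  choose σs hσs hσE using huS
  obtain ⟨σ, hσ, hσ'⟩ := hcpt σs hσs (by
    have : (fun k => E (σs k)) = u := funext hσE
    rw [this]; exact hu)
  exact ⟨σ, hσ, fun σ' h => hσ'.trans (csInf_le hbdd (mem_image_of_mem E h))⟩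

end Pool.Agent.H20.JL
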