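import Mathlib
import Pool.Agent.H20.JL.Func
import Pool.Agent.H20.JL.MinC

/-! # Auxiliary lemmas on the functional -/

set_option autoImplicit false

open Topology Filter Metric Set MeasureTheory
open Pool.Agent.Split938 Pool.Agent.H713R2 Pool.Agent.H713R2.AR
open scoped ContDiff

namespace Pool.Agent.H20.JL

theorem exists_Inf {F : ℂ → ℂ} {R : ℝ} (hR : 0 < R)
    (hF : DifferentiableOn ℂ F {z : ℂ | R < ‖z‖})
    (hlim : Tendsto (fun z : ℂ => F z - z) (Bornology.cobounded ℂ) (𝓝 0)) :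
    ∃ G : ℂ → ℂ, Inf F R⁻¹ G := by
  classical
  set G : ℂ → ℂ := fun t => if t = 0 then 1 else t * F t⁻¹ with hG
  have hGne : ∀ t : ℂ, t ≠ 0 → G t = t * F t⁻¹ := fun t ht => if_neg ht
  have hG0 : G 0 = 1 := if_pos rfl
  have hder : HasDerivAt G 0 0 := by
    rw [hasDerivAt_iff_tendsto_slope]
    have h1 : Tendsto (fun t : ℂ => F t⁻¹ - t⁻¹) (𝓝[≠] 0) (𝓝 0) :=
      hlim.comp Filter.tendsto_inv₀_nhdsNE_zero
    refine h1.congr' ?_
    filter_upwards [self_mem_nhdsWithin] with t ht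
    have ht' : t ≠ 0 := ht
    rw [slope_def_field, hGne t ht', hG0]
    field_simp
    ring
  refine ⟨G, inv_pos.2 hR, ?_, hG0, hder.deriv, fun t ht _ => hGne t ht⟩
  intro t ht
  by_cases h0 : t = 0
  · rw [h0]
    exact hder.differentiableAt.differentiableWithinAt
  · have h1 : R < ‖t⁻¹‖ := by
      rw [norm_inv]
      rw [mem_ball_zero_iff] at ht
      exact lt_inv_of_lt_inv₀ (norm_pos_iff.2 h0) ht
    have hop : IsOpen {z : ℂ | R < ‖z‖} := isOpen_lt continuous_const continuous_norm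
    have h2 : DifferentiableAt ℂ F t⁻¹ := hF.differentiableAt (hop.mem_nhds h1)
    have h3 : DifferentiableAt ℂ (fun t : ℂ => t * F t⁻¹) t :=
      differentiableAt_id.mul (h2.comp t (differentiableAt_inv h0))
    have h4 : G =ᶠ[𝓝 t] fun t : ℂ => t * F t⁻¹ := by
      filter_upwards [isOpen_ne.mem_nhds h0] with y hy
      exact hGne y hy
    exact (h3.congr_of_eventuallyEq h4).differentiableWithinAt

theorem Inf.congr {F F' G : ℂ → ℂ} {s s' : ℝ} (h : Inf F s G) (hs' : 0 < s') (hs : s' ≤ s)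
    (hF : ∀ z : ℂ, s'⁻¹ < ‖z‖ → F' z = F z) : Inf F' s' G := by
  refine ⟨hs', h.hol.mono (ball_subset_ball hs), h.zero, h.one, ?_⟩
  intro t ht hts
  rw [h.eq t ht (hts.trans_le hs), hF]
  rw [norm_inv]
  exact (inv_lt_inv₀ hs' (norm_pos_iff.2 ht)).2 hts

theorem KK_congr {W : Set ℂ} (hW : IsOpen W) {F F' v om : ℂ → ℂ} (h : ∀ z ∈ W, F z = F' z)
    (hv : Ts W v) (ho : Ts W om) : KK F v om = KK F' v om := by
  unfold KK
  congr 1
  funext p
  by_cases h1 : v p.2 = 0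
  · rw [h1]; simp
  by_cases h2 : om p.1 = 0
  · rw [h2]; simp
  have w2 : p.2 ∈ W := hv.ts (subset_tsupport _ h1)
  have w1 : p.1 ∈ W := ho.ts (subset_tsupport _ h2)
  have hd : deriv F p.2 = deriv F' p.2 := by
    apply Filter.EventuallyEq.deriv_eq
    filter_upwards [hW.mem_nhds w2] with y hy
    exact h y hy
  rw [hd, h _ w1, h _ w2]

section
variable {W : Set ℂ} {a b c e ε : ℝ} {m : ℕ} {w : ℂ → ℂ} {u : ℕ → ℂ → ℂ} {F F' : ℂ → ℂ}

theorem bet_congr (hW : IsOpen W) (h : ∀ z ∈ W, F z = F' z)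
    (hWa : ∀ z : ℂ, a ≤ ‖z‖ → z ∈ W) (ha : 0 < a) (hab : a < b) (hbc : b < c)
    (hce : c < e) (j : ℕ) : bet a b c e ε F j = bet a b c e ε F' j := by
  unfold bet
  rw [KK_congr hW h (Ts_f hWa ha hab hbc hce) (Ts_g hWa ha hab j).dc]

theorem FN_congr (hW : IsOpen W) (h : ∀ z ∈ W, F z = F' z)
    (hWa : ∀ z : ℂ, a ≤ ‖z‖ → z ∈ W) (ha : 0 < a) (hab : a < b) (hbc : b < c)
    (hce : c < e) (hw : Ts W w) (hu : ∀ j, Ts W (u j)) :
    FN a b c e ε m w u F = FN a b c e ε m w u F' := by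
  unfold FN HC
  apply Finset.sum_congr rfl
  intro j _
  rw [bet_congr hW h hWa ha hab hbc hce j, KK_congr hW h (Ts_f hWa ha hab hbc hce) hw.dc,
    KK_congr hW h (hu j) hw.dc, KK_congr hW h (hu j) (Ts_g hWa ha hab j).dc]

end

end Pool.Agent.H20.JL
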