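import Mathlib
import Pool.Agent.H20.JL.Hol

/-! # Extension of a holomorphic motion over finitely many points -/

set_option autoImplicit false

open Topology Filter Metric Set MeasureTheory
open scoped ContDiff

namespace Pool.Agent.H20.JL

theorem good_radius {W WB : Set ℂ} (hW : IsOpen W) (hfin : (W \ WB).Finite) {z₁ : ℂ}
    (hz₁ : z₁ ∈ W) : ∃ r : ℝ, 0 < r ∧ closedBall z₁ r ⊆ W ∧ sphere z₁ r ⊆ WB := by
  obtain ⟨s, hs, hsW⟩ := Metric.isOpen_iff.1 hW z₁ hz₁
  have h1 : ((W \ WB) \ {z₁})ᶜ ∈ 𝓝 z₁ :=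
    (hfin.subset sdiff_subset).isClosed.isOpen_compl.mem_nhds (fun h => h.2 rfl)
  obtain ⟨s', hs', hsub⟩ := Metric.mem_nhds_iff.1 h1
  have hr : 0 < min s s' / 2 := by positivity
  have hc : closedBall z₁ (min s s' / 2) ⊆ W := by
    refine (closedBall_subset_ball ?_).trans hsW
    have := min_le_left s s'
    have := lt_min hs hs'
    linarith
  refine ⟨min s s' / 2, hr, hc, ?_⟩
  intro z hz
  by_contra hzB
  have hz' : dist z z₁ = min s s' / 2 := hz
  have hzW : z ∈ W := hc (sphere_subset_closedBall hz)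
  have hne : z ≠ z₁ := by
    intro h
    rw [h, dist_self] at hz'
    linarith
  refine hsub (show z ∈ ball z₁ s' from ?_) ⟨⟨hzW, hzB⟩, hne⟩
  rw [mem_ball, hz']
  have := min_le_right s s'
  have := lt_min hs hs'
  linarith

theorem fill {U W WB : Set ℂ} (hU : IsOpen U) (hW : IsOpen W)
    (hfin : (W \ WB).Finite) {M Φ : ℂ → ℂ → ℂ} (hM : ∀ t ∈ U, DifferentiableOn ℂ (M t) W)
    (hΦ : DifferentiableOn ℂ (fun p : ℂ × ℂ => Φ p.1 p.2) (U ×ˢ WB))
    (hMΦ : ∀ t ∈ U, ∀ z ∈ WB, M t z = Φ t z) :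
    (∀ z ∈ W, DifferentiableOn ℂ (fun t => M t z) U) ∧
      ∀ t₀ ∈ U, TendstoLocallyUniformlyOn M (M t₀) (𝓝 t₀) W := by
  have hunif : ∀ t₀ ∈ U, ∀ z₁ : ℂ, ∀ r : ℝ, sphere z₁ r ⊆ WB → ∀ ε : ℝ, 0 < ε →
      ∀ᶠ t in 𝓝 t₀, ∀ z ∈ sphere z₁ r, ‖M t z - M t₀ z‖ < ε := by
    intro t₀ ht₀ z₁ r hr ε hε
    obtain ⟨v, hv, hv'⟩ := (isCompact_sphere z₁ r).mem_uniformity_of_prod (f := Φ) (s := U)
      (q := t₀) (u := {p : ℂ × ℂ | dist p.1 p.2 < ε})
      (hΦ.continuousOn.mono (prod_mono (subset_refl _) hr)) ht₀ (Metric.dist_mem_uniformity hε)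
    rw [hU.nhdsWithin_eq ht₀] at hv
    filter_upwards [hv, hU.mem_nhds ht₀] with t ht htU z hz
    have h1 : dist (Φ t z) (Φ t₀ z) < ε := hv' t ht z hz
    rw [hMΦ t htU z (hr hz), hMΦ t₀ ht₀ z (hr hz), ← dist_eq_norm]
    exact h1
  constructor
  · intro z₁ hz₁
    obtain ⟨r, hr, hrW, hrB⟩ := good_radius hW hfin hz₁
    have hmem : ∀ θ : ℝ, circleMap z₁ r θ ∈ WB := fun θ =>
      hrB (circleMap_mem_sphere z₁ hr.le θ)
    have h1 : ∀ t ∈ U, M t z₁ = ∫ θ in Ioc (0 : ℝ) (2 * Real.pi),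
        ((2 * Real.pi : ℝ) : ℂ)⁻¹ * Φ t (circleMap z₁ r θ) := by
      intro t ht
      have h2 : DiffContOnCl ℂ (M t) (ball z₁ |r|) := by
        rw [abs_of_pos hr]
        exact ((hM t ht).mono hrW).diffContOnCl_ball (subset_refl _)
      have h3 := h2.circleAverage
      rw [Real.circleAverage_def, intervalIntegral.integral_of_le (by positivity)] at h3
      rw [← h3, integral_const_mul, Complex.real_smul, Complex.ofReal_inv]
      congr 1
      apply setIntegral_congr_fun measurableSet_Ioc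
      intro θ _
      exact hMΦ t ht _ (hmem θ)
    have h4 : DifferentiableOn ℂ (fun t => ∫ θ in Ioc (0 : ℝ) (2 * Real.pi),
        ((2 * Real.pi : ℝ) : ℂ)⁻¹ * Φ t (circleMap z₁ r θ)) U := by
      apply holo_int hU
      · intro t ht
        apply ContinuousOn.aestronglyMeasurable _ measurableSet_Ioc
        have h5 : Continuous fun θ : ℝ => Φ t (circleMap z₁ r θ) := by
          have h8 : ContinuousOn (fun z : ℂ => ((t, z) : ℂ × ℂ)) WB := by fun_prop
          have h6 : ContinuousOn (fun z => Φ t z) WB :=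
            hΦ.continuousOn.comp h8 (fun z hz => ⟨ht, hz⟩)
          exact h6.comp_continuous (continuous_circleMap z₁ r) hmem
        exact (continuous_const.mul h5).continuousOn
      · refine Eventually.of_forall fun θ => ?_
        apply DifferentiableOn.const_mul
        have h7 : DifferentiableOn ℂ (fun t : ℂ => ((t, circleMap z₁ r θ) : ℂ × ℂ)) U := by
          fun_prop
        exact hΦ.comp h7 (fun t ht => ⟨ht, hmem θ⟩)
      · intro t₀ ht₀
        obtain ⟨δ, hδ, hδ'⟩ := Metric.eventually_nhds_iff_ball.1 (hunif t₀ ht₀ z₁ r hrB 1 one_pos)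
        obtain ⟨δ₂, hδ₂, hδ₂U⟩ := Metric.isOpen_iff.1 hU t₀ ht₀
        obtain ⟨C₁, hC₁⟩ := (isCompact_closedBall z₁ r).exists_bound_of_continuousOn
          ((hM t₀ ht₀).continuousOn.mono hrW)
        refine ⟨min δ δ₂, fun _ => ‖((2 * Real.pi : ℝ) : ℂ)⁻¹‖ * (C₁ + 1), lt_min hδ hδ₂, ?_,
          Eventually.of_forall fun θ t ht => ?_⟩
        · exact integrableOn_const measure_Ioc_lt_top.ne
        · rw [norm_mul]
          apply mul_le_mul_of_nonneg_left _ (norm_nonneg _)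
          have htU : t ∈ U := hδ₂U (ball_subset_ball (min_le_right _ _) ht)
          have hs := circleMap_mem_sphere z₁ hr.le θ
          have k1 := hδ' t (ball_subset_ball (min_le_left _ _) ht) _ hs
          have k2 := hC₁ _ (sphere_subset_closedBall hs)
          have k3 := norm_sub_norm_le (M t (circleMap z₁ r θ)) (M t₀ (circleMap z₁ r θ))
          rw [← hMΦ t htU _ (hmem θ)]
          linarith
    exact h4.congr h1
  · intro t₀ ht₀
    rw [Metric.tendstoLocallyUniformlyOn_iff]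
    intro ε hε z₁ hz₁
    obtain ⟨r, hr, hrW, hrB⟩ := good_radius hW hfin hz₁
    refine ⟨ball z₁ r, mem_nhdsWithin_of_mem_nhds (ball_mem_nhds _ hr), ?_⟩
    filter_upwards [hunif t₀ ht₀ z₁ r hrB (ε / 2) (by positivity), hU.mem_nhds ht₀] with t h1 htU
    intro z hz
    have hd : DiffContOnCl ℂ (fun z => M t z - M t₀ z) (ball z₁ r) :=
      (((hM t htU).sub (hM t₀ ht₀)).mono hrW).diffContOnCl_ball (subset_refl _)
    have h2 := Complex.norm_le_of_forall_mem_frontier_norm_le isBounded_ball hd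
      (C := ε / 2) (fun w hw => by
        rw [frontier_ball z₁ hr.ne'] at hw
        exact (h1 w hw).le) (subset_closure hz)
    rw [dist_comm, dist_eq_norm]
    linarith

end Pool.Agent.H20.JL
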