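import Mathlib
import Pool.Agent.H20.JL.Cutoff
import Pool.Graph.R_seed8.H713R5.QJ.TRL
import Pool.Graph.R_seed8.H713R5.QJ.TRF
import Pool.Graph.R_seed8.H713R5.QJ.TFULLL

/-! # The motion of the complement of the level `N` set. This file adapts `TRL.lean` of the library
(project QJ). -/

set_option autoImplicit false

open Topology Filter Metric Set Polynomial MeasureTheory
open Pool.Agent.H713R3.ZA Pool.Agent.H713R5.QJ

namespace Pool.Agent.H20.JL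

/-- The two pieces of the conjugacy give rigid data, with the values of the conjugacy. -/
theorem rl_plus (hDIC : StDIC) (hK0 : StKO0) (hK1 : StKO1) (hK2 : StKO2) (hK3 : StKO3)
    (hCRS : StCRS) (hCRE : StCRE) (hCRB : StCRB) (hRF : StRF) (hRS : StRS)
    {a : ℂ} {n P M N : ℕ} {B R C₁ R₁ R₃ R₇ lam₀ lam₁ r₁ r₂ r' τ ρ : ℝ} {ψ φ : PE n × ℂ → ℂ}
    {Es Ee : Finset (Fin n)} {rf : Fin n → Fin n} {ap : Fin n → ℕ} {F0 : Fin n → ℂ}
    {γ : ℂ → PE n} (ha : a ≠ 0) (hn : 1 ≤ n) (hP : 0 < P) (hBO : BO a n B R C₁ R₁ R₃ ψ φ)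
    (hR7 : R₃ + C₁ ≤ R₇)
    (hKL : KL a n P B lam₀ lam₁ r₁ r₂) (hGD : GD a n P M B R₃ ψ Es Ee rf ap F0 ρ γ)
    (hlam : ∀ i ∈ Es, lam₀ ≤ ‖LP (fx a n (γ 0)) P (γ 0 (some i))‖ ∧
      ‖LP (fx a n (γ 0)) P (γ 0 (some i))‖ ≤ lam₁) (hr' : 0 < r') (hr'r₁ : r' < r₁) (hτ : 0 < τ)
    (hτK : ∀ i ∈ Es, ∀ b ≤ P, τ * ‖KP (fx a n (γ 0)) P ((fx a n (γ 0))^[b] (γ 0 (some i)))‖ <
      min r₂ (r' / 4)) :
    ∃ (ρ' : ℝ) (H : ℂ → ℂ → ℂ) (Bd : Set ℂ), 0 < ρ' ∧ ρ' ≤ ρ ∧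
      RDL (n + 1) (fun t => wv a n (γ t)) ρ'
        (UF n R₃ R₇ φ (γ 0) ∪ US a n P Es rf r' τ (γ 0)) H Bd N ∧
      (∀ t ∈ ball (0 : ℂ) ρ', ∀ z ∈ UF n R₃ R₇ φ (γ 0) ∪ US a n P Es rf r' τ (γ 0),
        H t z ∈ UF n R₃ R₇ φ (γ t) ∪ US a n P Es rf r' τ (γ t)) ∧
      (∀ t ∈ ball (0 : ℂ) ρ', ∀ z ∈ UF n R₃ R₇ φ (γ 0), H t z = ψ (γ t, φ (γ 0, z))) ∧
      (∀ z : ℂ, R₇ + C₁ < ‖z‖ → z ∈ UF n R₃ R₇ φ (γ 0)) ∧
      (∀ z ∈ UF n R₃ R₇ φ (γ 0), fx a n (γ 0) z ∈ UF n R₃ R₇ φ (γ 0)) ∧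
      (∀ z ∈ US a n P Es rf r' τ (γ 0), fx a n (γ 0) z ∈ US a n P Es rf r' τ (γ 0)) ∧
      ValS a n P Es rf r' τ γ ρ' H := by
  classical
  obtain ⟨d1, d2, d3, d4, d5, d6, d7, d8, d9, d10⟩ := hDIC a n ha hn
  have hPF := hRF a n B R C₁ R₁ R₃ R₇ ρ ψ φ γ ha hn hBO hR7 hGD.hρ hGD.γd hGD.γB
  obtain ⟨ρ₁, Hs, hρ₁, hρ₁ρ, hPS, hVal⟩ := hRS hK0 hK1 hK2 hK3 a n P M B R₃ lam₀ lam₁ r₁ r₂ r' τ ρ ψ
    Es Ee rf ap F0 γ ha hn hP hKL hGD hlam hr' hr'r₁ hτ hτK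
  obtain ⟨ρ₂, hρ₂, hρ₂ρ, hbad⟩ := hCRB hK0 hK1 hK2 hK3 a n P M N B R C₁ R₁ R₃ R₇ lam₀ lam₁ r₁ r₂ r' τ ρ
    ψ φ Es Ee rf ap F0 γ ha hn hP hBO hKL hGD hlam hr' hr'r₁
  set ρ' := min ρ₁ ρ₂ with hρ'
  have hρ'0 : 0 < ρ' := lt_min hρ₁ hρ₂
  have hρ'1 : ρ' ≤ ρ₁ := min_le_left _ _
  have hρ'2 : ρ' ≤ ρ₂ := min_le_right _ _
  have hρ'ρ : ρ' ≤ ρ := le_trans hρ'1 hρ₁ρ
  have hs1 : ball (0 : ℂ) ρ' ⊆ ball 0 ρ := ball_subset_ball hρ'ρ
  have hs2 : ball (0 : ℂ) ρ' ⊆ ball 0 ρ₂ := ball_subset_ball hρ'2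
  have hGD' := RL_GD_mono hGD hρ'0 hρ'ρ
  have hPF' := RL_PCE_mono hPF hρ'ρ
  have hPS' := RL_PCE_mono hPS hρ'1
  have hVal' := RL_ValS_mono hVal hρ'1
  obtain ⟨Bs, hBs, hBs'⟩ := hCRS hK0 hK1 hK2 hK3 a n P M N B R₃ lam₀ lam₁ r₁ r₂ r' τ ρ' ψ Es Ee rf ap
    F0 γ Hs ha hn hP hKL hGD' hlam hr' hr'r₁ hτ hPS' hVal'
  obtain ⟨Be, hBe, hBe'⟩ := hCRE a n P M N B R C₁ R₁ R₃ R₇ ρ' ψ φ Es Ee rf ap F0 γ ha hn hBO hR7 hGD'
  have h0 : (0 : ℂ) ∈ ball (0 : ℂ) ρ' := mem_ball_self hρ'0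
  -- elementary facts
  have hRR₃ : R ≤ R₃ := by linarith [hBO.hR₁, hBO.hR₃, hBO.hC]
  have hnB : ∀ t ∈ ball (0 : ℂ) ρ', ‖γ t‖ ≤ B := fun t ht =>
    (mem_ball_zero_iff.1 (hGD'.γB t ht)).le
  have hFn : ∀ t ∈ ball (0 : ℂ) ρ', ∀ z ∈ UF n R₃ R₇ φ (γ t), ¬ AT (fx a n (γ t)) P z :=
    fun t ht z hz => RL_not_AT hP hBO (hnB t ht) (le_trans hRR₃ hz.1.le)
  have hSa : ∀ t ∈ ball (0 : ℂ) ρ', ∀ z ∈ US a n P Es rf r' τ (γ t), AT (fx a n (γ t)) P z :=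
    fun t ht z hz => RL_US_AT hK0 hP hKL hGD' hlam hr'r₁ ht hz
  have hdj : ∀ t ∈ ball (0 : ℂ) ρ', ∀ z ∈ US a n P Es rf r' τ (γ t), z ∉ UF n R₃ R₇ φ (γ t) :=
    fun t ht z hz hz' => hFn t ht z hz' (hSa t ht z hz)
  set H : ℂ → ℂ → ℂ := fun t z => if z ∈ UF n R₃ R₇ φ (γ 0) then ψ (γ t, φ (γ 0, z)) else Hs t z
    with hH
  have hHF : ∀ t, ∀ z ∈ UF n R₃ R₇ φ (γ 0), H t z = ψ (γ t, φ (γ 0, z)) := fun t z hz => by
    rw [hH]
    exact if_pos hz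
  have hHS : ∀ t, ∀ z ∈ US a n P Es rf r' τ (γ 0), H t z = Hs t z := fun t z hz => by
    rw [hH]
    exact if_neg (hdj 0 h0 z hz)
  have hHFi : ∀ t ∈ ball (0 : ℂ) ρ', ∀ z ∈ UF n R₃ R₇ φ (γ 0), H t z ∈ UF n R₃ R₇ φ (γ t) :=
    fun t ht z hz => by
      rw [hHF t z hz]
      exact hPF'.img t ht z hz
  have hHSi : ∀ t ∈ ball (0 : ℂ) ρ', ∀ z ∈ US a n P Es rf r' τ (γ 0),
      H t z ∈ US a n P Es rf r' τ (γ t) :=
    fun t ht z hz => by
      rw [hHS t z hz]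
      exact hPS'.img t ht z hz
  have hOv : ∀ c w : ℂ, Pool.Agent.H713R4.RB.Over (c, 1) w ↔ c = w := fun c w => by
    unfold Pool.Agent.H713R4.RB.Over
    simp
  refine ⟨ρ', H, Bs ∪ Be, hρ'0, hρ'ρ, ?_, ?_, ?_, ?_, ?_, ?_, ?_⟩
  · refine
      { hρ := hρ'0
        γd := d10.comp_differentiableOn hGD'.γd
        ndg := fun t _ => d5 (γ t)
        Uo := hPF'.Uo.union hPS'.Uo
        Hd := ?_
        H0 := ?_
        Hi := ?_
        inv := ?_
        conj := ?_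
        Bf := hBs.union hBe
        crit := ?_
        inf := ?_ }
    · -- differentiability
      rintro ⟨t, z⟩ ⟨ht, hz⟩
      apply DifferentiableAt.differentiableWithinAt
      rcases hz with hz | hz
      · have h1 : DifferentiableAt ℂ (fun p : ℂ × ℂ => ψ (γ p.1, φ (γ 0, p.2))) (t, z) :=
          hPF'.Hd.differentiableAt ((isOpen_ball.prod hPF'.Uo).mem_nhds ⟨ht, hz⟩)
        refine h1.congr_of_eventuallyEq ?_
        filter_upwards [(isOpen_ball.prod hPF'.Uo).mem_nhds (⟨ht, hz⟩ : (t, z) ∈ ball (0 : ℂ) ρ' ×ˢ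
          UF n R₃ R₇ φ (γ 0))] with p hp
        exact hHF p.1 p.2 hp.2
      · have h1 : DifferentiableAt ℂ (fun p : ℂ × ℂ => Hs p.1 p.2) (t, z) :=
          hPS'.Hd.differentiableAt ((isOpen_ball.prod hPS'.Uo).mem_nhds ⟨ht, hz⟩)
        refine h1.congr_of_eventuallyEq ?_
        filter_upwards [(isOpen_ball.prod hPS'.Uo).mem_nhds (⟨ht, hz⟩ : (t, z) ∈ ball (0 : ℂ) ρ' ×ˢ
          US a n P Es rf r' τ (γ 0))] with p hp
        exact hHS p.1 p.2 hp.2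
    · -- identity at 0
      rintro z (hz | hz)
      · rw [hHF 0 z hz]
        exact hPF'.H0 z hz
      · rw [hHS 0 z hz]
        exact hPS'.H0 z hz
    · -- injectivity
      intro t ht z hz w hw e
      rcases hz with hz | hz <;> rcases hw with hw | hw
      · rw [hHF t z hz, hHF t w hw] at e
        exact hPF'.Hi t ht hz hw e
      · exfalso
        have h1 := hHFi t ht z hz
        rw [e] at h1
        exact hdj t ht _ (hHSi t ht w hw) h1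
      · exfalso
        have h1 := hHFi t ht w hw
        rw [← e] at h1
        exact hdj t ht _ (hHSi t ht z hz) h1
      · rw [hHS t z hz, hHS t w hw] at e
        exact hPS'.Hi t ht hz hw e
    · -- invariance
      rintro z (hz | hz)
      · refine ⟨fx a n (γ 0) z, Or.inl (hPF'.inv z hz), ?_⟩
        rw [d1, hOv]
      · refine ⟨fx a n (γ 0) z, Or.inr (hPS'.inv z hz), ?_⟩
        rw [d1, hOv]
    · -- conjugacy
      intro t ht z hz w hw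
      rw [d1, hOv] at hw
      rw [d1, hOv, ← hw]
      rcases hz with hz | hz
      · rw [hHF t z hz, hHF t _ (hPF'.inv z hz)]
        exact hPF'.conj t ht z hz
      · rw [hHS t z hz, hHS t _ (hPS'.inv z hz)]
        exact hPS'.conj t ht z hz
    · -- critical points
      intro t ht p _ hcr j hj1 hjN w hw hov
      by_cases hp2 : p.2 = 0
      · exact absurd (d4 (γ t) j p hp2) hov.1
      · obtain ⟨l, hl⟩ := d7 (γ t) p hcr hp2
        have hp : p = (p.2 * γ t (some l), p.2) := by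
          ext
          · rw [hl, mul_comm]
          · rfl
        rw [hp] at hov
        have hj := (d8 (γ t) j (γ t (some l)) (H t w) p.2 hp2).1 hov
        have hf := RL_diff a n (γ t)
        by_cases hlEs : l ∈ Es
        · have hA := (hGD'.A0s t ht l hlEs).1
          rcases hw with hw | hw
          · exfalso
            have h1 := hHFi t ht w hw
            rw [← hj] at h1
            exact hFn t ht _ h1 ((RL_AT_iff hK0 hf hP _ j).2 hA)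
          · left
            rw [hHS t w hw] at hj
            exact hBs' t ht l hlEs j hjN w hw hj
        · by_cases hlEe : l ∈ Ee
          · rcases hw with hw | hw
            · right
              rw [hHF t w hw] at hj
              exact hBe' t ht l hlEe j hjN w hw hj
            · exfalso
              have h1 := hSa t ht _ (hHSi t ht w hw)
              rw [← hj, RL_AT_iff hK0 hf hP _ j] at h1
              have h2 := (RL_AT_iff hK0 hf hP (γ t (some l)) M).2 h1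
              rw [hGD'.esc t ht l hlEe] at h2
              have h3 := hGD'.F1 l hlEe
              have h4 := hBO.ψc (γ t) (hGD'.γB t ht) (F0 l) (by linarith [hBO.hR₃, hBO.hC])
              have h5 : R ≤ ‖ψ (γ t, F0 l)‖ := by
                have h6 := norm_sub_norm_le (F0 l) (F0 l - ψ (γ t, F0 l))
                rw [sub_sub_cancel] at h6
                rw [norm_sub_rev] at h4
                linarith [hBO.hR₁, hBO.hR₃, hBO.hC]
              exact RL_not_AT hP hBO (hnB t ht) h5 h2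
          · exfalso
            refine hbad t (hs2 ht) l hlEs hlEe j hjN ?_
            rw [hj]
            rcases hw with hw | hw
            · exact Or.inl (hHFi t ht w hw)
            · exact Or.inr (hHSi t ht w hw)
    · -- infinity
      intro t ht w _ hov
      exact absurd (d4 (γ t) N (1, 0) rfl) hov.1
  · rintro t ht z (hz | hz)
    · exact Or.inl (hHFi t ht z hz)
    · exact Or.inr (hHSi t ht z hz)
  · exact fun t _ z hz => hHF t z hz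
  · intro z hz
    have h2 : R₃ < ‖z‖ := by linarith [hBO.hC]
    refine ⟨h2, ?_⟩
    have h3 := hBO.φc (γ 0) (hGD'.γB 0 h0) z h2
    have h4 := norm_sub_norm_le z (z - φ (γ 0, z))
    rw [sub_sub_cancel] at h4
    rw [norm_sub_rev] at h3
    linarith
  · exact hPF'.inv
  · exact hPS'.inv
  · intro t ht i hi hri b hb z hz hzb
    have h1 := hVal' t ht i hi hri b hb z hz hzb
    rw [hHS t z hz]
    exact h1

end Pool.Agent.H20.JL
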