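import Mathlib
import Pool.Agent.H20.JL.Mot1
import Pool.Agent.H20.JL.Fill
import Pool.Graph.R_seed8.H713R5.QJ.Core6

/-! # The motion of the complement of the level `N` set -/

set_option autoImplicit false

open Topology Filter Metric Set Polynomial MeasureTheory
open Pool.Agent.H713R3.ZA Pool.Agent.H713R5.QJ

namespace Pool.Agent.H20.JL

/-- relation between points near the sinks -/
def SRel (a : ℂ) (n P : ℕ) (Es : Finset (Fin n)) (rf : Fin n → Fin n) (r' τ : ℝ) (x₂ x : PE n)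
    (Ψ : ℂ → ℂ) : Prop :=
  ∀ i ∈ Es, rf i = i → ∀ b < P, ∀ z ∈ US a n P Es rf r' τ x₂,
    ‖z - (fx a n x₂)^[b] (SP (fx a n x₂) P (x₂ (some i)))‖ < r' →
    ‖Ψ z - (fx a n x)^[b] (SP (fx a n x) P (x (some i)))‖ < r' ∧
    KP (fx a n x) P (Ψ z) * KP (fx a n x₂) P ((fx a n x₂)^[b] (x₂ (some i))) =
      KP (fx a n x₂) P z * KP (fx a n x) P ((fx a n x)^[b] (x (some i)))

/-- conformal conjugacies between the complements of the level `N` sets -/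
structure BX (a : ℂ) (n P : ℕ) (R₃ R₇ : ℝ) (ψ φ : PE n × ℂ → ℂ) (Es : Finset (Fin n))
    (rf : Fin n → Fin n) (r' τ : ℝ) (N : ℕ) (x₂ x : PE n) (Ψ : ℂ → ℂ) : Prop where
  hol : DifferentiableOn ℂ Ψ (BN a n P R₃ R₇ φ Es rf r' τ N x₂)ᶜ
  inj : InjOn Ψ (BN a n P R₃ R₇ φ Es rf r' τ N x₂)ᶜ
  map : ∀ z ∈ (BN a n P R₃ R₇ φ Es rf r' τ N x₂)ᶜ, Ψ z ∈ (BN a n P R₃ R₇ φ Es rf r' τ N x)ᶜ
  cnj : ∀ z ∈ (BN a n P R₃ R₇ φ Es rf r' τ N x₂)ᶜ, fx a n x (Ψ z) = Ψ (fx a n x₂ z)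
  far : ∀ z ∈ UF n R₃ R₇ φ x₂, Ψ z = ψ (x, φ (x₂, z))
  sik : SRel a n P Es rf r' τ x₂ x Ψ

/-- holomorphic families of conjugacies -/
structure MV (a : ℂ) (n P : ℕ) (R₃ R₇ : ℝ) (ψ φ : PE n × ℂ → ℂ) (Es : Finset (Fin n))
    (rf : Fin n → Fin n) (r' τ : ℝ) (N : ℕ) (γ : ℂ → PE n) (ρ : ℝ) (M : ℂ → ℂ → ℂ) : Prop where
  bx : ∀ t ∈ ball (0 : ℂ) ρ, BX a n P R₃ R₇ ψ φ Es rf r' τ N (γ 0) (γ t) (M t)
  zer : ∀ z ∈ (BN a n P R₃ R₇ φ Es rf r' τ N (γ 0))ᶜ, M 0 z = z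
  thl : ∀ z ∈ (BN a n P R₃ R₇ φ Es rf r' τ N (γ 0))ᶜ,
    DifferentiableOn ℂ (fun t => M t z) (ball 0 ρ)
  cvg : ∀ t₀ ∈ ball (0 : ℂ) ρ, TendstoLocallyUniformlyOn M (M t₀) (𝓝 t₀)
    (BN a n P R₃ R₇ φ Es rf r' τ N (γ 0))ᶜ

theorem cont_eq {W WB : Set ℂ} (hW : IsOpen W) (hfin : (W \ WB).Finite) {f g : ℂ → ℂ}
    (hf : ContinuousOn f W) (hg : ContinuousOn g W) (h : ∀ z ∈ W, z ∈ WB → f z = g z) :
    ∀ z ∈ W, f z = g z := by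
  intro z hz
  have h1 : ((W \ WB) \ {z})ᶜ ∈ 𝓝 z :=
    (hfin.subset sdiff_subset).isClosed.isOpen_compl.mem_nhds (fun h => h.2 rfl)
  have h2 : ∀ᶠ y in 𝓝[≠] z, f y = g y := by
    filter_upwards [nhdsWithin_le_nhds h1, nhdsWithin_le_nhds (hW.mem_nhds hz),
      self_mem_nhdsWithin] with y h2 h3 h4
    by_cases h5 : y ∈ WB
    · exact h y h3 h5
    · exact absurd ⟨⟨h3, h5⟩, h4⟩ h2
  have t1 : Tendsto f (𝓝[≠] z) (𝓝 (f z)) :=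
    ((hf.continuousAt (hW.mem_nhds hz)).tendsto).mono_left nhdsWithin_le_nhds
  have t2 : Tendsto g (𝓝[≠] z) (𝓝 (g z)) :=
    ((hg.continuousAt (hW.mem_nhds hz)).tendsto).mono_left nhdsWithin_le_nhds
  exact tendsto_nhds_unique (t1.congr' h2) t2

theorem BN_compl {a : ℂ} {n P : ℕ} {R₃ R₇ : ℝ} {φ : PE n × ℂ → ℂ} {Es : Finset (Fin n)}
    {rf : Fin n → Fin n} {r' τ : ℝ} {N : ℕ} {x : PE n} {z : ℂ} :
    z ∈ (BN a n P R₃ R₇ φ Es rf r' τ N x)ᶜ ↔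
      (fx a n x)^[N] z ∈ UF n R₃ R₇ φ x ∪ US a n P Es rf r' τ x := by
  unfold BN
  simp only [mem_compl_iff, mem_ofPred_eq, not_not]

/-- Existence of the motion. -/
theorem exists_motion (H : HH) {a : ℂ} {n P M N : ℕ} {B R C₁ R₁ R₃ R₇ lam₀ lam₁ r₁ r₂ r' τ ρ : ℝ}
    {ψ φ : PE n × ℂ → ℂ} {Es Ee : Finset (Fin n)} {rf : Fin n → Fin n} {ap : Fin n → ℕ}
    {F0 : Fin n → ℂ} {γ : ℂ → PE n} (ha : a ≠ 0) (hn : 1 ≤ n) (hP : 0 < P)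
    (hBO : BO a n B R C₁ R₁ R₃ ψ φ) (hR7 : R₃ + C₁ ≤ R₇)
    (hKL : KL a n P B lam₀ lam₁ r₁ r₂) (hGD : GD a n P M B R₃ ψ Es Ee rf ap F0 ρ γ)
    (hlam : ∀ i ∈ Es, lam₀ ≤ ‖LP (fx a n (γ 0)) P (γ 0 (some i))‖ ∧
      ‖LP (fx a n (γ 0)) P (γ 0 (some i))‖ ≤ lam₁) (hr' : 0 < r') (hr'r₁ : r' < r₁) (hτ : 0 < τ)
    (hτK : ∀ i ∈ Es, ∀ b ≤ P, τ * ‖KP (fx a n (γ 0)) P ((fx a n (γ 0))^[b] (γ 0 (some i)))‖ <
      min r₂ (r' / 4)) :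
    ∃ (ρ' : ℝ) (M : ℂ → ℂ → ℂ), 0 < ρ' ∧ ρ' ≤ ρ ∧
      MV a n P R₃ R₇ ψ φ Es rf r' τ N γ ρ' M := by
  classical
  obtain ⟨ρ', h, Bd, hρ', hρ'ρ, hRDL, hHim, hHF, hbig, hUFi, hUSi, hVal⟩ := rl_plus (N := N) H.dic
    H.ko0 H.ko1 H.ko2 H.ko3 H.crs H.cre H.crb H.rf H.rs ha hn hP hBO hR7 hKL hGD hlam hr' hr'r₁
    hτ hτK
  have hsubB : ball (0 : ℂ) ρ' ⊆ ball (0 : ℂ) ρ := ball_subset_ball hρ'ρ
  have h0 : (0 : ℂ) ∈ ball (0 : ℂ) ρ' := mem_ball_self hρ'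
  obtain ⟨Φ, hΦ⟩ := H.motl H.root H.pro H.wn H.rbad (n + 1) (fun t => wv a n (γ t)) ρ'
    (UF n R₃ R₇ φ (γ 0) ∪ US a n P Es rf r' τ (γ 0)) h Bd N (by omega) hRDL
  obtain ⟨hFAR, -⟩ := H.farp H.dic H.asyp a n N B R C₁ R₁ R₃ R₇ ρ' ψ φ γ
    (UF n R₃ R₇ φ (γ 0) ∪ US a n P Es rf r' τ (γ 0)) h Bd ha hn hBO hR7
    hRDL (fun t ht => hGD.γB t (hsubB ht)) (fun t ht => hGD.cen t (hsubB ht))
    (fun t ht z hz => ⟨Or.inl (hbig z hz), hHF t ht z (hbig z hz)⟩)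
  obtain ⟨D1, D2, D3, D4, D5, D6, D7, D8, D9, D10⟩ := H.dic a n ha hn
  set U : Set ℂ := UF n R₃ R₇ φ (γ 0) ∪ US a n P Es rf r' τ (γ 0) with hU
  have hfull := H.fulll H.rbad (n + 1) (fun t => wv a n (γ t)) ρ' U h Bd N Φ (R₇ + C₁) h
    (by omega) hRDL hΦ hFAR
  have hW : Pool.Agent.H713R4.RB.WN (n + 1) (wv a n (γ 0)) U N =
      (BN a n P R₃ R₇ φ Es rf r' τ N (γ 0))ᶜ := by
    rw [D6]
    ext z
    rw [BN_compl]
    rfl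
  have hWB : Pool.Agent.H713R4.RB.WN (n + 1) (wv a n (γ 0)) (U \ Bd) N =
      {z | (fx a n (γ 0))^[N] z ∈ U \ Bd} := D6 _ _ _
  simp only [hW, hWB] at hfull
  set W : Set ℂ := (BN a n P R₃ R₇ φ Es rf r' τ N (γ 0))ᶜ with hWdef
  set WB : Set ℂ := {z | (fx a n (γ 0))^[N] z ∈ U \ Bd} with hWBdef
  have hWo : IsOpen W := by
    rw [← hW]
    exact Pool.Agent.H713R4.RB.full_WN_open (n + 1) (wv a n (γ 0)) U hRDL.Uo N
  have hsub : WB ⊆ W := by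
    intro z hz
    exact BN_compl.2 hz.1
  have hfin : (W \ WB).Finite := by
    refine (H.rbad (n + 1) N (wv a n (γ 0)) Bd (by omega) (D5 _) hRDL.Bf).subset ?_
    rintro z ⟨h1, h2⟩
    rw [D6]
    by_contra h3
    exact h2 ⟨BN_compl.1 h1, h3⟩
  -- the conjugacy on the target region
  have hstep : ∀ t ∈ ball (0 : ℂ) ρ', ∀ z ∈ U, fx a n (γ t) (h t z) = h t (fx a n (γ 0) z) := by
    intro t ht z hz
    have h1 := hRDL.conj t ht z hz (fx a n (γ 0) z) (by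
      rw [D1]
      exact ⟨one_ne_zero, by simp⟩)
    rw [D1] at h1
    have h2 := h1.2
    simpa using h2
  have hUi : ∀ z ∈ U, fx a n (γ 0) z ∈ U := by
    rintro z (hz | hz)
    · exact Or.inl (hUFi z hz)
    · exact Or.inr (hUSi z hz)
  have hUit : ∀ k : ℕ, ∀ z ∈ U, (fx a n (γ 0))^[k] z ∈ U := by
    intro k z hz
    induction k with
    | zero => exact hz
    | succ k ih => rw [Function.iterate_succ_apply']; exact hUi _ ih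
  have hUW : U ⊆ W := fun z hz => BN_compl.2 (hUit N z hz)
  have hiter : ∀ t ∈ ball (0 : ℂ) ρ', ∀ z ∈ U, ∀ k : ℕ,
      (fx a n (γ t))^[k] (h t z) = h t ((fx a n (γ 0))^[k] z) := by
    intro t ht z hz k
    induction k with
    | zero => rfl
    | succ k ih =>
      rw [Function.iterate_succ_apply', Function.iterate_succ_apply', ih,
        hstep t ht _ (hUit k z hz)]
  -- the family
  choose! M hMd hMi hMΦ hMa hMm hMc using hfull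
  have hMU : ∀ t ∈ ball (0 : ℂ) ρ', ∀ z ∈ U, M t z = h t z := by
    intro t ht
    have hfin' : (U \ WB).Finite := hfin.subset (sdiff_subset_sdiff_left hUW)
    have hht : DifferentiableOn ℂ (h t) U := by
      have h2 : DifferentiableOn ℂ (fun z : ℂ => ((t, z) : ℂ × ℂ)) U := by fun_prop
      exact hRDL.Hd.comp h2 (fun z hz => ⟨ht, hz⟩)
    apply cont_eq hRDL.Uo hfin' ((hMd t ht).continuousOn.mono hUW) hht.continuousOn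
    intro z hz hzB
    rw [hMΦ t ht z hzB]
    have hzB' : z ∈ Pool.Agent.H713R4.RB.WN (n + 1) (wv a n (γ 0)) (U \ Bd) N := by
      rw [hWB]; exact hzB
    refine (hΦ.uniq z hzB' (fun s => h s z) ?_ ⟨0, h0, ?_⟩ ?_ t ht).symm
    · exact hRDL.Hd.continuousOn.comp (f := fun s : ℂ => ((s, z) : ℂ × ℂ)) (by fun_prop)
        (fun s hs => ⟨hs, hz⟩)
    · rw [hRDL.H0 z hz, hΦ.zero z hzB']
    · intro s hs w hw
      rw [D3] at hw ⊢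
      rw [hiter s hs z hz N, hw]
  obtain ⟨hthl, hcvg⟩ := fill (U := ball (0 : ℂ) ρ') (WB := WB) isOpen_ball hWo hfin hMd
    (by
      have := hΦ.diff
      rw [hWB] at this
      exact this) hMΦ
  refine ⟨ρ', M, hρ', hρ'ρ, ⟨fun t ht => ⟨hMd t ht, hMi t ht, ?_, ?_, ?_, ?_⟩, ?_, hthl, hcvg⟩⟩
  · intro z hz
    have h1 := hMm t ht z hz
    rw [D6] at h1
    obtain ⟨w, hw, hwz⟩ := h1
    rw [BN_compl]
    have h2 := hHim t ht w hw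
    rw [hwz] at h2
    exact h2
  · intro z hz
    have hz' : fx a n (γ 0) z ∈ W := by
      rw [hWdef, BN_compl, ← Function.iterate_succ_apply, Function.iterate_succ_apply']
      exact hUi _ (BN_compl.1 hz)
    have h1 := hMc t ht z hz (fx a n (γ 0) z) hz' (by
      rw [D1]
      exact ⟨one_ne_zero, by simp⟩)
    rw [D1] at h1
    have h2 := h1.2
    simpa using h2
  · intro z hz
    rw [hMU t ht z (Or.inl hz)]
    exact hHF t ht z hz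
  · intro i hi hri b hb z hz hzb
    rw [hMU t ht z (Or.inr hz)]
    exact hVal t ht i hi hri b hb z hz hzb
  · apply cont_eq hWo hfin ((hMd 0 h0).continuousOn) continuousOn_id
    intro z hz hzB
    have hzB' : z ∈ Pool.Agent.H713R4.RB.WN (n + 1) (wv a n (γ 0)) (U \ Bd) N := by
      rw [hWB]; exact hzB
    rw [hMΦ 0 h0 z hzB, hΦ.zero z hzB']
    rfl

end Pool.Agent.H20.JL
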