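import Mathlib
import Pool.Agent.H20.JL.Mot2

/-! # Conjugacies: composition and compactness -/

set_option autoImplicit false

open Topology Filter Metric Set Polynomial MeasureTheory
open Pool.Agent.H713R3.ZA Pool.Agent.H713R5.QJ

namespace Pool.Agent.H20.JL

/-- facts on the sinks of the parameter `x` -/
structure SF (a : ℂ) (n P : ℕ) (B lam₀ lam₁ : ℝ) (Es : Finset (Fin n)) (x : PE n) : Prop where
  xB : x ∈ ball (0 : PE n) B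
  A : ∀ i ∈ Es, (x, x (some i)) ∈ A0 a n P
  kne : ∀ i ∈ Es, KP (fx a n x) P (x (some i)) ≠ 0
  lam : ∀ i ∈ Es, lam₀ ≤ ‖LP (fx a n x) P (x (some i))‖ ∧ ‖LP (fx a n x) P (x (some i))‖ ≤ lam₁

section
variable {a : ℂ} {n P N : ℕ} {B R C₁ R₁ R₃ R₇ lam₀ lam₁ r₁ r₂ r' τ : ℝ} {ψ φ : PE n × ℂ → ℂ}
  {Es : Finset (Fin n)} {rf : Fin n → Fin n} {x x₂ p : PE n}

theorem SF.sink (H : HH) (ha : a ≠ 0) (hn : 1 ≤ n) (hP : 0 < P) (h : SF a n P B lam₀ lam₁ Es x)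
    {i : Fin n} (hi : i ∈ Es) (b : ℕ) :
    (x, (fx a n x)^[b] (x (some i))) ∈ A0 a n P ∧
    (fx a n x)^[P] ((fx a n x)^[b] (SP (fx a n x) P (x (some i)))) =
      (fx a n x)^[b] (SP (fx a n x) P (x (some i))) ∧
    lam₀ ≤ ‖deriv ((fx a n x)^[P]) ((fx a n x)^[b] (SP (fx a n x) P (x (some i))))‖ ∧
    ‖deriv ((fx a n x)^[P]) ((fx a n x)^[b] (SP (fx a n x) P (x (some i))))‖ ≤ lam₁ ∧
    SP (fx a n x) P ((fx a n x)^[b] (x (some i))) =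
      (fx a n x)^[b] (SP (fx a n x) P (x (some i))) ∧
    KP (fx a n x) P ((fx a n x)^[b] (x (some i))) ≠ 0 := by
  obtain ⟨hAT, hLP⟩ := h.A i hi
  obtain ⟨i1, i2, i3⟩ := RL_it H.ko0 (RL_diff a n x) hP hAT b
  obtain ⟨_, h2, _, _, _⟩ := H.ko0 (fx a n x) P (RL_diff a n x) hP
  have hSk := h2 _ i1
  have hl := h.lam i hi
  have hder : deriv ((fx a n x)^[P]) ((fx a n x)^[b] (SP (fx a n x) P (x (some i)))) =
      LP (fx a n x) P (x (some i)) := by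
    rw [← i3, ← i2]; rfl
  obtain ⟨-, k2⟩ := H.ko2 H.ko0 H.ko1 H.ko3 a n P ha hn hP
  refine ⟨⟨i1, ?_⟩, ?_, ?_, ?_, i2, ?_⟩
  · show LP (fx a n x) P ((fx a n x)^[b] (x (some i))) ≠ 0
    rw [i3]; exact hLP
  · rw [← i2]; exact hSk.1
  · rw [hder]; exact hl.1
  · rw [hder]; exact hl.2
  · have hall : ∀ b : ℕ, (x, (fx a n x)^[b] (x (some i))) ∈ A0 a n P ∧
        KP (fx a n x) P ((fx a n x)^[b] (x (some i))) ≠ 0 := by
      intro b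
      induction b with
      | zero => exact ⟨h.A i hi, h.kne i hi⟩
      | succ b ih =>
        rw [Function.iterate_succ_apply']
        obtain ⟨-, m2, m3, m4, -⟩ := k2 x _ ih.1
        refine ⟨m2, ?_⟩
        rw [m4]
        exact mul_ne_zero m3 ih.2
    exact (hall b).2

theorem SF.near (H : HH) (ha : a ≠ 0) (hn : 1 ≤ n) (hP : 0 < P)
    (hKL : KL a n P B lam₀ lam₁ r₁ r₂) (h : SF a n P B lam₀ lam₁ Es x) {i : Fin n} (hi : i ∈ Es)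
    (b : ℕ) {z : ℂ} (hz : ‖z - (fx a n x)^[b] (SP (fx a n x) P (x (some i)))‖ < r₁) :
    (x, z) ∈ A0 a n P ∧
      7 / 8 * ‖z - (fx a n x)^[b] (SP (fx a n x) P (x (some i)))‖ ≤ ‖KP (fx a n x) P z‖ := by
  obtain ⟨-, s2, s3, s4, -, -⟩ := h.sink H ha hn hP hi b
  set s := (fx a n x)^[b] (SP (fx a n x) P (x (some i))) with hs
  have hzb : z ∈ ball s r₁ := by rw [mem_ball, dist_eq_norm]; exact hz
  have h1 := hKL.att x h.xB s s2 s3 s4 z hzb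
  obtain ⟨k1, _, _, _, _⟩ := H.ko0 (fx a n x) P (RL_diff a n x) hP
  have h2 : SP (fx a n x) P z = s := k1 z s h1.1
  refine ⟨⟨⟨s, h1.1⟩, ?_⟩, ?_⟩
  · show deriv ((fx a n x)^[P]) (SP (fx a n x) P z) ≠ 0
    rw [h2]
    have := hKL.l0
    exact norm_pos_iff.1 (by linarith)
  · have h3 := hKL.close x h.xB s s2 s3 s4 z hzb s (mem_ball_self hKL.r1)
    rw [hKL.zero x h.xB s s2 s3 s4, sub_zero] at h3
    have h4 := norm_sub_norm_le (z - s) (KP (fx a n x) P z)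
    have h5 := norm_sub_rev (z - s) (KP (fx a n x) P z)
    linarith

theorem UF_map (hb : BO a n B R C₁ R₁ R₃ ψ φ) (hR7 : R₃ + C₁ ≤ R₇) (hx : x ∈ ball (0 : PE n) B)
    {z : ℂ} (hz : z ∈ UF n R₃ R₇ φ x₂) :
    ψ (x, φ (x₂, z)) ∈ UF n R₃ R₇ φ x ∧ φ (x, ψ (x, φ (x₂, z))) = φ (x₂, z) := by
  have e3 : R₇ < ‖φ (x₂, z)‖ := hz.2
  obtain ⟨e4, e5⟩ := rf_back hb hx (lt_of_le_of_lt hR7 e3)
  refine ⟨⟨e4, ?_⟩, e5⟩
  rw [e5]
  exact e3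

theorem BX_id (hb : BO a n B R C₁ R₁ R₃ ψ φ) (hx : x ∈ ball (0 : PE n) B) :
    BX a n P R₃ R₇ ψ φ Es rf r' τ N x x (fun z => z) :=
  ⟨differentiableOn_id, fun _ _ _ _ h => h, fun _ h => h, fun _ _ => rfl,
    fun z hz => (hb.ψφ x hx z hz.1).symm, fun _ _ _ _ _ _ _ h => ⟨h, rfl⟩⟩

/-- the sink relation maps the region near the sinks to the region near the sinks -/
theorem SRel.map_US {Ψ : ℂ → ℂ} (h : SRel a n P Es rf r' τ x₂ x Ψ)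
    (hk : ∀ i ∈ Es, ∀ b < P, KP (fx a n x) P ((fx a n x)^[b] (x (some i))) ≠ 0) {z : ℂ}
    (hz : z ∈ US a n P Es rf r' τ x₂) : Ψ z ∈ US a n P Es rf r' τ x := by
  have hz' := hz
  obtain ⟨i, hi, hri, b, hb, h1, h2⟩ := hz
  obtain ⟨h3, h4⟩ := h i hi hri b hb z hz' h1
  refine ⟨i, hi, hri, b, hb, h3, ?_⟩
  have h5 : 0 < ‖KP (fx a n x₂) P ((fx a n x₂)^[b] (x₂ (some i)))‖ := by
    by_contra hcon
    have h6 : ‖KP (fx a n x₂) P ((fx a n x₂)^[b] (x₂ (some i)))‖ = 0 :=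
      le_antisymm (not_lt.1 hcon) (norm_nonneg _)
    rw [h6, mul_zero] at h2
    exact absurd h2 (not_lt.2 (norm_nonneg _))
  have h6 : 0 < ‖KP (fx a n x) P ((fx a n x)^[b] (x (some i)))‖ := norm_pos_iff.2 (hk i hi b hb)
  have h7 := congrArg norm h4
  rw [norm_mul, norm_mul] at h7
  refine lt_of_mul_lt_mul_right ?_ h5.le
  rw [h7]
  calc ‖KP (fx a n x₂) P z‖ * ‖KP (fx a n x) P ((fx a n x)^[b] (x (some i)))‖ <
        (τ * ‖KP (fx a n x₂) P ((fx a n x₂)^[b] (x₂ (some i)))‖) *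
          ‖KP (fx a n x) P ((fx a n x)^[b] (x (some i)))‖ :=
        mul_lt_mul_of_pos_right h2 h6
    _ = _ := by ring

theorem BX.comp (hb : BO a n B R C₁ R₁ R₃ ψ φ) (hR7 : R₃ + C₁ ≤ R₇)
    (hp : p ∈ ball (0 : PE n) B) {Ψ M' : ℂ → ℂ}
    (hk : ∀ i ∈ Es, ∀ b < P, KP (fx a n p) P ((fx a n p)^[b] (p (some i))) ≠ 0)
    (h1 : BX a n P R₃ R₇ ψ φ Es rf r' τ N x₂ p Ψ)
    (h2 : BX a n P R₃ R₇ ψ φ Es rf r' τ N p x M') :
    BX a n P R₃ R₇ ψ φ Es rf r' τ N x₂ x (fun z => M' (Ψ z)) := by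
  refine ⟨h2.hol.comp h1.hol h1.map, ?_, fun z hz => h2.map _ (h1.map z hz), ?_, ?_, ?_⟩
  · intro z hz z' hz' h
    exact h1.inj hz hz' (h2.inj (h1.map z hz) (h1.map z' hz') h)
  · intro z hz
    rw [h2.cnj _ (h1.map z hz), h1.cnj z hz]
  · intro z hz
    obtain ⟨m1, m2⟩ := UF_map hb hR7 hp hz
    show M' (Ψ z) = ψ (x, φ (x₂, z))
    rw [h1.far z hz, h2.far _ m1, m2]
  · intro i hi hri b hb z hz hzb
    obtain ⟨m1, m2⟩ := h1.sik i hi hri b hb z hz hzb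
    obtain ⟨m3, m4⟩ := h2.sik i hi hri b hb (Ψ z) (h1.sik.map_US hk hz) m1
    refine ⟨m3, ?_⟩
    apply mul_right_cancel₀ (hk i hi b hb)
    linear_combination (KP (fx a n x₂) P ((fx a n x₂)^[b] (x₂ (some i)))) * m4 +
      KP (fx a n x) P ((fx a n x)^[b] (x (some i))) * m2

end

end Pool.Agent.H20.JL
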