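import Mathlib
import Pool.Agent.H20.JL.Sta
import Pool.Graph.R_seed8.H713R5.QJ.TLSCP

/-! # Compactness of the space of conjugacies -/

set_option autoImplicit false

open Topology Filter Metric Set Polynomial MeasureTheory
open Pool.Agent.H713R3.ZA Pool.Agent.H713R5.QJ

namespace Pool.Agent.H20.JL

section
variable {a : ℂ} {n P N : ℕ} {B R C₁ R₁ R₃ R₇ lam₀ lam₁ r₁ r₂ r' τ : ℝ} {ψ φ : PE n × ℂ → ℂ}
  {Es : Finset (Fin n)} {rf : Fin n → Fin n} {x x₂ p : PE n}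

theorem far_close (hb : BO a n B R C₁ R₁ R₃ ψ φ) (hx₂ : x₂ ∈ ball (0 : PE n) B)
    (hx : x ∈ ball (0 : PE n) B) {z : ℂ} (hz : R₃ < ‖z‖) : ‖ψ (x, φ (x₂, z)) - z‖ ≤ 2 * C₁ := by
  have h1 := hb.φc x₂ hx₂ z hz
  have h2 := hb.ψc x hx _ (φ_norm hb hx₂ hz)
  have e : ψ (x, φ (x₂, z)) - z = (ψ (x, φ (x₂, z)) - φ (x₂, z)) + (φ (x₂, z) - z) := by ring
  rw [e]
  refine (norm_add_le _ _).trans ?_
  linarith

theorem big_UF (hb : BO a n B R C₁ R₁ R₃ ψ φ) (hR7 : R₃ + C₁ ≤ R₇) (hx : x ∈ ball (0 : PE n) B)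
    {z : ℂ} (hz : R₇ + C₁ < ‖z‖) : z ∈ UF n R₃ R₇ φ x := by
  have h0 := hb.hC
  have h2 : R₃ < ‖z‖ := by linarith
  refine ⟨h2, ?_⟩
  have h3 := hb.φc x hx z h2
  have h4 := norm_sub_norm_le z (z - φ (x, z))
  rw [sub_sub_cancel] at h4
  rw [norm_sub_rev] at h3
  linarith

/-- uniform bound -/
theorem BX.bound (hb : BO a n B R C₁ R₁ R₃ ψ φ) (hR7 : R₃ + C₁ ≤ R₇)
    (hx₂ : x₂ ∈ ball (0 : PE n) B) (hx : x ∈ ball (0 : PE n) B)
    (hUFW : UF n R₃ R₇ φ x₂ ⊆ (BN a n P R₃ R₇ φ Es rf r' τ N x₂)ᶜ) {Ψ : ℂ → ℂ}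
    (h : BX a n P R₃ R₇ ψ φ Es rf r' τ N x₂ x Ψ) {z : ℂ}
    (hz : z ∈ (BN a n P R₃ R₇ φ Es rf r' τ N x₂)ᶜ) : ‖Ψ z - z‖ ≤ 2 * R₇ + 3 * C₁ := by
  have h1 := hb.hR; have h2 := hb.hC; have h3 := hb.hR₁; have h4 := hb.hR₃
  have hF : ∀ y ∈ UF n R₃ R₇ φ x₂, ‖Ψ y - y‖ ≤ 2 * R₇ + 3 * C₁ := by
    intro y hy
    rw [h.far y hy]
    have := far_close hb hx₂ hx hy.1
    linarith
  by_cases hzl : R₇ + C₁ < ‖z‖
  · exact hF z (big_UF hb hR7 hx₂ hzl)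
  · by_cases hΨ : R₇ + 2 * C₁ < ‖Ψ z‖
    · set y := Ψ z with hy
      have hy3 : R₃ < ‖y‖ := by linarith
      have e1 := hb.φc x hx y hy3
      have e2 : R₇ + C₁ < ‖φ (x, y)‖ := by
        have := norm_sub_norm_le y (φ (x, y))
        rw [norm_sub_rev] at this
        linarith
      obtain ⟨e3, e4⟩ := rf_back hb hx₂ (w := φ (x, y)) (by linarith)
      have e5 : ψ (x₂, φ (x, y)) ∈ UF n R₃ R₇ φ x₂ := ⟨e3, by rw [e4]; linarith⟩
      have e6 : Ψ (ψ (x₂, φ (x, y))) = y := by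
        rw [h.far _ e5, e4]
        exact hb.ψφ x hx y hy3
      have e7 := h.inj (hUFW e5) hz (e6.trans hy)
      rw [e7] at e5
      exact hF z e5
    · have := norm_sub_le (Ψ z) z
      linarith

/-- Montel's theorem for the conjugacies -/
theorem BX_montel (hb : BO a n B R C₁ R₁ R₃ ψ φ) (hR7 : R₃ + C₁ ≤ R₇)
    (hx₂ : x₂ ∈ ball (0 : PE n) B)
    (hWo : IsOpen (BN a n P R₃ R₇ φ Es rf r' τ N x₂)ᶜ)
    (hUFW : UF n R₃ R₇ φ x₂ ⊆ (BN a n P R₃ R₇ φ Es rf r' τ N x₂)ᶜ) {xs : ℕ → PE n}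
    {Ψs : ℕ → ℂ → ℂ} (hxs : ∀ k, xs k ∈ ball (0 : PE n) B)
    (h : ∀ k, BX a n P R₃ R₇ ψ φ Es rf r' τ N x₂ (xs k) (Ψs k)) (𝒰 : Ultrafilter ℕ) :
    ∃ Ψ : ℂ → ℂ, DifferentiableOn ℂ Ψ (BN a n P R₃ R₇ φ Es rf r' τ N x₂)ᶜ ∧
      TendstoLocallyUniformlyOn Ψs Ψ (𝒰 : Filter ℕ) (BN a n P R₃ R₇ φ Es rf r' τ N x₂)ᶜ := by
  obtain ⟨Φ, hΦd, hΦ⟩ := Pool.Agent.Helper114.Montel.montel hWo (fun k z => Ψs k z - z)
    (fun k => (h k).hol.sub differentiableOn_id) (2 * R₇ + 3 * C₁)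
    (fun k z hz => (h k).bound hb hR7 hx₂ (hxs k) hUFW hz) 𝒰
  refine ⟨fun z => Φ z + z, hΦd.add differentiableOn_id, ?_⟩
  rw [Metric.tendstoLocallyUniformlyOn_iff] at hΦ ⊢
  intro ε hε z hz
  obtain ⟨t, ht, ht'⟩ := hΦ ε hε z hz
  refine ⟨t, ht, ?_⟩
  filter_upwards [ht'] with k hk y hy
  have h1 := hk y hy
  rw [dist_eq_norm] at h1 ⊢
  have e : Φ y + y - Ψs k y = Φ y - (Ψs k y - y) := by ring
  rw [e]
  exact h1

/-- iterates are nowhere locally constant -/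
theorem iter_nonconst (hb : BO a n B R C₁ R₁ R₃ ψ φ) (hx : x ∈ ball (0 : PE n) B) (N : ℕ) (z : ℂ) :
    ¬ ∀ᶠ y in 𝓝 z, (fx a n x)^[N] y = (fx a n x)^[N] z := by
  intro h
  have hd : Differentiable ℂ ((fx a n x)^[N]) := (RL_diff a n x).iterate N
  have h1 : AnalyticOnNhd ℂ ((fx a n x)^[N]) univ :=
    hd.differentiableOn.analyticOnNhd isOpen_univ
  have h2 := h1.eq_of_eventuallyEq (g := fun _ => (fx a n x)^[N] z) (z₀ := z)
    analyticOnNhd_const h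
  set c : ℝ := max R (‖(fx a n x)^[N] z‖ + 1) with hc
  have hc1 : R ≤ c := le_max_left _ _
  have hc2 : ‖(fx a n x)^[N] z‖ + 1 ≤ c := le_max_right _ _
  have hc0 : 0 ≤ c := by linarith [hb.hR]
  have hcn : ‖(c : ℂ)‖ = c := by rw [Complex.norm_real, Real.norm_eq_abs, abs_of_nonneg hc0]
  have h3 := RL_esc hb (mem_ball_zero_iff.1 hx).le (z := (c : ℂ)) (by rw [hcn]; exact hc1) N
  rw [congrFun h2 (c : ℂ), hcn] at h3
  have h4 : (1 : ℝ) ≤ 2 ^ N := one_le_pow₀ (by norm_num)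
  nlinarith

theorem tends {l : Filter ℕ} {F : PE n → ℂ → ℂ} {z : ℂ} {xs : ℕ → PE n} {zs : ℕ → ℂ}
    (hF : ContinuousAt (fun y : PE n × ℂ => F y.1 y.2) (x, z)) (hx : Tendsto xs l (𝓝 x))
    (hz : Tendsto zs l (𝓝 z)) : Tendsto (fun k => F (xs k) (zs k)) l (𝓝 (F x z)) := by
  have h1 : Tendsto (fun k => (xs k, zs k)) l (𝓝 (x, z)) := hx.prodMk_nhds hz
  exact hF.tendsto.comp h1

theorem iterW (hUi : ∀ z ∈ UF n R₃ R₇ φ x₂ ∪ US a n P Es rf r' τ x₂,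
      fx a n x₂ z ∈ UF n R₃ R₇ φ x₂ ∪ US a n P Es rf r' τ x₂) {z : ℂ}
    (hz : z ∈ (BN a n P R₃ R₇ φ Es rf r' τ N x₂)ᶜ) :
    fx a n x₂ z ∈ (BN a n P R₃ R₇ φ Es rf r' τ N x₂)ᶜ := by
  rw [BN_compl] at hz ⊢
  rw [← Function.iterate_succ_apply, Function.iterate_succ_apply']
  exact hUi _ hz

theorem U_sub_W (hUi : ∀ z ∈ UF n R₃ R₇ φ x₂ ∪ US a n P Es rf r' τ x₂,
      fx a n x₂ z ∈ UF n R₃ R₇ φ x₂ ∪ US a n P Es rf r' τ x₂) :
    UF n R₃ R₇ φ x₂ ∪ US a n P Es rf r' τ x₂ ⊆ (BN a n P R₃ R₇ φ Es rf r' τ N x₂)ᶜ := by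
  intro z hz
  rw [BN_compl]
  induction N with
  | zero => exact hz
  | succ k ih => rw [Function.iterate_succ_apply']; exact hUi _ ih

/-- Limits of conjugacies are conjugacies. -/
theorem BX_limit (H : HH) (ha : a ≠ 0) (hn : 1 ≤ n) (hP : 0 < P)
    (hb : BO a n B R C₁ R₁ R₃ ψ φ) (hR7 : R₃ + C₁ ≤ R₇)
    (hKL : KL a n P B lam₀ lam₁ r₁ r₂) (hr' : 0 < r') (hr'₁ : r' < r₁)
    (hx₂ : SF a n P B lam₀ lam₁ Es x₂) (hx : SF a n P B lam₀ lam₁ Es x)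
    (hWo : IsOpen (BN a n P R₃ R₇ φ Es rf r' τ N x₂)ᶜ)
    (hUi : ∀ z ∈ UF n R₃ R₇ φ x₂ ∪ US a n P Es rf r' τ x₂,
      fx a n x₂ z ∈ UF n R₃ R₇ φ x₂ ∪ US a n P Es rf r' τ x₂)
    (hτ : ∀ i ∈ Es, ∀ b ≤ P, τ * ‖KP (fx a n x) P ((fx a n x)^[b] (x (some i)))‖ <
      min r₂ (r' / 4)) {xs : ℕ → PE n} {Ψs : ℕ → ℂ → ℂ} {l : Filter ℕ} [l.NeBot]
    (hlim : Tendsto xs l (𝓝 x))
    (h : ∀ k, BX a n P R₃ R₇ ψ φ Es rf r' τ N x₂ (xs k) (Ψs k)) {Ψ : ℂ → ℂ}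
    (hΨd : DifferentiableOn ℂ Ψ (BN a n P R₃ R₇ φ Es rf r' τ N x₂)ᶜ)
    (hΨ : TendstoLocallyUniformlyOn Ψs Ψ l (BN a n P R₃ R₇ φ Es rf r' τ N x₂)ᶜ) :
    BX a n P R₃ R₇ ψ φ Es rf r' τ N x₂ x Ψ := by
  have hxB := hx.xB
  have k1 := hb.hR; have k2 := hb.hC; have k3 := hb.hR₁; have k4 := hb.hR₃
  obtain ⟨hATo, hSPd, hLPd, hA0o⟩ := H.ko1 H.ko0 a n P ha hn hP
  obtain ⟨hKPd, hKPp⟩ := H.ko2 H.ko0 H.ko1 H.ko3 a n P ha hn hP
  set W : Set ℂ := (BN a n P R₃ R₇ φ Es rf r' τ N x₂)ᶜ with hW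
  have hUW : UF n R₃ R₇ φ x₂ ∪ US a n P Es rf r' τ x₂ ⊆ W := U_sub_W hUi
  have hpt : ∀ z ∈ W, Tendsto (fun k => Ψs k z) l (𝓝 (Ψ z)) := fun z hz => hΨ.tendsto_at hz
  have hKPc : ∀ z : ℂ, (x, z) ∈ A0 a n P →
      ContinuousAt (fun y : PE n × ℂ => KP (fx a n y.1) P y.2) (x, z) := fun z hz =>
    hKPd.continuousOn.continuousAt (hA0o.mem_nhds hz)
  have hitc : ∀ b : ℕ, ∀ z : ℂ, ContinuousAt (fun y : PE n × ℂ => (fx a n y.1)^[b] y.2) (x, z) :=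
    fun b z => (contDiff_fx a n b).continuous.continuousAt
  have hci : ∀ i : Fin n, Tendsto (fun k => (xs k) (some i)) l (𝓝 (x (some i))) := fun i =>
    ((continuous_apply (some i)).tendsto x).comp hlim
  have hSPk : ∀ i ∈ Es, ∀ b : ℕ, Tendsto
      (fun k => (fx a n (xs k))^[b] (SP (fx a n (xs k)) P ((xs k) (some i)))) l
      (𝓝 ((fx a n x)^[b] (SP (fx a n x) P (x (some i))))) := by
    intro i hi b
    have h1 : ContinuousAt (fun y : PE n × ℂ => SP (fx a n y.1) P y.2) (x, x (some i)) :=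
      hSPd.continuousOn.continuousAt (hATo.mem_nhds (hx.A i hi).1)
    exact tends (F := fun x z => (fx a n x)^[b] z) (hitc b _) hlim
      (tends (F := fun x z => SP (fx a n x) P z) h1 hlim (hci i))
  have hKPk : ∀ i ∈ Es, ∀ b : ℕ, Tendsto
      (fun k => KP (fx a n (xs k)) P ((fx a n (xs k))^[b] ((xs k) (some i)))) l
      (𝓝 (KP (fx a n x) P ((fx a n x)^[b] (x (some i))))) := by
    intro i hi b
    exact tends (F := fun x z => KP (fx a n x) P z) (hKPc _ (hx.sink H ha hn hP hi b).1) hlim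
      (tends (F := fun x z => (fx a n x)^[b] z) (hitc b _) hlim (hci i))
  -- the far part
  have hfar : ∀ z ∈ UF n R₃ R₇ φ x₂, Ψ z = ψ (x, φ (x₂, z)) := by
    intro z hz
    have hw := φ_norm hb hx₂.xB hz.1
    have hop : IsOpen (ball (0 : PE n) B ×ˢ {w : ℂ | R₁ < ‖w‖}) :=
      isOpen_ball.prod (isOpen_lt continuous_const continuous_norm)
    have hψc : ContinuousAt ψ (x, φ (x₂, z)) :=
      (hb.ψd.continuousOn).continuousAt (hop.mem_nhds ⟨hxB, hw⟩)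
    have h1 : Tendsto (fun k => ψ (xs k, φ (x₂, z))) l (𝓝 (ψ (x, φ (x₂, z)))) :=
      tends (F := fun x z => ψ (x, z)) hψc hlim tendsto_const_nhds
    have h2 := hpt z (hUW (Or.inl hz))
    have h3 : (fun k => Ψs k z) = fun k => ψ (xs k, φ (x₂, z)) := by
      funext k
      exact (h k).far z hz
    rw [h3] at h2
    exact tendsto_nhds_unique h2 h1
  -- the conjugacy
  have hcnj : ∀ z ∈ W, fx a n x (Ψ z) = Ψ (fx a n x₂ z) := by
    intro z hz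
    have h1 : Tendsto (fun k => (fx a n (xs k))^[1] (Ψs k z)) l (𝓝 ((fx a n x)^[1] (Ψ z))) :=
      tends (F := fun x z => (fx a n x)^[1] z) (hitc 1 _) hlim (hpt z hz)
    have h2 := hpt _ (iterW hUi hz)
    have h3 : (fun k => (fx a n (xs k))^[1] (Ψs k z)) = fun k => Ψs k (fx a n x₂ z) := by
      funext k
      exact (h k).cnj z hz
    rw [h3] at h1
    exact tendsto_nhds_unique h1 h2
  -- near the sinks, weak form
  have hweak : ∀ i ∈ Es, rf i = i → ∀ b < P, ∀ z ∈ US a n P Es rf r' τ x₂,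
      ‖z - (fx a n x₂)^[b] (SP (fx a n x₂) P (x₂ (some i)))‖ < r' →
      7 / 8 * ‖Ψ z - (fx a n x)^[b] (SP (fx a n x) P (x (some i)))‖ ≤ ‖KP (fx a n x) P (Ψ z)‖ ∧
      KP (fx a n x) P (Ψ z) * KP (fx a n x₂) P ((fx a n x₂)^[b] (x₂ (some i))) =
        KP (fx a n x₂) P z * KP (fx a n x) P ((fx a n x)^[b] (x (some i))) := by
    intro i hi hri b hb' z hz hzb
    have hzW : z ∈ W := hUW (Or.inr hz)
    have h1 : Tendsto (fun k => ‖Ψs k z -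
        (fx a n (xs k))^[b] (SP (fx a n (xs k)) P ((xs k) (some i)))‖) l
        (𝓝 ‖Ψ z - (fx a n x)^[b] (SP (fx a n x) P (x (some i)))‖) :=
      ((hpt z hzW).sub (hSPk i hi b)).norm
    have h2 : ‖Ψ z - (fx a n x)^[b] (SP (fx a n x) P (x (some i)))‖ ≤ r' :=
      le_of_tendsto h1 (Eventually.of_forall fun k => ((h k).sik i hi hri b hb' z hz hzb).1.le)
    obtain ⟨h3, h4⟩ := hx.near H ha hn hP hKL hi b (z := Ψ z) (by linarith)
    refine ⟨h4, ?_⟩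
    have h5 : Tendsto (fun k => KP (fx a n (xs k)) P (Ψs k z) *
        KP (fx a n x₂) P ((fx a n x₂)^[b] (x₂ (some i)))) l (𝓝 (KP (fx a n x) P (Ψ z) *
        KP (fx a n x₂) P ((fx a n x₂)^[b] (x₂ (some i))))) :=
      (tends (F := fun x z => KP (fx a n x) P z) (hKPc _ h3) hlim (hpt z hzW)).mul_const _
    have h6 : Tendsto (fun k => KP (fx a n x₂) P z *
        KP (fx a n (xs k)) P ((fx a n (xs k))^[b] ((xs k) (some i)))) l
        (𝓝 (KP (fx a n x₂) P z * KP (fx a n x) P ((fx a n x)^[b] (x (some i))))) :=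
      (hKPk i hi b).const_mul _
    have h7 : (fun k => KP (fx a n (xs k)) P (Ψs k z) *
        KP (fx a n x₂) P ((fx a n x₂)^[b] (x₂ (some i)))) = fun k => KP (fx a n x₂) P z *
        KP (fx a n (xs k)) P ((fx a n (xs k))^[b] ((xs k) (some i))) := by
      funext k
      exact ((h k).sik i hi hri b hb' z hz hzb).2
    rw [h7] at h5
    exact tendsto_nhds_unique h5 h6
  have hsmall : ∀ z ∈ US a n P Es rf r' τ x₂, ‖KP (fx a n x) P (Ψ z)‖ < r' / 4 := by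
    intro z hz
    have hz' := hz
    obtain ⟨i, hi, hri, b, hb', h1, h2⟩ := hz
    obtain ⟨-, h4⟩ := hweak i hi hri b hb' z hz' h1
    have h5 : 0 < ‖KP (fx a n x₂) P ((fx a n x₂)^[b] (x₂ (some i)))‖ :=
      norm_pos_iff.2 (hx₂.sink H ha hn hP hi b).2.2.2.2.2
    have h6 : 0 < ‖KP (fx a n x) P ((fx a n x)^[b] (x (some i)))‖ :=
      norm_pos_iff.2 (hx.sink H ha hn hP hi b).2.2.2.2.2
    have h7 := congrArg norm h4
    rw [norm_mul, norm_mul] at h7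
    have h8 : ‖KP (fx a n x) P (Ψ z)‖ < τ * ‖KP (fx a n x) P ((fx a n x)^[b] (x (some i)))‖ := by
      refine lt_of_mul_lt_mul_right ?_ h5.le
      rw [h7]
      calc ‖KP (fx a n x₂) P z‖ * ‖KP (fx a n x) P ((fx a n x)^[b] (x (some i)))‖ <
            (τ * ‖KP (fx a n x₂) P ((fx a n x₂)^[b] (x₂ (some i)))‖) *
              ‖KP (fx a n x) P ((fx a n x)^[b] (x (some i)))‖ :=
            mul_lt_mul_of_pos_right h2 h6
        _ = _ := by ring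
    exact h8.trans ((hτ i hi b hb'.le).trans_le (min_le_right _ _))
  have hsik : SRel a n P Es rf r' τ x₂ x Ψ := by
    intro i hi hri b hb' z hz hzb
    obtain ⟨h1, h2⟩ := hweak i hi hri b hb' z hz hzb
    refine ⟨?_, h2⟩
    have := hsmall z hz
    linarith
  -- the image
  have hiter : ∀ (m : ℕ), ∀ z ∈ W, (fx a n x)^[m] (Ψ z) = Ψ ((fx a n x₂)^[m] z) ∧
      (fx a n x₂)^[m] z ∈ W := by
    intro m z hz
    induction m with
    | zero => exact ⟨rfl, hz⟩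
    | succ m ih =>
      rw [Function.iterate_succ_apply', Function.iterate_succ_apply', ih.1, hcnj _ ih.2]
      exact ⟨rfl, iterW hUi ih.2⟩
  have hkne : ∀ i ∈ Es, ∀ b < P, KP (fx a n x) P ((fx a n x)^[b] (x (some i))) ≠ 0 :=
    fun i hi b _ => (hx.sink H ha hn hP hi b).2.2.2.2.2
  -- the limit is not constant
  have hnc : ∀ z ∈ W, ¬ ∀ᶠ y in 𝓝 z, Ψ y = Ψ z := by
    intro z hz hcon
    set g : ℂ → ℂ := (fx a n x₂)^[N] with hg
    have hgd : Differentiable ℂ g := (RL_diff a n x₂).iterate N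
    have hga : AnalyticAt ℂ g z := hgd.analyticAt z
    have hmap := (hga.eventually_constant_or_nhds_le_map_nhds).resolve_left
      (iter_nonconst hb hx₂.xB N z)
    have hgz := BN_compl.1 hz
    -- constancy near the image
    have h1 : ∀ᶠ u in 𝓝 (g z), Ψ u = Ψ (g z) := by
      apply hmap
      rw [Filter.mem_map]
      filter_upwards [hcon, hWo.mem_nhds hz] with y hy hyW
      show Ψ (g y) = Ψ (g z)
      rw [← (hiter N y hyW).1, ← (hiter N z hz).1, hy]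
    rcases hgz with hgz | hgz
    · -- far part
      have hUo : ∀ᶠ u in 𝓝 (g z), u ∈ UF n R₃ R₇ φ x₂ := by
        have e1 : IsOpen {z : ℂ | R₃ < ‖z‖} := isOpen_lt continuous_const continuous_norm
        have hφd : DifferentiableOn ℂ (fun z : ℂ => φ (x₂, z)) {z : ℂ | R₃ < ‖z‖} :=
          hb.φd.comp (by fun_prop) (fun z hz => ⟨hx₂.xB, hz⟩)
        have e2 := hφd.continuousOn.isOpen_inter_preimage e1
          (isOpen_lt continuous_const continuous_norm : IsOpen {w : ℂ | R₇ < ‖w‖})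
        exact e2.mem_nhds hgz
      have h2 : ∀ᶠ u in 𝓝 (g z), u = g z := by
        filter_upwards [h1, hUo] with u hu huU
        rw [hfar u huU, hfar _ hgz] at hu
        have h3 := hb.ψi x hxB (φ_norm hb hx₂.xB huU.1) (φ_norm hb hx₂.xB hgz.1) hu
        rw [← hb.ψφ x₂ hx₂.xB u huU.1, h3, hb.ψφ x₂ hx₂.xB _ hgz.1]
      have h4 : ∀ᶠ u in 𝓝[≠] (g z), u = g z := nhdsWithin_le_nhds h2
      obtain ⟨u, hu1, hu2⟩ := (h4.and self_mem_nhdsWithin).exists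
      exact hu2 hu1
    · -- near the sinks
      have hgz' := hgz
      obtain ⟨i, hi, hri, b, hb', m1, m2⟩ := hgz
      obtain ⟨-, s2, s3, s4, -, -⟩ := hx₂.sink H ha hn hP hi b
      have hA : (x₂, g z) ∈ A0 a n P := (hx₂.near H ha hn hP hKL hi b (by linarith)).1
      have hKc : ContinuousAt (fun u : ℂ => KP (fx a n x₂) P u) (g z) := by
        have hc := hKPd.continuousOn.continuousAt (hA0o.mem_nhds hA)
        exact ContinuousAt.comp (x := g z) (f := fun u : ℂ => ((x₂, u) : PE n × ℂ)) hc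
          (by fun_prop)
      have e1 : ∀ᶠ u in 𝓝 (g z),
          ‖u - (fx a n x₂)^[b] (SP (fx a n x₂) P (x₂ (some i)))‖ < r' :=
        (continuousAt_id.sub continuousAt_const).norm.eventually (gt_mem_nhds m1)
      have e2 : ∀ᶠ u in 𝓝 (g z), ‖KP (fx a n x₂) P u‖ <
          τ * ‖KP (fx a n x₂) P ((fx a n x₂)^[b] (x₂ (some i)))‖ :=
        hKc.norm.eventually (gt_mem_nhds m2)
      have h2 : ∀ᶠ u in 𝓝 (g z), u = g z := by
        filter_upwards [h1, e1, e2] with u hu hu1 hu2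
        have huU : u ∈ US a n P Es rf r' τ x₂ := ⟨i, hi, hri, b, hb', hu1, hu2⟩
        have r1' := (hsik i hi hri b hb' u huU hu1).2
        have r2' := (hsik i hi hri b hb' (g z) hgz' m1).2
        rw [hu] at r1'
        have r3 : KP (fx a n x₂) P u = KP (fx a n x₂) P (g z) :=
          mul_right_cancel₀ (hkne i hi b hb') (r1'.symm.trans r2')
        have r4 := hKL.close x₂ hx₂.xB _ s2 s3 s4 u
          (by rw [mem_ball, dist_eq_norm]; linarith) (g z)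
          (by rw [mem_ball, dist_eq_norm]; linarith)
        rw [r3, sub_self, zero_sub, norm_neg] at r4
        have r5 : ‖u - g z‖ = 0 := by
          have := norm_nonneg (u - g z)
          linarith
        exact sub_eq_zero.1 (norm_eq_zero.1 r5)
      have h4 : ∀ᶠ u in 𝓝[≠] (g z), u = g z := nhdsWithin_le_nhds h2
      obtain ⟨u, hu1, hu2⟩ := (h4.and self_mem_nhdsWithin).exists
      exact hu2 hu1
  refine ⟨hΨd, ?_, ?_, hcnj, hfar, hsik⟩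
  · -- injectivity
    intro z hz z' hz' he
    by_contra hne
    obtain ⟨B₁, B₂, hB₁, hB₂, hdis⟩ := t2_separation_nhds hne
    obtain ⟨V₁, hV₁, hc₁⟩ := Pool.Agent.Helper114.Montel.hurwitz_cover (l := l) hWo Ψs Ψ
      (fun k => (h k).hol) hΨ hz (hnc z hz) (Filter.inter_mem hB₁ (hWo.mem_nhds hz))
    obtain ⟨V₂, hV₂, hc₂⟩ := Pool.Agent.Helper114.Montel.hurwitz_cover (l := l) hWo Ψs Ψ
      (fun k => (h k).hol) hΨ hz' (hnc z' hz') (Filter.inter_mem hB₂ (hWo.mem_nhds hz'))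
    obtain ⟨k, hk1, hk2⟩ := (hc₁.and hc₂).exists
    have hw1 : Ψ z ∈ V₁ := mem_of_mem_nhds hV₁
    have hw2 : Ψ z ∈ V₂ := by rw [he]; exact mem_of_mem_nhds hV₂
    obtain ⟨y₁, ⟨hy₁, hy₁W⟩, hy₁e⟩ := hk1 hw1
    obtain ⟨y₂, ⟨hy₂, hy₂W⟩, hy₂e⟩ := hk2 hw2
    have h5 := (h k).inj hy₁W hy₂W (hy₁e.trans hy₂e.symm)
    rw [h5] at hy₁
    exact Set.disjoint_left.1 hdis hy₁ hy₂
  · intro z hz
    rw [BN_compl, (hiter N z hz).1]
    rcases BN_compl.1 hz with h1 | h1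
    · left
      rw [hfar _ h1]
      exact (UF_map hb hR7 hxB h1).1
    · right
      exact SRel.map_US hsik hkne h1

end

end Pool.Agent.H20.JL
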