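import Mathlib
import Pool.Agent.H20.JL.Opn
import Pool.Agent.H20.JL.Clo

/-! # Closeness of the parameters; lower semicontinuity -/

set_option autoImplicit false

open Topology Filter Metric Set Polynomial MeasureTheory
open Pool.Agent.H713R3.ZA Pool.Agent.H713R5.QJ
open Pool.Agent.H713R2 (tc)

namespace Pool.Agent.H20.JL

theorem Dl_tri (a : ℂ) (n : ℕ) (x y z : PE n) :
    Dl a n x z ≤ 2 * Dl a n x y + 2 * Dl a n y z := by
  unfold Dl
  rw [Finset.mul_sum, Finset.mul_sum, ← Finset.sum_add_distrib]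
  apply Finset.sum_le_sum
  intro j _
  have h1 : (fam a n z).coeff j - (fam a n x).coeff j =
      ((fam a n y).coeff j - (fam a n x).coeff j) + ((fam a n z).coeff j - (fam a n y).coeff j) := by
    ring
  have h2 := norm_add_le ((fam a n y).coeff j - (fam a n x).coeff j)
    ((fam a n z).coeff j - (fam a n y).coeff j)
  rw [h1]
  have h3 := norm_nonneg (((fam a n y).coeff j - (fam a n x).coeff j) +
    ((fam a n z).coeff j - (fam a n y).coeff j))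
  nlinarith [sq_nonneg (‖(fam a n y).coeff j - (fam a n x).coeff j‖ -
    ‖(fam a n z).coeff j - (fam a n y).coeff j‖)]

/-- The coefficients of the conjugacy at infinity control the distance of the parameters. -/
theorem BX_close (H : HH) {a : ℂ} {n : ℕ} {B R C₁ R₁ R₃ : ℝ} {ψ φ : PE n × ℂ → ℂ} (ha : a ≠ 0)
    (hn : 1 ≤ n) (hb : BO a n B R C₁ R₁ R₃ ψ φ) :
    ∃ C : ℝ, 0 < C ∧ ∀ R₇ : ℝ, R₃ + C₁ ≤ R₇ → ∀ (P N : ℕ) (Es : Finset (Fin n))
      (rf : Fin n → Fin n) (r' τ qa qb qc qe ε : ℝ), R₇ + C₁ < qa → qa < qb → qb < qc → qc < qe →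
      0 < ε → ∀ x₂ ∈ ball (0 : PE n) B, IsOpen (BN a n P R₃ R₇ φ Es rf r' τ N x₂)ᶜ →
      UF n R₃ R₇ φ x₂ ⊆ (BN a n P R₃ R₇ φ Es rf r' τ N x₂)ᶜ → ∀ x ∈ ball (0 : PE n) B,
      (fam a n x).coeff n = (fam a n x₂).coeff n → ∀ Ψ : ℂ → ℂ,
      BX a n P R₃ R₇ ψ φ Es rf r' τ N x₂ x Ψ →
      (∀ j ∈ Finset.Icc 1 (2 * n), ‖bet qa qb qc qe ε Ψ j‖ ≤ 1) → Dl a n x₂ x ≤ C * ε ^ 2 := by
  have k1 := hb.hR; have k2 := hb.hC; have k3 := hb.hR₁; have k4 := hb.hR₃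
  obtain ⟨A, -, hA⟩ := exists_coeff_bound a n B
  have hR₃0 : 0 < R₃ := by linarith
  obtain ⟨C, hC, hclo⟩ := closeF ha hn hb hA (ρM := R₃ + 1) (by linarith)
  refine ⟨((n : ℝ) + 2) * C ^ 2, by positivity, ?_⟩
  intro R₇ hR7 P N Es rf r' τ qa qb qc qe ε hqa hqab hqbc hqce hε x₂ hx₂ hWo hUW x hx hcf Ψ hΨ hβ
  have hF : DifferentiableOn ℂ (fun z : ℂ => ψ (x, φ (x₂, z))) {z : ℂ | R₃ < ‖z‖} := by
    have h1 : DifferentiableOn ℂ (fun z : ℂ => φ (x₂, z)) {z : ℂ | R₃ < ‖z‖} :=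
      hb.φd.comp (by fun_prop) (fun z hz => ⟨hx₂, hz⟩)
    have h2 : DifferentiableOn ℂ (fun z : ℂ => ((x, φ (x₂, z)) : PE n × ℂ)) {z : ℂ | R₃ < ‖z‖} :=
      (differentiableOn_const x).prodMk h1
    exact hb.ψd.comp h2 (fun z hz => ⟨hx, φ_norm hb hx₂ hz⟩)
  obtain ⟨G, hG⟩ := exists_Inf hR₃0 hF (H.asyp a n B R C₁ R₁ R₃ ψ φ ha hn hb x₂ hx₂ x hx hcf.symm)
  have hs' : 0 < (R₇ + C₁)⁻¹ := inv_pos.2 (by linarith)
  have hG' : Inf Ψ (R₇ + C₁)⁻¹ G := by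
    refine hG.congr hs' ((inv_le_inv₀ (by linarith) hR₃0).2 (by linarith)) ?_
    intro z hz
    rw [inv_inv] at hz
    exact hΨ.far z (big_UF hb hR7 hx₂ hz)
  have hqa0 : 0 < qa := by linarith
  have hco : ∀ k < 2 * n, ‖tc G (k + 2)‖ ≤ ε := by
    intro k hk
    have hk' : k + 1 ∈ Finset.Icc 1 (2 * n) := Finset.mem_Icc.2 ⟨by omega, by omega⟩
    have h1 := hβ _ hk'
    rw [bet_eq hWo hΨ.hol hΨ.inj hG' (fun z hz => hUW (big_UF hb hR7 hx₂ (by rwa [inv_inv] at hz)))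
      (by rw [inv_inv]; exact hqa) hqab hqbc hqce hε (by omega), norm_div, Complex.norm_real,
      Real.norm_eq_abs, abs_of_pos hε, div_le_one hε] at h1
    exact h1
  have h1 := hclo x hx x₂ hx₂ hcf R₃⁻¹ G hG ((inv_lt_inv₀ (by linarith) hR₃0).2 (by linarith)) ε
    hε.le hco
  unfold Dl
  calc ∑ j ∈ Finset.range (n + 1 + 1), ‖(fam a n x).coeff j - (fam a n x₂).coeff j‖ ^ 2 ≤
      ∑ j ∈ Finset.range (n + 1 + 1), (C * ε) ^ 2 := by
        apply Finset.sum_le_sum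
        intro j _
        exact pow_le_pow_left₀ (norm_nonneg _) (h1 j) 2
    _ = ((n : ℝ) + 2) * C ^ 2 * ε ^ 2 := by
        rw [Finset.sum_const, Finset.card_range, nsmul_eq_mul]
        push_cast
        ring

/-- lower semicontinuous functions along convergent sequences -/
theorem lsc_le {V ι : Type} [TopologicalSpace V] {g : V → ℝ} {L : Set V}
    (hg : LowerSemicontinuousOn g L) {x : V} (hx : x ∈ L) {l : Filter ι} [l.NeBot] {xs : ι → V}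
    (hxs : Tendsto xs l (𝓝 x)) (hL : ∀ k, xs k ∈ L) {U : ι → ℝ} {u : ℝ}
    (hU : ∀ k, g (xs k) ≤ U k) (hu : Tendsto U l (𝓝 u)) : g x ≤ u := by
  by_contra hcon
  rw [not_le] at hcon
  obtain ⟨y, hy1, hy2⟩ := exists_between hcon
  have h1 : ∀ᶠ k in l, y < g (xs k) := by
    have h2 := hg x hx y hy2
    have h3 : Tendsto xs l (𝓝[L] x) := tendsto_nhdsWithin_iff.2 ⟨hxs, Eventually.of_forall hL⟩
    exact h3.eventually h2
  have h2 : ∀ᶠ k in l, U k < y := hu.eventually (gt_mem_nhds hy1)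
  obtain ⟨k, hk1, hk2⟩ := (h1.and h2).exists
  have := hU k
  linarith

end Pool.Agent.H20.JL
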