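import Mathlib
import Pool.Agent.H20.JL.Near

/-! # Existence of the minimum, contradiction at the minimum -/

set_option autoImplicit false

open Topology Filter Metric Set Polynomial MeasureTheory
open Pool.Agent.H713R3.ZA Pool.Agent.H713R5.QJ

namespace Pool.Agent.H20.JL

/-- the space of states -/
def ST (a : ℂ) (n P : ℕ) (R₃ R₇ : ℝ) (ψ φ : PE n × ℂ → ℂ) (Es : Finset (Fin n))
    (rf : Fin n → Fin n) (r' τ : ℝ) (N : ℕ) (x₂ : PE n) (L : Set (PE n)) (f : PE n → ℂ)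
    (qa qb qc qe ε : ℝ) : Set (PE n × (ℂ → ℂ)) :=
  {σ | σ.1 ∈ L ∧ (fam a n σ.1).coeff n = (fam a n x₂).coeff n ∧ f σ.1 ≠ 0 ∧
    BX a n P R₃ R₇ ψ φ Es rf r' τ N x₂ σ.1 σ.2 ∧
    ∀ j ∈ Finset.Icc 1 (2 * n), ‖bet qa qb qc qe ε σ.2 j‖ ≤ 1}

/-- the energy -/
noncomputable def EY (a : ℂ) (n P : ℕ) (R₃ R₇ : ℝ) (φ : PE n × ℂ → ℂ) (Es : Finset (Fin n))
    (rf : Fin n → Fin n) (r' τ : ℝ) (N : ℕ) (f : PE n → ℂ) (qa qb qc qe ε δ : ℝ) (w : ℂ → ℂ)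
    (u : ℕ → ℂ → ℂ) (x : PE n) (Ψ : ℂ → ℂ) : ℝ :=
  (volume (BN a n P R₃ R₇ φ Es rf r' τ N x)).toReal +
    ((FN qa qb qc qe ε (2 * n) w u Ψ).re - δ * Real.log ‖f x‖)

section
variable {a : ℂ} {n P N : ℕ} {B R C₁ R₁ R₃ R₇ lam₀ lam₁ r₁ r₂ r' τ : ℝ} {ψ φ : PE n × ℂ → ℂ}
  {Es : Finset (Fin n)} {rf : Fin n → Fin n} {x₁ x₂ p : PE n} {L : Set (PE n)} {f : PE n → ℂ}
  {qa qb qc qe ε δ : ℝ} {w : ℂ → ℂ} {u : ℕ → ℂ → ℂ} {a₁ n₀ n₁ : ℝ}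

theorem min_exists (H : HH) (ha : a ≠ 0) (hn : 1 ≤ n) (hP : 0 < P)
    (hb : BO a n B R C₁ R₁ R₃ ψ φ) (hR7 : R₃ + C₁ ≤ R₇)
    (hKL : KL a n P B lam₀ lam₁ r₁ r₂) (hr' : 0 < r') (hr'₁ : r' < r₁)
    (hx₂ : SF a n P B lam₀ lam₁ Es x₂)
    (hWo : IsOpen (BN a n P R₃ R₇ φ Es rf r' τ N x₂)ᶜ)
    (hUi : ∀ z ∈ UF n R₃ R₇ φ x₂ ∪ US a n P Es rf r' τ x₂,
      fx a n x₂ z ∈ UF n R₃ R₇ φ x₂ ∪ US a n P Es rf r' τ x₂)
    (hqa : R₇ + C₁ < qa) (hqab : qa < qb) (hqbc : qb < qc) (hqce : qc < qe) (hε : 0 < ε)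
    (hw : Ts (BN a n P R₃ R₇ φ Es rf r' τ N x₂)ᶜ w)
    (hu : ∀ j, Ts (BN a n P R₃ R₇ φ Es rf r' τ N x₂)ᶜ (u j))
    (hLc : IsCompact L) (hLB : ∀ x ∈ L, x ∈ ball (0 : PE n) B) (hx₂L : x₂ ∈ L)
    (hfc : ContinuousOn f L) (hfx₂ : f x₂ ≠ 0)
    (hlsc : LowerSemicontinuousOn
      (fun x => (volume (BN a n P R₃ R₇ φ Es rf r' τ N x)).toReal) L)
    (hgood : ∀ x ∈ L, f x ≠ 0 → Dl a n x₁ x < n₀ →
      (volume (BN a n P R₃ R₇ φ Es rf r' τ N x)).toReal < a₁ → SF a n P B lam₀ lam₁ Es x ∧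
      ∀ i ∈ Es, ∀ b ≤ P, τ * ‖KP (fx a n x) P ((fx a n x)^[b] (x (some i)))‖ < min r₂ (r' / 4))
    (hn₁ : n₁ < n₀)
    (hcl : ∀ (x : PE n) (Ψ : ℂ → ℂ),
      (x, Ψ) ∈ ST a n P R₃ R₇ ψ φ Es rf r' τ N x₂ L f qa qb qc qe ε → Dl a n x₁ x ≤ n₁)
    (hδ : 0 < δ)
    (hE : ∀ x ∈ L, f x ≠ 0 → EY a n P R₃ R₇ φ Es rf r' τ N f qa qb qc qe ε δ w u x₂ (fun z => z) +
      δ * Real.log ‖f x‖ < a₁) :
    ∃ (p : PE n) (Ψ : ℂ → ℂ), (p, Ψ) ∈ ST a n P R₃ R₇ ψ φ Es rf r' τ N x₂ L f qa qb qc qe ε ∧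
      ∀ (y : PE n) (Φ : ℂ → ℂ), (y, Φ) ∈ ST a n P R₃ R₇ ψ φ Es rf r' τ N x₂ L f qa qb qc qe ε →
        EY a n P R₃ R₇ φ Es rf r' τ N f qa qb qc qe ε δ w u p Ψ ≤
          EY a n P R₃ R₇ φ Es rf r' τ N f qa qb qc qe ε δ w u y Φ := by
  have k1 := hb.hR; have k2 := hb.hC; have k3 := hb.hR₁; have k4 := hb.hR₃
  set W : Set ℂ := (BN a n P R₃ R₇ φ Es rf r' τ N x₂)ᶜ with hW
  set S := ST a n P R₃ R₇ ψ φ Es rf r' τ N x₂ L f qa qb qc qe ε with hS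
  set E : PE n × (ℂ → ℂ) → ℝ := fun σ =>
    EY a n P R₃ R₇ φ Es rf r' τ N f qa qb qc qe ε δ w u σ.1 σ.2 with hEdef
  have hUW : UF n R₃ R₇ φ x₂ ∪ US a n P Es rf r' τ x₂ ⊆ W := U_sub_W hUi
  have hUFW : UF n R₃ R₇ φ x₂ ⊆ W := fun z hz => hUW (Or.inl hz)
  have hqa0 : 0 < qa := by linarith
  have hWa : ∀ z : ℂ, qa ≤ ‖z‖ → z ∈ W := fun z hz =>
    hUFW (big_UF hb hR7 hx₂.xB (by linarith))
  have hFNge : ∀ σ ∈ S, 0 ≤ (FN qa qb qc qe ε (2 * n) w u σ.2).re := fun σ hσ =>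
    (FN_ge hWo hσ.2.2.2.1.hol hσ.2.2.2.1.inj hWa hqa0 hqab hqbc hqce hε hw hu hσ.2.2.2.2).1
  have hσ₂ : (x₂, fun z : ℂ => z) ∈ S := by
    refine ⟨hx₂L, rfl, hfx₂, BX_id hb hx₂.xB, ?_⟩
    intro j hj
    show ‖bet qa qb qc qe ε (fun z : ℂ => z) j‖ ≤ 1
    rw [bet_id hqa0 hqab hqbc hqce hε (Finset.mem_Icc.1 hj).1, norm_zero]
    exact zero_le_one
  -- bound of `f`
  obtain ⟨Mf, hMf⟩ := hLc.exists_bound_of_continuousOn hfc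
  have hlog : ∀ x ∈ L, f x ≠ 0 → Real.log ‖f x‖ ≤ |Mf| := by
    intro x hx hfx
    have h1 : 0 < ‖f x‖ := norm_pos_iff.2 hfx
    have h2 := Real.log_le_sub_one_of_pos h1
    have h3 := (hMf x hx).trans (le_abs_self Mf)
    linarith
  have hbdd : BddBelow (E '' S) := by
    refine ⟨-(δ * |Mf|), ?_⟩
    rintro _ ⟨σ, hσ, rfl⟩
    have h1 := hFNge σ hσ
    have h2 := hlog σ.1 hσ.1 hσ.2.2.1
    have h3 : 0 ≤ (volume (BN a n P R₃ R₇ φ Es rf r' τ N σ.1)).toReal := ENNReal.toReal_nonneg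
    have h4 := mul_le_mul_of_nonneg_left h2 hδ.le
    show -(δ * |Mf|) ≤ EY a n P R₃ R₇ φ Es rf r' τ N f qa qb qc qe ε δ w u σ.1 σ.2
    unfold EY
    linarith
  suffices hcpt : ∀ σs : ℕ → PE n × (ℂ → ℂ), (∀ k, σs k ∈ S) →
      Tendsto (fun k => E (σs k)) atTop (𝓝 (sInf (E '' S))) →
      ∃ σ ∈ S, E σ ≤ sInf (E '' S) by
    obtain ⟨σ, hσ, hmin⟩ := exists_min (S := S) (E := E) ⟨_, hσ₂⟩ hbdd hcpt
    exact ⟨σ.1, σ.2, hσ, fun y Φ h => hmin (y, Φ) h⟩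
  intro σs hσs hlim
  have hinf2 : sInf (E '' S) ≤ E (x₂, fun z : ℂ => z) := csInf_le hbdd (mem_image_of_mem E hσ₂)
  set i₀ : ℝ := sInf (E '' S) with hi₀
  -- the limit parameter
  obtain ⟨𝒰, h𝒰⟩ : ∃ 𝒰 : Ultrafilter ℕ, (𝒰 : Filter ℕ) ≤ atTop :=
    ⟨Filter.hyperfilter ℕ, Nat.hyperfilter_le_atTop⟩
  have hlim' : Tendsto (fun k => E (σs k)) (𝒰 : Filter ℕ) (𝓝 i₀) := hlim.mono_left h𝒰
  set xs : ℕ → PE n := fun k => (σs k).1 with hxs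
  set Ψs : ℕ → ℂ → ℂ := fun k => (σs k).2 with hΨs
  have hxsL : ∀ k, xs k ∈ L := fun k => (hσs k).1
  obtain ⟨x, hxL, hx⟩ := hLc.ultrafilter_le_nhds (𝒰.map xs) (by
    rw [le_principal_iff]
    have h1 : ∀ᶠ k in (𝒰 : Filter ℕ), xs k ∈ L := Eventually.of_forall hxsL
    exact h1)
  have hxt : Tendsto xs (𝒰 : Filter ℕ) (𝓝 x) := hx
  have hxt' : Tendsto xs (𝒰 : Filter ℕ) (𝓝[L] x) :=
    tendsto_nhdsWithin_iff.2 ⟨hxt, Eventually.of_forall hxsL⟩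
  obtain ⟨Ψ, hΨd, hΨ⟩ := BX_montel hb hR7 hx₂.xB hWo hUFW (fun k => hLB _ (hxsL k))
    (fun k => (hσs k).2.2.2.1) 𝒰
  have hft : Tendsto (fun k => f (xs k)) (𝒰 : Filter ℕ) (𝓝 (f x)) := (hfc x hxL).tendsto.comp hxt'
  -- the function does not vanish at the limit
  have hfx : f x ≠ 0 := by
    have h1 : ∀ᶠ k in (𝒰 : Filter ℕ), E (σs k) < i₀ + 1 := hlim'.eventually (gt_mem_nhds (by linarith))
    have h2 : ∀ᶠ k in (𝒰 : Filter ℕ), Real.exp (-(i₀ + 1) / δ) ≤ ‖f (xs k)‖ := by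
      filter_upwards [h1] with k hk
      have h3 := hFNge _ (hσs k)
      have h4 : 0 ≤ (volume (BN a n P R₃ R₇ φ Es rf r' τ N (xs k))).toReal := ENNReal.toReal_nonneg
      have h5 : E (σs k) = (volume (BN a n P R₃ R₇ φ Es rf r' τ N (xs k))).toReal +
        ((FN qa qb qc qe ε (2 * n) w u (σs k).2).re - δ * Real.log ‖f (xs k)‖) := rfl
      rw [h5] at hk
      have h6 : -(i₀ + 1) / δ ≤ Real.log ‖f (xs k)‖ := by
        rw [div_le_iff₀ hδ]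
        linarith
      rw [← Real.le_log_iff_exp_le (norm_pos_iff.2 (hσs k).2.2.1)]
      exact h6
    have h7 := ge_of_tendsto hft.norm h2
    intro h0
    rw [h0, norm_zero] at h7
    exact absurd h7 (not_le.2 (Real.exp_pos _))
  have hlogt : Tendsto (fun k => Real.log ‖f (xs k)‖) (𝒰 : Filter ℕ) (𝓝 (Real.log ‖f x‖)) :=
    hft.norm.log (norm_pos_iff.2 hfx).ne'
  -- the parameter is close
  have hDx : Dl a n x₁ x < n₀ := by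
    have h1 : Tendsto (fun k => Dl a n x₁ (xs k)) (𝒰 : Filter ℕ) (𝓝 (Dl a n x₁ x)) :=
      ((Dl_continuous a n x₁).tendsto x).comp hxt
    have h2 : Dl a n x₁ x ≤ n₁ :=
      le_of_tendsto h1 (Eventually.of_forall fun k => hcl (xs k) (Ψs k) (hσs k))
    exact h2.trans_lt hn₁
  -- the area
  have hAx : (volume (BN a n P R₃ R₇ φ Es rf r' τ N x)).toReal < a₁ := by
    have h1 := lsc_le hlsc hxL hxt hxsL (U := fun k => E (σs k) + δ * Real.log ‖f (xs k)‖)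
      (u := i₀ + δ * Real.log ‖f x‖) (fun k => by
        have h3 := hFNge _ (hσs k)
        have h5 : E (σs k) = (volume (BN a n P R₃ R₇ φ Es rf r' τ N (xs k))).toReal +
          ((FN qa qb qc qe ε (2 * n) w u (σs k).2).re - δ * Real.log ‖f (xs k)‖) := rfl
        rw [h5]
        linarith) (hlim'.add (hlogt.const_mul δ))
    have h2 := hE x hxL hfx
    have h3 : E (x₂, fun z : ℂ => z) =
      EY a n P R₃ R₇ φ Es rf r' τ N f qa qb qc qe ε δ w u x₂ (fun z => z) := rfl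
    rw [h3] at hinf2
    linarith
  obtain ⟨hSF, hτ⟩ := hgood x hxL hfx hDx hAx
  have hBX := BX_limit H ha hn hP hb hR7 hKL hr' hr'₁ hx₂ hSF hWo hUi hτ hxt
    (fun k => (hσs k).2.2.2.1) hΨd hΨ
  have hFNt : Tendsto (fun k => FN qa qb qc qe ε (2 * n) w u (Ψs k)) (𝒰 : Filter ℕ)
      (𝓝 (FN qa qb qc qe ε (2 * n) w u Ψ)) :=
    FN_tendsto hWo (Eventually.of_forall fun k => (hσs k).2.2.2.1.hol)
      (Eventually.of_forall fun k => (hσs k).2.2.2.1.inj) hΨd hBX.inj hΨ hWa hqa0 hqab hqbc hqce hw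
      hu
  refine ⟨(x, Ψ), ⟨hxL, ?_, hfx, hBX, ?_⟩, ?_⟩
  · have h1 : Tendsto (fun k => (fam a n (xs k)).coeff n) (𝒰 : Filter ℕ)
      (𝓝 ((fam a n x).coeff n)) := ((cf_diff a n n).continuous.tendsto x).comp hxt
    have h2 : (fun k => (fam a n (xs k)).coeff n) = fun _ => (fam a n x₂).coeff n :=
      funext fun k => (hσs k).2.1
    rw [h2] at h1
    exact (tendsto_nhds_unique h1 tendsto_const_nhds)
  · intro j hj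
    have h1 : Tendsto (fun k => bet qa qb qc qe ε (Ψs k) j) (𝒰 : Filter ℕ)
        (𝓝 (bet qa qb qc qe ε Ψ j)) :=
      bet_tendsto hWo (Eventually.of_forall fun k => (hσs k).2.2.2.1.hol)
        (Eventually.of_forall fun k => (hσs k).2.2.2.1.inj) hΨd hBX.inj hΨ hWa hqa0 hqab hqbc
        hqce j
    exact le_of_tendsto h1.norm (Eventually.of_forall fun k => (hσs k).2.2.2.2 j hj)
  · have hre : Tendsto (fun k => (FN qa qb qc qe ε (2 * n) w u (Ψs k)).re) (𝒰 : Filter ℕ)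
        (𝓝 (FN qa qb qc qe ε (2 * n) w u Ψ).re) := (Complex.continuous_re.tendsto _).comp hFNt
    have h1 := lsc_le hlsc hxL hxt hxsL (U := fun k => E (σs k) -
        ((FN qa qb qc qe ε (2 * n) w u (Ψs k)).re - δ * Real.log ‖f (xs k)‖))
      (u := i₀ - ((FN qa qb qc qe ε (2 * n) w u Ψ).re - δ * Real.log ‖f x‖)) (fun k => by
        have h5 : E (σs k) = (volume (BN a n P R₃ R₇ φ Es rf r' τ N (xs k))).toReal +
          ((FN qa qb qc qe ε (2 * n) w u (Ψs k)).re - δ * Real.log ‖f (xs k)‖) := rfl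
        rw [h5]
        linarith) (hlim'.sub (hre.sub (hlogt.const_mul δ)))
    show EY a n P R₃ R₇ φ Es rf r' τ N f qa qb qc qe ε δ w u x Ψ ≤ i₀
    unfold EY
    linarith

/-- There is no minimum from which one can move along a holomorphic family. -/
theorem min_absurd (hb : BO a n B R C₁ R₁ R₃ ψ φ) (hR7 : R₃ + C₁ ≤ R₇)
    (hx₂ : x₂ ∈ ball (0 : PE n) B)
    (hWo : IsOpen (BN a n P R₃ R₇ φ Es rf r' τ N x₂)ᶜ)
    (hUFW : UF n R₃ R₇ φ x₂ ⊆ (BN a n P R₃ R₇ φ Es rf r' τ N x₂)ᶜ)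
    (hqa : R₇ + C₁ < qa) (hqab : qa < qb) (hqbc : qb < qc) (hqce : qc < qe) (hε : 0 < ε)
    (hw : Ts (BN a n P R₃ R₇ φ Es rf r' τ N x₂)ᶜ w)
    (hu : ∀ j, Ts (BN a n P R₃ R₇ φ Es rf r' τ N x₂)ᶜ (u j)) {c₀ : ℝ} (hc₀ : 0 < c₀)
    (hpB : p ∈ ball (0 : PE n) B) {Ψ : ℂ → ℂ}
    (hpS : (p, Ψ) ∈ ST a n P R₃ R₇ ψ φ Es rf r' τ N x₂ L f qa qb qc qe ε)
    (hmin : ∀ (y : PE n) (Φ : ℂ → ℂ),
      (y, Φ) ∈ ST a n P R₃ R₇ ψ φ Es rf r' τ N x₂ L f qa qb qc qe ε →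
        EY a n P R₃ R₇ φ Es rf r' τ N f qa qb qc qe ε δ w u p Ψ ≤
          EY a n P R₃ R₇ φ Es rf r' τ N f qa qb qc qe ε δ w u y Φ)
    (hlt : EY a n P R₃ R₇ φ Es rf r' τ N f qa qb qc qe ε δ w u p Ψ + δ * Real.log ‖f p‖ <
      2 * Real.pi * ε)
    (hk : ∀ i ∈ Es, ∀ b < P, KP (fx a n p) P ((fx a n p)^[b] (p (some i))) ≠ 0)
    {r₀ : ℝ} {γ : ℂ → PE n} {Mt : ℂ → ℂ → ℂ} (hr₀ : 0 < r₀) (hγ0 : γ 0 = p)
    (hγd : DifferentiableOn ℂ γ (ball 0 r₀))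
    (hγL : ∀ t ∈ ball (0 : ℂ) r₀, γ t ∈ L ∧ f (γ t) ≠ 0 ∧
      (fam a n (γ t)).coeff n = (fam a n p).coeff n)
    (hMV : MV a n P R₃ R₇ ψ φ Es rf r' τ N γ r₀ Mt)
    (hfd : DifferentiableOn ℂ (fun t => f (γ t)) (ball 0 r₀))
    (hj : ∃ j : Fin (n + 2), deriv (fun t => cf a n j (γ t)) 0 ≠ 0)
    (hγs : ∀ r : ℝ, 0 < r → r < r₀ → ∀ η : ℝ, 0 < η → ∀ q : ℝ → ℝ, Continuous q →
        ∃ θ : ℝ, (volume (BN a n P R₃ R₇ φ Es rf r' τ N (γ (circleMap 0 r θ)))).toReal + q θ <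
          (volume (BN a n P R₃ R₇ φ Es rf r' τ N (γ 0))).toReal + η + (2 * Real.pi)⁻¹ *
            ∫ θ in (0 : ℝ)..(2 * Real.pi),
              (q θ - c₀ * ∑ j : Fin (n + 2), ‖cf a n j (γ (circleMap 0 r θ)) - cf a n j (γ 0)‖ ^ 2)) :
    False := by
  have k1 := hb.hR; have k2 := hb.hC; have k3 := hb.hR₁; have k4 := hb.hR₃
  have hpi := Real.pi_pos
  set W : Set ℂ := (BN a n P R₃ R₇ φ Es rf r' τ N x₂)ᶜ with hW
  have hqa0 : 0 < qa := by linarith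
  have hWa : ∀ z : ℂ, qa ≤ ‖z‖ → z ∈ W := fun z hz => hUFW (big_UF hb hR7 hx₂ (by linarith))
  have hΨ := hpS.2.2.2.1
  obtain ⟨-, hFN⟩ := FN_ge hWo hΨ.hol hΨ.inj hWa hqa0 hqab hqbc hqce hε hw hu hpS.2.2.2.2
  have hmaps : ∀ z ∈ W, Ψ z ∈ (BN a n P R₃ R₇ φ Es rf r' τ N (γ 0))ᶜ := by
    rw [hγ0]
    exact hΨ.map
  set Ψt : ℂ → ℂ → ℂ := fun t z => Mt t (Ψ z) with hΨt
  have hBX : ∀ t ∈ ball (0 : ℂ) r₀, BX a n P R₃ R₇ ψ φ Es rf r' τ N x₂ (γ t) (Ψt t) := by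
    intro t ht
    have h1 := hMV.bx t ht
    rw [hγ0] at h1
    exact BX.comp hb hR7 hpB hk hΨ h1
  have hF : ∀ t ∈ ball (0 : ℂ) r₀, DifferentiableOn ℂ (Ψt t) W := fun t ht => (hBX t ht).hol
  have hi : ∀ t ∈ ball (0 : ℂ) r₀, InjOn (Ψt t) W := fun t ht => (hBX t ht).inj
  have hz : ∀ z ∈ W, DifferentiableOn ℂ (fun t => Ψt t z) (ball 0 r₀) := fun z hz =>
    hMV.thl (Ψ z) (hmaps z hz)
  have hcv : ∀ t₀ ∈ ball (0 : ℂ) r₀, TendstoLocallyUniformlyOn Ψt (Ψt t₀) (𝓝 t₀) W := fun t₀ ht₀ =>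
    (hMV.cvg t₀ ht₀).comp Ψ hmaps hΨ.hol.continuousOn
  have h0 : (0 : ℂ) ∈ ball (0 : ℂ) r₀ := mem_ball_self hr₀
  have hzero : ∀ z ∈ W, Ψt 0 z = Ψ z := fun z hz => hMV.zer (Ψ z) (hmaps z hz)
  -- strict inequalities
  have hstr : ∀ j ∈ Finset.Icc 1 (2 * n), ‖bet qa qb qc qe ε Ψ j‖ < 1 := by
    intro j hj'
    have h1 := hFN j hj'
    have h2 : 0 ≤ (volume (BN a n P R₃ R₇ φ Es rf r' τ N p)).toReal := ENNReal.toReal_nonneg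
    unfold EY at hlt
    have h3 : 2 * Real.pi * ε * ‖bet qa qb qc qe ε Ψ j‖ ^ 2 < 2 * Real.pi * ε * 1 := by linarith
    have h4 : ‖bet qa qb qc qe ε Ψ j‖ ^ 2 < 1 := lt_of_mul_lt_mul_left h3 (by positivity)
    have h5 := norm_nonneg (bet qa qb qc qe ε Ψ j)
    nlinarith
  -- a smaller radius
  obtain ⟨r₁', hr₁', hr₁'0, hr₁'β⟩ : ∃ r₁' : ℝ, 0 < r₁' ∧ r₁' ≤ r₀ ∧ ∀ t ∈ ball (0 : ℂ) r₁',
      ∀ j ∈ Finset.Icc 1 (2 * n), ‖bet qa qb qc qe ε (Ψt t) j‖ ≤ 1 := by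
    have h1 : ∀ᶠ t in 𝓝 (0 : ℂ), ∀ j ∈ Finset.Icc 1 (2 * n),
        ‖bet qa qb qc qe ε (Ψt t) j‖ < 1 := by
      rw [Filter.eventually_all_finset]
      intro j hj'
      have h2 : ContinuousAt (fun t => bet qa qb qc qe ε (Ψt t) j) 0 :=
        (bet_holo isOpen_ball hWo hF hi hz hcv hWa hqa0 hqab hqbc hqce j).continuousOn.continuousAt
          (isOpen_ball.mem_nhds h0)
      have h3 : ‖bet qa qb qc qe ε (Ψt 0) j‖ < 1 := by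
        rw [bet_congr hWo hzero hWa hqa0 hqab hqbc hqce j]
        exact hstr j hj'
      exact h2.norm.eventually (gt_mem_nhds h3)
    obtain ⟨s, hs, hs'⟩ := Metric.eventually_nhds_iff_ball.1 h1
    refine ⟨min s r₀, lt_min hs hr₀, min_le_right _ _, fun t ht j hj' => ?_⟩
    exact (hs' t (ball_subset_ball (min_le_left _ _) ht) j hj').le
  have hsub : ball (0 : ℂ) r₁' ⊆ ball (0 : ℂ) r₀ := ball_subset_ball hr₁'0
  refine min_contra (V := PE n) (J := Fin (n + 2)) (cf := fun j => cf a n j)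
    (fun j => cf_diff a n j)
    (AN := fun x => (volume (BN a n P R₃ R₇ φ Es rf r' τ N x)).toReal)
    (S := ST a n P R₃ R₇ ψ φ Es rf r' τ N x₂ L f qa qb qc qe ε) (f := f)
    (Q := FN qa qb qc qe ε (2 * n) w u) (δ := δ) hc₀ (x := p) (Ψ := Ψ) hmin hr₁' hγ0
    (hγd.mono hsub) (Ψt := Ψt) ?_ ?_ (hfd.mono hsub) ?_ ?_ hj
    (fun r hr hrr => hγs r hr (hrr.trans_le hr₁'0))
  · intro t ht
    have h1 := hγL t (hsub ht)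
    refine ⟨h1.1, ?_, h1.2.1, hBX t (hsub ht), hr₁'β t ht⟩
    rw [← hpS.2.1]
    exact h1.2.2
  · exact FN_congr hWo hzero hWa hqa0 hqab hqbc hqce hw hu
  · exact fun t ht => (hγL t (hsub ht)).2.1
  · exact (FN_holo isOpen_ball hWo hF hi hz hcv hWa hqa0 hqab hqbc hqce hw hu).mono hsub

end

end Pool.Agent.H20.JL
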