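import Mathlib
import Pool.Agent.H20.JL.Mini
import Pool.Graph.R_seed8.H713R5.QJ.Core7

/-! # The local step, linear version. This file adapts `Core7.lean` of the library (project QJ). -/

set_option autoImplicit false

open Topology Filter Metric Set Polynomial MeasureTheory
open Pool.Agent.H713R3.ZA Pool.Agent.H713R5.QJ

namespace Pool.Agent.H20.JL

/-- The local step: if the bad set of `x₁` has small area then another critical point can be made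
good nearby. -/
def StCL : Prop :=
  ∀ (a : ℂ) (n : ℕ) (B : ℝ), a ≠ 0 → 1 ≤ n → 0 < B → ∃ c₁ C₂ : ℝ, 0 < c₁ ∧ 0 < C₂ ∧
    ∀ (x₁ : PE n) (s : ℝ), 0 < s →
      (∀ x : PE n, Dl a n x₁ x ≤ s ^ 2 → x ∈ ball (0 : PE n) B) →
      volume {z : ℂ | ¬ Good (fx a n x₁) z} < ENNReal.ofReal (c₁ * s) →
      (∃ j : Fin n, ¬ Good (fx a n x₁) (x₁ (some j))) →
      ∃ x : PE n, Dl a n x₁ x < s ^ 2 ∧
        volume {z : ℂ | ¬ Good (fx a n x) z} < ENNReal.ofReal (C₂ * s) ∧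
        (∀ i : Fin n, Good (fx a n x₁) (x₁ (some i)) → Good (fx a n x) (x (some i))) ∧
        ∃ j : Fin n, ¬ Good (fx a n x₁) (x₁ (some j)) ∧ Good (fx a n x) (x (some j))

theorem core_step (H : HH) : StCL := by
  classical
  intro a n B ha hn hB0
  have hpi := Real.pi_pos
  obtain ⟨R, C₁, R₁, R₃, ψ, φ, hb⟩ := exists_boett H.bsum H.inv ha hn hB0
  have hb1 := hb.hR; have hb2 := hb.hC; have hb3 := hb.hR₁; have hb4 := hb.hR₃
  set R₇ : ℝ := R₃ + C₁ with hR₇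
  obtain ⟨R₄, R₅, rg, c₀, v, hR₄, hR₄0, hR₅, hrg, hc₀, hv, hgain⟩ :=
    H.gainp H.dic a n B (R₇ + 3 * C₁) ha hn hB0
  obtain ⟨CC, hCC, hclose⟩ := BX_close H ha hn hb
  obtain ⟨κ, hκ⟩ : ∃ κ : ℝ, κ = 1 / (2 * (CC + 1)) := ⟨_, rfl⟩
  have hκ0 : 0 < κ := by rw [hκ]; positivity
  have hκC : 2 * (CC * κ ^ 2) ≤ 1 / 4 := by
    rw [hκ, div_pow, one_pow, mul_one_div, mul_div_assoc', div_le_div_iff₀ (by positivity)
      (by norm_num)]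
    nlinarith [sq_nonneg (CC - 1)]
  obtain ⟨qa, hqa⟩ : ∃ qa : ℝ, R₇ + C₁ < qa := ⟨R₇ + C₁ + 1, by linarith⟩
  obtain ⟨qb, hqab⟩ : ∃ qb : ℝ, qa < qb := ⟨qa + 1, by linarith⟩
  obtain ⟨qc, hqbc⟩ : ∃ qc : ℝ, qb < qc := ⟨qb + 1, by linarith⟩
  obtain ⟨qe, hqce⟩ : ∃ qe : ℝ, qc < qe := ⟨qc + 1, by linarith⟩
  have hqa0 : 0 < qa := by linarith
  obtain ⟨K₀, hK₀⟩ : ∃ K₀ : ℝ, K₀ = C0 qa (2 * n) := ⟨_, rfl⟩
  have hK₀0 : 0 ≤ K₀ := by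
    rw [hK₀]
    unfold C0
    exact Finset.sum_nonneg fun j _ => by positivity
  obtain ⟨c₁, hc₁⟩ : ∃ c₁ : ℝ, c₁ = Real.pi * κ / (1 + K₀) := ⟨_, rfl⟩
  have hc₁0 : 0 < c₁ := by rw [hc₁]; positivity
  have hc₁e : (1 + K₀) * c₁ = Real.pi * κ := by
    rw [hc₁]
    field_simp
  refine ⟨c₁, 2 * Real.pi * κ, hc₁0, by positivity, ?_⟩
  rintro x₁ s hs hDB hvol ⟨j₀, hj₀b⟩
  by_contra hno
  push Not at hno
  set n₀ : ℝ := s ^ 2 with hn₀def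
  have hn₀ : 0 < n₀ := by positivity
  obtain ⟨ε, hεdef⟩ : ∃ ε : ℝ, ε = κ * s := ⟨_, rfl⟩
  have hε : 0 < ε := by rw [hεdef]; positivity
  obtain ⟨a₁, ha₁⟩ : ∃ a₁ : ℝ, a₁ = 2 * Real.pi * ε := ⟨_, rfl⟩
  have ha₁0 : 0 < a₁ := by rw [ha₁]; positivity
  have ha₁' : 2 * Real.pi * κ * s = a₁ := by rw [ha₁, hεdef]; ring
  rw [ha₁'] at hno
  set E₀ : Finset (Fin n) := Finset.univ.filter
    (fun i => Good (fx a n x₁) (x₁ (some i))) with hE₀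
  have hE₀m : ∀ i, i ∈ E₀ ↔ Good (fx a n x₁) (x₁ (some i)) := by
    intro i; simp [hE₀]
  have hj₀ : j₀ ∉ E₀ := fun h => hj₀b ((hE₀m j₀).mp h)
  have hx₁E : ∀ i ∈ E₀, Good (fx a n x₁) (x₁ (some i)) := fun i hi => (hE₀m i).mp hi
  have hmax : ∀ x : PE n, Dl a n x₁ x < n₀ →
      volume {z : ℂ | ¬ Good (fx a n x) z} < ENNReal.ofReal a₁ →
      (∀ i ∈ E₀, Good (fx a n x) (x (some i))) →
      ∀ j, j ∉ E₀ → ¬ Good (fx a n x) (x (some j)) := by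
    intro x h1 h2 h3 j hj
    exact hno x h1 h2 (fun i hi => h3 i ((hE₀m i).mpr hi)) j (fun h => hj ((hE₀m j).mpr h))
  obtain ⟨a₀, ha₀⟩ : ∃ a₀ : ℝ, a₀ = c₁ * s := ⟨_, rfl⟩
  have ha₀0 : 0 < a₀ := by rw [ha₀]; positivity
  have ha₀e : (1 + K₀) * a₀ = a₁ / 2 := by
    rw [ha₀, ← mul_assoc, hc₁e, ha₁, hεdef]
    ring
  have ha₀n : a₀ < a₁ := by nlinarith
  rw [← ha₀] at hvol
  set m₀ : ℝ := (volume {z : ℂ | ¬ Good (fx a n x₁) z}).toReal with hm₀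
  have hm₀0 : 0 ≤ m₀ := ENNReal.toReal_nonneg
  have hm₀f : volume {z : ℂ | ¬ Good (fx a n x₁) z} = ENNReal.ofReal m₀ :=
    (ENNReal.ofReal_toReal (hvol.trans_le le_top).ne).symm
  have hm₀a : m₀ < a₀ := by
    rw [hm₀f] at hvol
    exact (ENNReal.ofReal_lt_ofReal_iff ha₀0).mp hvol
  set η₀ : ℝ := (a₀ - m₀) / 3 with hη₀
  have hη₀0 : 0 < η₀ := by rw [hη₀]; linarith
  -- neighbourhood of good starting points
  set G₁ : Set (PE n) := {x | Dl a n x₁ x < n₀ / 8} with hG₁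
  have hG₁o : IsOpen G₁ := isOpen_lt (Dl_continuous a n x₁) continuous_const
  have hx₁G : x₁ ∈ G₁ := by
    have h1 : Dl a n x₁ x₁ = 0 := by simp [Dl]
    show Dl a n x₁ x₁ < n₀ / 8
    rw [h1]; positivity
  have hG₁D : ∀ x ∈ G₁, Dl a n x₁ x < n₀ := by
    intro x h1
    have h2 : Dl a n x₁ x < n₀ / 8 := h1
    linarith
  -- escaping and attracted points
  set Ee : Finset (Fin n) := E₀.filter
    (fun i => Tendsto (fun k : ℕ => ‖(fx a n x₁)^[k] (x₁ (some i))‖) atTop atTop) with hEe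
  set Es : Finset (Fin n) := E₀.filter
    (fun i => ¬ Tendsto (fun k : ℕ => ‖(fx a n x₁)^[k] (x₁ (some i))‖) atTop atTop) with hEs
  have hE : ∀ i, i ∈ E₀ ↔ i ∈ Es ∨ i ∈ Ee := by
    intro i
    simp only [hEe, hEs, Finset.mem_filter]
    tauto
  have hj₀s : j₀ ∉ Es := fun h => hj₀ ((hE j₀).mpr (Or.inl h))
  have hj₀e : j₀ ∉ Ee := fun h => hj₀ ((hE j₀).mpr (Or.inr h))
  have hse : ∀ i ∈ Ee, i ∉ Es := by
    intro i hi hi'
    exact (Finset.mem_filter.mp hi').2 (Finset.mem_filter.mp hi).2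
  -- the common period
  have hper : ∀ i : Fin n, ∃ P : ℕ, 0 < P ∧ (i ∈ Es → AT (fx a n x₁) P (x₁ (some i))) := by
    intro i
    by_cases hi : i ∈ Es
    · obtain ⟨h1, h2⟩ := Finset.mem_filter.mp hi
      rcases hx₁E i h1 with h3 | ⟨P, hP, h3⟩
      · exact absurd h3 h2
      · exact ⟨P, hP, fun _ => h3⟩
    · exact ⟨1, one_pos, fun h => absurd h hi⟩
  choose Pf hPf hPf' using hper
  set P : ℕ := ∏ i, Pf i with hPdef
  have hP : 0 < P := Finset.prod_pos fun i _ => hPf i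
  have hx₁A : ∀ i ∈ Es, AT (fx a n x₁) P (x₁ (some i)) := by
    intro i hi
    obtain ⟨k, hk⟩ : Pf i ∣ P := Finset.dvd_prod_of_mem Pf (Finset.mem_univ i)
    rw [hk]
    apply H.atm _ _ _ _ (RL_diff a n x₁) (hPf i) _ (hPf' i hi)
    rcases Nat.eq_zero_or_pos k with h0 | h0
    · rw [h0, mul_zero] at hk; omega
    · exact h0
  -- the time `M`
  obtain ⟨M, hM⟩ : ∃ M : ℕ, ∀ i ∈ Ee, R₃ + 2 * C₁ < ‖(fx a n x₁)^[M] (x₁ (some i))‖ := by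
    have h1 : ∀ᶠ M : ℕ in atTop, ∀ i ∈ Ee, R₃ + 2 * C₁ < ‖(fx a n x₁)^[M] (x₁ (some i))‖ := by
      rw [Filter.eventually_all_finset]
      intro i hi
      exact (Finset.mem_filter.mp hi).2.eventually (eventually_gt_atTop _)
    exact h1.exists
  obtain ⟨σ, hσ, husc⟩ := H.uscp H.opg H.uscg a n x₁ ha hn η₀ hη₀0
  set W : Set (PE n) := (G₁ ∩ ball x₁ σ) ∩
    ⋂ i ∈ Ee, {x : PE n | R₃ + 2 * C₁ < ‖(fx a n x)^[M] (x (some i))‖} with hW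
  have hWo : IsOpen W := by
    apply (hG₁o.inter isOpen_ball).inter
    apply isOpen_biInter_finset
    intro i _
    exact isOpen_lt continuous_const (crit_cont a n M i).norm
  have hx₁W : x₁ ∈ W := by
    refine ⟨⟨hx₁G, mem_ball_self hσ⟩, ?_⟩
    simp only [mem_iInter]
    exact hM
  have hWM : ∀ x ∈ W, ∀ i ∈ Ee, R₃ + 2 * C₁ < ‖(fx a n x)^[M] (x (some i))‖ := by
    rintro x ⟨-, h⟩ i hi
    exact mem_iInter₂.mp h i hi
  have hWv : ∀ x ∈ W, volume {z : ℂ | ¬ Good (fx a n x) z} ≤ ENNReal.ofReal (m₀ + η₀) := by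
    rintro x ⟨⟨-, h⟩, -⟩
    calc volume {z : ℂ | ¬ Good (fx a n x) z}
        ≤ volume {z : ℂ | ¬ Good (fx a n x₁) z} + ENNReal.ofReal η₀ := husc x h
      _ = ENNReal.ofReal (m₀ + η₀) := by
        rw [hm₀f, ← ENNReal.ofReal_add hm₀0 hη₀0.le]
  obtain ⟨ε₂, hε₂, hεW⟩ := Metric.isOpen_iff.mp hWo x₁ hx₁W
  obtain ⟨y₁, hy₁, hy₁A⟩ := H.genp H.ko0 H.ko1 H.ko2 H.ko3 a n P ha hn hP x₁ Es hx₁A ε₂ hε₂
  have hy₁W : y₁ ∈ W := hεW hy₁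
  have hWB : ∀ x ∈ W, x ∈ ball (0 : PE n) B := fun x hx => hDB x (hG₁D x hx.1.1).le
  -- references
  obtain ⟨rf, ap, hRFP, hrel₁, hdis₁⟩ := H.refp (fx a n y₁) n P Es
    (fun i => SP (fx a n y₁) P (y₁ (some i))) hP
    (fun i hi => (A0_Sk H hP (hy₁A i hi).1.1).1)
  -- the domain
  set O : Set (PE n) := OO a n P M B R₃ Es Ee with hO
  obtain ⟨hOo, hnud⟩ := H.nud H.ko0 H.ko1 H.ko2 H.ko3 a n P M B R₃ Es Ee rf ap ha hn hP hRFP
  have hy₁O : y₁ ∈ O := ⟨hWB y₁ hy₁W, fun i hi => (hy₁A i hi).1, fun i hi => by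
    have := hWM y₁ hy₁W i hi; linarith⟩
  set Ω : Set (PE n) := connectedComponentIn O y₁ with hΩ
  have hΩo : IsOpen Ω := hOo.connectedComponentIn
  have hΩc : IsPreconnected Ω := isPreconnected_connectedComponentIn
  have hΩO : Ω ⊆ O := connectedComponentIn_subset O y₁
  have hy₁Ω : y₁ ∈ Ω := mem_connectedComponentIn hy₁O
  have hrel : ∀ x ∈ Ω, ∀ i ∈ Es, SP (fx a n x) P (x (some i)) =
      (fx a n x)^[ap i] (SP (fx a n x) P (x (some (rf i)))) := by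
    intro x hx i hi
    obtain ⟨h1, h2⟩ := H.clo H.ko0 H.ko1 a n P M B R₃ Es Ee ha hn hP (rf i) (hRFP.mem i hi) i hi
      (ap i)
    exact (persist h1 h2 hΩc hΩO hy₁Ω).1 (hrel₁ i hi) x hx
  have hdis : ∀ x ∈ Ω, ∀ i ∈ Es, ∀ i' ∈ Es, rf i = i → rf i' = i' → i ≠ i' → ∀ b : ℕ,
      SP (fx a n x) P (x (some i')) ≠ (fx a n x)^[b] (SP (fx a n x) P (x (some i))) := by
    intro x hx i hi i' hi' h3 h4 h5 b
    obtain ⟨h1, h2⟩ := H.clo H.ko0 H.ko1 a n P M B R₃ Es Ee ha hn hP i hi i' hi' b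
    exact (persist h1 h2 hΩc hΩO hy₁Ω).2 (hdis₁ i hi i' hi' h3 h4 h5 b) x hx
  -- the field
  obtain ⟨X, hXd, hXne, hXk⟩ := exists_field H.cross (n := n) hΩo ⟨y₁, hy₁Ω⟩
    (Dr a n P M φ Es Ee rf ap j₀) (fun i v => Dr_diff H ha hn hP hb hRFP hΩo hΩO i v)
  have hX1 : ∀ x ∈ Ω, ∀ i ∈ Es, dn a n P rf ap i x * fderiv ℂ (nu a n P rf i) x (X x) -
      nu a n P rf i x * fderiv ℂ (dn a n P rf ap i) x (X x) = 0 := by
    intro x hx i hi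
    have := hXk x hx i
    unfold Dr at this
    rw [if_pos hi] at this
    exact this
  have hX2 : ∀ x ∈ Ω, ∀ i ∈ Ee,
      fderiv ℂ (fun x : PE n => φ (x, (fx a n x)^[M] (x (some i)))) x (X x) = 0 := by
    intro x hx i hi
    have := hXk x hx i
    unfold Dr at this
    rw [if_neg (hse i hi), if_pos hi] at this
    exact this
  have hX3 : ∀ x ∈ Ω, fderiv ℂ (cf a n n) x (X x) = 0 := by
    intro x hx
    have := hXk x hx j₀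
    unfold Dr at this
    rw [if_neg hj₀s, if_neg hj₀e, if_pos rfl] at this
    exact this
  -- a coefficient which moves
  obtain ⟨x₃, hx₃, hXx₃, hx₃i⟩ := exists_good H.iden hΩo hXd hXne
  obtain ⟨j, hj⟩ : ∃ j : ℕ, fderiv ℂ (cf a n j) x₃ (X x₃) ≠ 0 := by
    by_contra hcon
    push Not at hcon
    exact hXx₃ (H.ndeg n a x₃ (X x₃) hn ha hx₃i hcon)
  have hjn : j < n + 2 := by
    by_contra hcon
    apply hj
    have h1 : cf a n j = fun _ => 0 := by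
      funext x
      exact coeff_eq_zero_of_natDegree_lt (by have := natDegree_fam_le a n x; omega)
    rw [h1]
    simp
  set sp : PE n → ℂ := fun x => fderiv ℂ (cf a n j) x (X x) with hsp
  have hspd : DifferentiableOn ℂ sp Ω := speed_diff j hΩo hXd
  set hh : PE n → ℂ := fun x => ∏ i ∈ Es, KP (fx a n x) P (x (some i)) with hhh
  have hhd : DifferentiableOn ℂ hh Ω := by
    apply prod_diff
    intro i hi
    exact (hnud i hi).2.2.1.mono hΩO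
  set f : PE n → ℂ := fun x => hh x * sp x with hf
  have hfd : DifferentiableOn ℂ f Ω := hhd.mul hspd
  have hff : ∀ x ∈ Ω, f x ≠ 0 → (∀ i ∈ Es, KP (fx a n x) P (x (some i)) ≠ 0) ∧
      fderiv ℂ (cf a n j) x (X x) ≠ 0 := by
    intro x hx hne
    have h1 : hh x ≠ 0 := left_ne_zero_of_mul hne
    have h2 : sp x ≠ 0 := right_ne_zero_of_mul hne
    exact ⟨Finset.prod_ne_zero_iff.mp h1, h2⟩
  -- the starting point
  obtain ⟨x₂, hx₂Ω, hx₂W, hfx₂⟩ : ∃ x₂ ∈ Ω, x₂ ∈ W ∧ f x₂ ≠ 0 := by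
    by_contra hcon
    push Not at hcon
    have hy₁h : hh y₁ ≠ 0 := Finset.prod_ne_zero_iff.mpr fun i hi => (hy₁A i hi).2
    have h1 : ∀ᶠ x in 𝓝 y₁, hh x ≠ 0 :=
      (hhd.continuousOn.continuousAt (hΩo.mem_nhds hy₁Ω)).eventually_ne hy₁h
    have h2 : ∀ᶠ x in 𝓝 y₁, sp x = 0 := by
      filter_upwards [h1, hΩo.mem_nhds hy₁Ω, hWo.mem_nhds hy₁W] with x e1 e2 e3
      exact (mul_eq_zero.mp (hcon x e2 e3)).resolve_left e1
    exact hj (H.iden (PE n) Ω sp hΩo hΩc hspd y₁ hy₁Ω h2 x₃ hx₃)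
  have hx₂O : x₂ ∈ O := hΩO hx₂Ω
  have hx₂B : x₂ ∈ ball (0 : PE n) B := hx₂O.1
  have hx₂K : ∀ i ∈ Es, KP (fx a n x₂) P (x₂ (some i)) ≠ 0 := (hff x₂ hx₂Ω hfx₂).1
  -- the critical points of E₀ are good on Ω
  have hgoodE : ∀ x ∈ Ω, ∀ i ∈ E₀, Good (fx a n x) (x (some i)) := by
    intro x hx i hi
    rcases (hE i).mp hi with h1 | h1
    · exact Or.inr ⟨P, hP, ((hΩO hx).2.1 i h1).1⟩
    · left
      exact esc_of_large hb (hΩO hx).1 (k := M) (by have := (hΩO hx).2.2 i h1; linarith)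
  have hescE : ∀ x ∈ Ω, ∀ i ∈ Ee, ¬ AT (fx a n x) P (x (some i)) := by
    intro x hx i hi
    exact not_at_of_esc hP
      (esc_of_large hb (hΩO hx).1 (k := M) (by have := (hΩO hx).2.2 i hi; linarith))
  have hbad₂ : ∀ l, l ∉ E₀ → ¬ Good (fx a n x₂) (x₂ (some l)) := by
    apply hmax x₂ (hG₁D x₂ hx₂W.1.1) _ (hgoodE x₂ hx₂Ω)
    refine (hWv x₂ hx₂W).trans_lt ((ENNReal.ofReal_lt_ofReal_iff ha₁0).mpr ?_)
    rw [hη₀]; linarith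
  set F0 : Fin n → ℂ := fun i => φ (x₂, (fx a n x₂)^[M] (x₂ (some i))) with hF0
  have hF0n : ∀ i ∈ Ee, R₃ + C₁ < ‖F0 i‖ := by
    intro i hi
    have h1 := hWM x₂ hx₂W i hi
    have h2 := hb.φc x₂ hx₂B ((fx a n x₂)^[M] (x₂ (some i))) (by linarith)
    have h3 := norm_sub_norm_le ((fx a n x₂)^[M] (x₂ (some i)))
      (φ (x₂, (fx a n x₂)^[M] (x₂ (some i))))
    rw [norm_sub_rev] at h3
    show R₃ + C₁ < ‖φ (x₂, (fx a n x₂)^[M] (x₂ (some i)))‖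
    linarith
  set lam : Fin n → ℂ := fun i => LP (fx a n x₂) P (x₂ (some i)) with hlam
  obtain ⟨lam₀, lam₁, hl0, hl1, hl1', hlb⟩ := exists_lam Es lam (fun i hi =>
    ⟨(hx₂O.2.1 i hi).2, (A0_Sk H hP (hx₂O.2.1 i hi).1).2.1⟩)
  obtain ⟨r₁, r₂, -, hKL⟩ := H.ko3 H.ko0 a n P B lam₀ lam₁ 1 ha hn hP hB0 hl0 hl1' one_pos
  have hr₁ := hKL.r1
  have hr₂ := hKL.r2
  obtain ⟨CK, hCK, hapr⟩ := H.aprp H.ko0 H.ko1 H.ko2 H.ko3 H.root H.kbp a n P B B Es rf ap x₂ ha hn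
    hP hRFP hx₂B (fun i hi => ⟨hx₂O.2.1 i hi, hx₂K i hi⟩)
  set r' : ℝ := r₁ / 2 with hr'
  have hr'0 : 0 < r' := by positivity
  have hr'₁ : r' < r₁ := by rw [hr']; linarith
  set τ : ℝ := min r₂ (r' / 4) / (2 * CK) with hτ
  have hmin : 0 < min r₂ (r' / 4) := lt_min hr₂ (by positivity)
  have hτ0 : 0 < τ := by positivity
  have hτC : τ * CK < min r₂ (r' / 4) := by
    have : τ * CK = min r₂ (r' / 4) / 2 := by rw [hτ]; field_simp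
    rw [this]; linarith
  -- the second time
  obtain ⟨Ms, hMs1, hMs2⟩ : ∃ Ms : ℕ, lam₁ ^ Ms * CK < 7 / 8 * r' ∧
      ∀ i ∈ Es, ‖(fx a n x₂)^[P * Ms] (x₂ (some i)) - SP (fx a n x₂) P (x₂ (some i))‖ < r' := by
    have h1 : ∀ᶠ m : ℕ in atTop, lam₁ ^ m * CK < 7 / 8 * r' := by
      have h2 : Tendsto (fun m : ℕ => lam₁ ^ m * CK) atTop (𝓝 (0 * CK)) :=
        (tendsto_pow_atTop_nhds_zero_of_lt_one hl1.le hl1').mul_const CK
      rw [zero_mul] at h2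
      exact h2.eventually (gt_mem_nhds (by positivity))
    have h3 : ∀ᶠ m : ℕ in atTop, ∀ i ∈ Es,
        ‖(fx a n x₂)^[P * m] (x₂ (some i)) - SP (fx a n x₂) P (x₂ (some i))‖ < r' := by
      rw [Filter.eventually_all_finset]
      intro i hi
      have h4 := (A0_Sk H hP (hx₂O.2.1 i hi).1).2.2
      have h5 := (tendsto_iff_norm_sub_tendsto_zero.mp h4).eventually (gt_mem_nhds hr'0)
      exact h5
    exact (h1.and h3).exists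
  -- the leaf
  set L' : Set (PE n) := LL2 a n P M Ms ψ Es Ee rf ap F0 lam x₁ n₀ r' x₂ with hL'
  obtain ⟨hL'c, hL'O⟩ := H.cptq H.ko0 H.ko1 H.ko2 H.ko3 H.nud a n P M Ms B R C₁ R₁ R₃ lam₀ lam₁ r₁ r₂
    ψ φ Es Ee rf ap F0 lam x₁ x₂ n₀ r' ha hn hP hb hKL hRFP hlb hF0n (fun x hx => hDB x hx) hr'₁
  set L : Set (PE n) := L' ∩ Ω with hL
  have hLc : IsCompact L := by
    have h2 : L = L' \ (O \ Ω) := by
      ext x
      simp only [hL, mem_inter_iff, Set.mem_sdiff, not_and, not_not]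
      constructor
      · rintro ⟨e1, e2⟩; exact ⟨e1, fun _ => e2⟩
      · rintro ⟨e1, e2⟩; exact ⟨e1, e2 (hL'O e1)⟩
    rw [h2]
    exact hL'c.diff (diff_open hOo y₁)
  have hx₂L : x₂ ∈ L := by
    refine ⟨⟨(hG₁D x₂ hx₂W.1.1).le, fun i hi => ?_, fun i hi => ?_, fun i hi => ?_⟩, hx₂Ω⟩
    · exact (hb.ψφ x₂ hx₂B _ (by have := hWM x₂ hx₂W i hi; linarith)).symm
    · exact ⟨(hx₂O.2.1 i hi).1, rfl, (hMs2 i hi).le⟩
    · ring
  -- the time `N`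
  have hninf : ∀ x ∈ O, (∀ i ∈ Es, lam₀ ≤ ‖LP (fx a n x) P (x (some i))‖ ∧
      ‖LP (fx a n x) P (x (some i))‖ ≤ lam₁) → _ := fun x hx hl =>
    H.ninf H.ko0 H.ko1 H.ko2 H.ko3 H.fatp a n P M B R C₁ R₁ R₃ R₇ lam₀ lam₁ r₁ r₂ r' τ ψ φ Es Ee rf
      ap x ha hn hP hb le_rfl hKL hr'0 hr'₁ hτ0 hx hl
  obtain ⟨N, hN⟩ := (hninf x₂ hx₂O (fun i hi => hlb i hi)).2 hx₂K hRFP (hrel x₂ hx₂Ω)
    (fun l h1 h2 => hbad₂ l (fun h => ((hE l).mp h).elim h1 h2)) η₀ hη₀0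
  have hAN₂ : (volume (BN a n P R₃ R₇ φ Es rf r' τ N x₂)).toReal ≤ m₀ + 2 * η₀ := by
    have h1 := hN N le_rfl
    have h2 : (volume {z : ℂ | ¬ Good (fx a n x₂) z}).toReal ≤ m₀ + η₀ :=
      ENNReal.toReal_le_of_le_ofReal (by positivity) (hWv x₂ hx₂W)
    linarith
  have hLO : L ⊆ O := fun x hx => hL'O hx.1
  have hLl : ∀ x ∈ L, ∀ i ∈ Es, lam₀ ≤ ‖LP (fx a n x) P (x (some i))‖ ∧
      ‖LP (fx a n x) P (x (some i))‖ ≤ lam₁ := by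
    intro x hx i hi
    rw [(hx.1.2.2.1 i hi).2.1]
    exact hlb i hi
  have hlsc := H.lscp H.ko0 H.ko1 H.ko2 H.ko3 a n P M N B R C₁ R₁ R₃ R₇ lam₀ lam₁ r₁ r₂ r' τ ψ φ
    Es Ee rf L ha hn hP hb le_rfl hKL hr'0 hr'₁ hτ0 hLO hLl
  -- the facts which hold at the points of small energy
  have hfacts : ∀ p ∈ L, f p ≠ 0 → Dl a n x₁ p < n₀ →
      (volume (BN a n P R₃ R₇ φ Es rf r' τ N p)).toReal < a₁ →
      (∀ l : Fin n, l ∉ Es → l ∉ Ee → ¬ Good (fx a n p) (p (some l))) ∧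
      (∀ i ∈ Es, ∀ b ≤ P, ‖KP (fx a n p) P ((fx a n p)^[b] (p (some i)))‖ ≤ CK) ∧
      SF a n P B lam₀ lam₁ Es p := by
    intro p hp hpf hpD' hpA
    have hpΩ : p ∈ Ω := hp.2
    have hpO : p ∈ O := hΩO hpΩ
    have hpB : p ∈ ball (0 : PE n) B := hpO.1
    have hpbad : ∀ l, l ∉ E₀ → ¬ Good (fx a n p) (p (some l)) := by
      apply hmax p hpD' _ (hgoodE p hpΩ)
      have h1 := (hninf p hpO (hLl p hp)).1 N
      have h2 := BN_fin (P := P) (N := N) (r' := r') (τ := τ) hb (le_refl (R₃ + C₁)) (Es := Es)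
        (rf := rf) hpB
      calc volume {z : ℂ | ¬ Good (fx a n p) z}
          ≤ volume (BN a n P R₃ R₇ φ Es rf r' τ N p) := measure_mono h1
        _ = ENNReal.ofReal (volume (BN a n P R₃ R₇ φ Es rf r' τ N p)).toReal :=
          (ENNReal.ofReal_toReal h2).symm
        _ < ENNReal.ofReal a₁ := (ENNReal.ofReal_lt_ofReal_iff ha₁0).mpr hpA
    have hpK := (hff p hpΩ hpf).1
    have hpbad' : ∀ l, l ∉ Es → l ∉ Ee → ¬ Good (fx a n p) (p (some l)) :=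
      fun l h1 h2 => hpbad l (fun h => ((hE l).mp h).elim h1 h2)
    refine ⟨hpbad', ?_, hpB, fun i hi => hpO.2.1 i hi, hpK, hLl p hp⟩
    apply hapr p hpB
    · intro i hi
      exact ⟨hpO.2.1 i hi, hpK i hi, (hp.1.2.2.1 i hi).2.1, hrel p hpΩ i hi, hp.1.2.2.2 i hi⟩
    · exact hdis p hpΩ
    · intro l hl hA
      by_cases hle : l ∈ Ee
      · exact hescE p hpΩ l hle hA
      · exact hpbad' l hl hle (Or.inr ⟨P, hP, hA⟩)
    · refine ⟨p (some j₀), ?_, fun hA => hpbad j₀ hj₀ (Or.inr ⟨P, hP, hA⟩)⟩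
      rw [mem_ball_zero_iff] at hpB
      exact (norm_le_pi_norm p (some j₀)).trans hpB.le
  have hτfact : ∀ p : PE n, (∀ i ∈ Es, ∀ b ≤ P,
      ‖KP (fx a n p) P ((fx a n p)^[b] (p (some i)))‖ ≤ CK) →
      ∀ i ∈ Es, ∀ b ≤ P, τ * ‖KP (fx a n p) P ((fx a n p)^[b] (p (some i)))‖ <
        min r₂ (r' / 4) := fun p hp i hi b hb' =>
    (mul_le_mul_of_nonneg_left (hp i hi b hb') hτ0.le).trans_lt hτC
  have hD₂ : Dl a n x₁ x₂ < n₀ := hG₁D x₂ hx₂W.1.1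
  have hm₃ : m₀ + 3 * η₀ = a₀ := by rw [hη₀]; ring
  obtain ⟨hbad₂', hCK₂, hSF₂⟩ := hfacts x₂ hx₂L hfx₂ hD₂ (by linarith)
  obtain ⟨hWo, hUi⟩ := open_inv (N := N) H ha hn hP hb le_rfl hKL hRFP hSF₂ (hrel x₂ hx₂Ω)
    (hdis x₂ hx₂Ω) (fun i hi => ⟨hx₂L.1.2.1 i hi, by have := hF0n i hi; linarith⟩) hbad₂' hr'0 hr'₁
    hτ0 (hτfact x₂ hCK₂)
  have hUW : UF n R₃ R₇ φ x₂ ∪ US a n P Es rf r' τ x₂ ⊆ (BN a n P R₃ R₇ φ Es rf r' τ N x₂)ᶜ :=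
    U_sub_W hUi
  have hUFW : UF n R₃ R₇ φ x₂ ⊆ (BN a n P R₃ R₇ φ Es rf r' τ N x₂)ᶜ :=
    fun z hz => hUW (Or.inl hz)
  obtain ⟨w, u, hw, hu, hw2, hu2⟩ := exists_tests hWo (R₀ := R₇ + C₁) (by linarith)
    (fun z hz => hUFW (big_UF hb le_rfl hx₂B hz)) hqa hqab hqbc hqce hη₀0
  rw [compl_compl] at hw2 hu2
  have hbase := FN_base (m := 2 * n) hqa0 hqab hqbc hqce hε hw2 hu2
  rw [← hK₀] at hbase
  have hfc : ContinuousOn f L := hfd.continuousOn.mono inter_subset_right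
  -- the small parameter
  obtain ⟨Mf, hMf⟩ := hLc.exists_bound_of_continuousOn hfc
  have hlog : ∀ x ∈ L, f x ≠ 0 → Real.log ‖f x‖ ≤ |Mf| := by
    intro x hx hfx
    have h1 : 0 < ‖f x‖ := norm_pos_iff.2 hfx
    have h2 := Real.log_le_sub_one_of_pos h1
    have h3 := (hMf x hx).trans (le_abs_self Mf)
    linarith
  obtain ⟨DD, hDD⟩ : ∃ DD : ℝ, DD = |Mf| + |Real.log ‖f x₂‖| + 1 := ⟨_, rfl⟩
  have hDD0 : 0 < DD := by rw [hDD]; positivity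
  obtain ⟨δ, hδdef⟩ : ∃ δ : ℝ, δ = a₁ / (4 * DD) := ⟨_, rfl⟩
  have hδ : 0 < δ := by rw [hδdef]; positivity
  have hδDD : δ * DD = a₁ / 4 := by rw [hδdef]; field_simp
  have hEn : ∀ x ∈ L, f x ≠ 0 →
      EY a n P R₃ R₇ φ Es rf r' τ N f qa qb qc qe ε δ w u x₂ (fun z => z) +
        δ * Real.log ‖f x‖ < a₁ := by
    intro x hx hfx
    have h1 := hlog x hx hfx
    have h2 := neg_abs_le (Real.log ‖f x₂‖)
    have h3 : Real.log ‖f x‖ - Real.log ‖f x₂‖ ≤ DD := by rw [hDD]; linarith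
    have h4 := mul_le_mul_of_nonneg_left h3 hδ.le
    rw [hδDD] at h4
    have h5 : K₀ * ((volume (BN a n P R₃ R₇ φ Es rf r' τ N x₂)).toReal + η₀) ≤ K₀ * a₀ :=
      mul_le_mul_of_nonneg_left (by linarith) hK₀0
    have h6 : (1 + K₀) * a₀ = a₀ + K₀ * a₀ := by ring
    unfold EY
    rw [h6] at ha₀e
    have h7 : δ * (Real.log ‖f x‖ - Real.log ‖f x₂‖) =
      δ * Real.log ‖f x‖ - δ * Real.log ‖f x₂‖ := by ring
    rw [h7] at h4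
    linarith
  have hLB : ∀ x ∈ L, x ∈ ball (0 : PE n) B := fun x hx => (hLO hx).1
  obtain ⟨p, Ψ, hpS, hpmin⟩ := min_exists (n₁ := n₀ / 2) (n₀ := n₀) (a₁ := a₁) (x₁ := x₁) (f := f)
    (δ := δ) H ha hn hP hb le_rfl hKL hr'0 hr'₁ hSF₂ hWo hUi hqa hqab
    hqbc hqce hε hw hu hLc hLB hx₂L hfc hfx₂ hlsc (fun x hx hfx hxD hxA => by
      obtain ⟨-, h2, h3⟩ := hfacts x hx hfx hxD hxA
      exact ⟨h3, hτfact x h2⟩) (by linarith) (fun x Φ hxS => by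
      have h1 := hclose R₇ le_rfl P N Es rf r' τ qa qb qc qe ε hqa hqab hqbc hqce hε x₂ hx₂B hWo hUFW
        x (hLB x hxS.1) hxS.2.1 Φ hxS.2.2.2.1 hxS.2.2.2.2
      have h2 := Dl_tri a n x₁ x₂ x
      have h3 : Dl a n x₁ x₂ < n₀ / 8 := hx₂W.1.1
      have h4 : 2 * (CC * ε ^ 2) ≤ n₀ / 4 := by
        have h5 : 2 * (CC * ε ^ 2) = 2 * (CC * κ ^ 2) * n₀ := by rw [hεdef, hn₀def]; ring
        rw [h5]
        have := mul_le_mul_of_nonneg_right hκC hn₀.le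
        linarith
      linarith) hδ hEn
  have hpL : p ∈ L := hpS.1
  have hpf : f p ≠ 0 := hpS.2.2.1
  have hσ₂ : (x₂, fun z : ℂ => z) ∈
      ST a n P R₃ R₇ ψ φ Es rf r' τ N x₂ L f qa qb qc qe ε := by
    refine ⟨hx₂L, rfl, hfx₂, BX_id hb hx₂B, ?_⟩
    intro j hj
    show ‖bet qa qb qc qe ε (fun z : ℂ => z) j‖ ≤ 1
    rw [bet_id hqa0 hqab hqbc hqce hε (Finset.mem_Icc.1 hj).1, norm_zero]
    exact zero_le_one
  have hple := hpmin x₂ (fun z => z) hσ₂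
  have hpE := hEn p hpL hpf
  have hplt : EY a n P R₃ R₇ φ Es rf r' τ N f qa qb qc qe ε δ w u p Ψ + δ * Real.log ‖f p‖ < a₁ := by
    linarith
  have hWa : ∀ z : ℂ, qa ≤ ‖z‖ → z ∈ (BN a n P R₃ R₇ φ Es rf r' τ N x₂)ᶜ := fun z hz =>
    hUFW (big_UF hb le_rfl hx₂B (by linarith))
  have hpFN := (FN_ge hWo hpS.2.2.2.1.hol hpS.2.2.2.1.inj hWa hqa0 hqab hqbc hqce hε hw hu
    hpS.2.2.2.2).1
  have hpA : (volume (BN a n P R₃ R₇ φ Es rf r' τ N p)).toReal < a₁ := by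
    unfold EY at hplt
    linarith
  have hpD : Dl a n x₁ p < n₀ := by
    have h1 := hclose R₇ le_rfl P N Es rf r' τ qa qb qc qe ε hqa hqab hqbc hqce hε x₂ hx₂B hWo hUFW
      p (hLB p hpL) hpS.2.1 Ψ hpS.2.2.2.1 hpS.2.2.2.2
    have h2 := Dl_tri a n x₁ x₂ p
    have h3 : Dl a n x₁ x₂ < n₀ / 8 := hx₂W.1.1
    have h4 : 2 * (CC * ε ^ 2) ≤ n₀ / 4 := by
      have h5 : 2 * (CC * ε ^ 2) = 2 * (CC * κ ^ 2) * n₀ := by rw [hεdef, hn₀def]; ring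
      rw [h5]
      have := mul_le_mul_of_nonneg_right hκC hn₀.le
      linarith
    linarith
  obtain ⟨hpbad, hpCK, hpSF⟩ := hfacts p hpL hpf hpD hpA
  have hpΩ : p ∈ Ω := hpL.2
  have hpO : p ∈ O := hΩO hpΩ
  have hent : ∀ i ∈ Es,
      ‖(fx a n p)^[P * Ms] (p (some i)) - SP (fx a n p) P (p (some i))‖ < r' := by
    intro i hi
    have e1 := hLl p hpL i hi
    exact strict_entry H ha hn hP hKL hpSF.xB (hpO.2.1 i hi) e1.1 e1.2 hr'₁ (hpL.1.2.2.1 i hi).2.2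
      (hpCK i hi 0 (Nat.zero_le _)) hMs1
  obtain ⟨r₀, γ, Mt, hr₀, hγ0, hγd, hγL, hMV, hγf, hγj, hγs⟩ := local_curve3 H (a := a) (n := n)
    (P := P) (M := M)
    (Ms := Ms) (N := N) (B := B) (R := R) (C₁ := C₁) (R₁ := R₁) (R₃ := R₃) (R₇ := R₇)
    (lam₀ := lam₀) (lam₁ := lam₁) (r₁ := r₁) (r₂ := r₂) (r' := r') (τ := τ) (η := r') (R₄ := R₄)
    (R₅ := R₅) (rg := rg) (c₀ := c₀) (n₀ := n₀) (v := v) (ψ := ψ) (φ := φ) (Es := Es) (Ee := Ee)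
    (rf := rf) (ap := ap) (F0 := F0) (lam := lam) (xT := x₁) (x₂ := x₂) (p := p) (Ω := Ω) (X := X)
    (f := f) (j := j) ha hn hP hb le_rfl hKL hRFP hΩo hΩO hrel hdis hXd hX1 hX2 hX3 hfd hjn hff
    (hpL.1.2.2.2) hpΩ hpf hpD
    (fun i hi => ⟨hpL.1.2.1 i hi, by have := hF0n i hi; linarith⟩)
    (fun i hi => ⟨(hpL.1.2.2.1 i hi).2.1, (hlb i hi).1, (hlb i hi).2, hent i hi⟩) hpbad hr'0 hr'₁
    hτ0 (hτfact p hpCK) hR₄ hR₅ hc₀ hv hgain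
  exact min_absurd hb le_rfl hx₂B hWo hUFW hqa hqab hqbc hqce hε hw hu hc₀ hpSF.xB hpS hpmin
    (by rw [← ha₁]; exact hplt)
    (fun i hi b _ => (hpSF.sink H ha hn hP hi b).2.2.2.2.2) hr₀ hγ0 hγd
    (fun t ht => ⟨(hγL t ht).1, (hγL t ht).2.1, (hγL t ht).2.2⟩) hMV hγf hγj hγs

end Pool.Agent.H20.JL
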