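import Mathlib
import Pool.Agent.H20.JL.Core
import Pool.Graph.R_seed8.H713R5.QJ.Main2

/-! # The linear law. This file adapts `TVFAM.lean` and `TVFIN.lean` of the library (project QJ). -/

set_option autoImplicit false

open Topology Filter Metric Set Polynomial MeasureTheory
open Pool.Agent.H713R3.ZA Pool.Agent.H713R5.QJ

namespace Pool.Agent.H20.JL

/-- the constants -/
noncomputable def kq (q : ℝ) : ℕ → ℝ
  | 0 => 0
  | m + 1 => 1 + q * kq q m

theorem kq_nonneg {q : ℝ} (hq : 0 ≤ q) (m : ℕ) : 0 ≤ kq q m := by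
  induction m with
  | zero => exact le_refl _
  | succ m ih =>
    show 0 ≤ 1 + q * kq q m
    positivity

open Classical in
/-- induction on the number of bad critical points -/
theorem claimL {a : ℂ} {n : ℕ} {B c₁ C₂ q : ℝ} (hc₁ : 0 < c₁) (hC₂ : 0 < C₂) (hq : q = C₂ / c₁)
    (hcore : ∀ (x₁ : PE n) (s : ℝ), 0 < s →
      (∀ x : PE n, Dl a n x₁ x ≤ s ^ 2 → x ∈ ball (0 : PE n) B) →
      volume {z : ℂ | ¬ Good (fx a n x₁) z} < ENNReal.ofReal (c₁ * s) →
      (∃ j : Fin n, ¬ Good (fx a n x₁) (x₁ (some j))) →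
      ∃ x : PE n, Dl a n x₁ x < s ^ 2 ∧
        volume {z : ℂ | ¬ Good (fx a n x) z} < ENNReal.ofReal (C₂ * s) ∧
        (∀ i : Fin n, Good (fx a n x₁) (x₁ (some i)) → Good (fx a n x) (x (some i))) ∧
        ∃ j : Fin n, ¬ Good (fx a n x₁) (x₁ (some j)) ∧ Good (fx a n x) (x (some j)))
    (m : ℕ) : ∀ (x : PE n) (s : ℝ), 0 < s →
      (Finset.univ.filter (fun i : Fin n => ¬ Good (fx a n x) (x (some i)))).card ≤ m →
      volume {z : ℂ | ¬ Good (fx a n x) z} < ENNReal.ofReal (c₁ * s) →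
      (∀ y : PE n, (∀ j : ℕ, ‖(fam a n y).coeff j - (fam a n x).coeff j‖ ≤
        kq q m * s) → y ∈ ball (0 : PE n) B) →
      ∃ z : PE n, (∀ i : Fin n, Good (fx a n z) (z (some i))) ∧
        ∀ j : ℕ, ‖(fam a n z).coeff j - (fam a n x).coeff j‖ ≤ kq q m * s := by
  have hq0 : 0 < q := by rw [hq]; positivity
  induction m with
  | zero =>
    intro x s hs hcard hvol hR
    refine ⟨x, ?_, ?_⟩
    · intro i
      by_contra hi
      have : i ∈ Finset.univ.filter (fun i : Fin n => ¬ Good (fx a n x) (x (some i))) := by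
        rw [Finset.mem_filter]
        exact ⟨Finset.mem_univ _, hi⟩
      have h2 := Finset.card_pos.2 ⟨i, this⟩
      omega
    · intro j
      rw [sub_self, norm_zero]
      exact mul_nonneg (kq_nonneg hq0.le _) hs.le
  | succ m ih =>
    intro x s hs hcard hvol hR
    have hkm := kq_nonneg hq0.le m
    have hkk : kq q (m + 1) = 1 + q * kq q m := rfl
    have hkq : 0 ≤ q * kq q m * s := by positivity
    by_cases hall : ∀ i : Fin n, Good (fx a n x) (x (some i))
    · refine ⟨x, hall, ?_⟩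
      intro j
      rw [sub_self, norm_zero]
      exact mul_nonneg (kq_nonneg hq0.le _) hs.le
    · push Not at hall
      have hsq : Real.sqrt (s ^ 2) = s := Real.sqrt_sq hs.le
      obtain ⟨x', hD, hvol', hgood, j₀, hj₀, hj₀'⟩ := hcore x s hs (by
        intro y hy
        apply hR
        intro j
        refine (TVFAM.coeff_of_Dl a n x y hy j).trans ?_
        rw [hkk, hsq]
        linarith) hvol hall
      have hcard' : (Finset.univ.filter
          (fun i : Fin n => ¬ Good (fx a n x') (x' (some i)))).card ≤ m := by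
        have hlt : (Finset.univ.filter
            (fun i : Fin n => ¬ Good (fx a n x') (x' (some i)))).card <
            (Finset.univ.filter (fun i : Fin n => ¬ Good (fx a n x) (x (some i)))).card := by
          apply Finset.card_lt_card
          rw [Finset.ssubset_iff_of_subset]
          · refine ⟨j₀, ?_, ?_⟩
            · rw [Finset.mem_filter]
              exact ⟨Finset.mem_univ _, hj₀⟩
            · rw [Finset.mem_filter]
              rintro ⟨-, h⟩
              exact h hj₀'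
          · intro i hi
            rw [Finset.mem_filter] at hi ⊢
            refine ⟨Finset.mem_univ _, ?_⟩
            intro h
            exact hi.2 (hgood i h)
        omega
      have hx'c : ∀ j : ℕ, ‖(fam a n x').coeff j - (fam a n x).coeff j‖ ≤ s := by
        intro j
        have := TVFAM.coeff_of_Dl a n x x' hD.le j
        rwa [hsq] at this
      obtain ⟨z, hz, hzc⟩ := ih x' (q * s) (by positivity) hcard' (by
        have : c₁ * (q * s) = C₂ * s := by rw [hq]; field_simp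
        rw [this]
        exact hvol') (by
        intro y hy
        apply hR
        intro j
        have h1 := hy j
        have h2 := hx'c j
        have h3 : ‖(fam a n y).coeff j - (fam a n x).coeff j‖ ≤
            ‖(fam a n y).coeff j - (fam a n x').coeff j‖ +
              ‖(fam a n x').coeff j - (fam a n x).coeff j‖ := by
          have := norm_add_le ((fam a n y).coeff j - (fam a n x').coeff j)
            ((fam a n x').coeff j - (fam a n x).coeff j)
          rwa [sub_add_sub_cancel] at this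
        rw [hkk]
        linarith)
      refine ⟨z, hz, ?_⟩
      intro j
      have h1 := hzc j
      have h2 := hx'c j
      have h3 : ‖(fam a n z).coeff j - (fam a n x).coeff j‖ ≤
          ‖(fam a n z).coeff j - (fam a n x').coeff j‖ +
            ‖(fam a n x').coeff j - (fam a n x).coeff j‖ := by
        have := norm_add_le ((fam a n z).coeff j - (fam a n x').coeff j)
          ((fam a n x').coeff j - (fam a n x).coeff j)
        rwa [sub_add_sub_cancel] at this
      rw [hkk]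
      linarith

/-- The linear law in the family. -/
theorem vfamL (hcore : StCL) : ∀ (a : ℂ) (n : ℕ) (A' : ℝ), a ≠ 0 → 1 ≤ n → 0 < A' → ∃ C : ℝ, 0 < C ∧
    ∀ (x₁ : PE n) (s : ℝ), (∀ j : ℕ, ‖(fam a n x₁).coeff j‖ ≤ A') → 0 < s →
      volume {z : ℂ | ¬ Good (fx a n x₁) z} < ENNReal.ofReal s →
      ∃ x : PE n, (∀ j : ℕ, ‖(fam a n x).coeff j - (fam a n x₁).coeff j‖ ≤ C * s) ∧
        ∀ i : Fin n, Good (fx a n x) (x (some i)) := by
  classical
  intro a n A' ha hn hA'
  have ha' : 0 < ‖a‖ := norm_pos_iff.2 ha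
  obtain ⟨c₁, C₂, hc₁, hC₂, hc⟩ := hcore a n ((A' + 1) / ‖a‖ + (A' + 1) + 2) ha hn (by positivity)
  obtain ⟨q, hq⟩ : ∃ q : ℝ, q = C₂ / c₁ := ⟨_, rfl⟩
  have hq0 : 0 < q := by rw [hq]; positivity
  have hκ := kq_nonneg hq0.le n
  obtain ⟨K, hK⟩ : ∃ K : ℝ, K = kq q n / c₁ := ⟨_, rfl⟩
  have hK0 : 0 ≤ K := by rw [hK]; positivity
  refine ⟨(1 + ‖a‖ + A') * K + 1, by positivity, ?_⟩
  intro x₁ s hcoef hs hvol
  have hs' : 0 < s / c₁ := by positivity
  have hKs : kq q n * (s / c₁) = K * s := by rw [hK]; ring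
  by_cases hsmall : K * s ≤ 1
  · obtain ⟨z, hz, hzc⟩ := claimL hc₁ hC₂ hq hc n x₁ (s / c₁) hs' (by
      refine (Finset.card_le_univ _).trans ?_
      simp) (by
      have : c₁ * (s / c₁) = s := by
        field_simp
      rw [this]
      exact hvol) (by
      intro y hy
      rw [hKs] at hy
      apply TVFAM.bdd n ha (by positivity)
      intro j _
      have h1 := (hy j).trans hsmall
      have h2 := hcoef j
      have h4 : ‖(fam a n y).coeff j‖ ≤
          ‖(fam a n y).coeff j - (fam a n x₁).coeff j‖ + ‖(fam a n x₁).coeff j‖ := by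
        have := norm_add_le ((fam a n y).coeff j - (fam a n x₁).coeff j) ((fam a n x₁).coeff j)
        rwa [sub_add_cancel] at this
      linarith)
    refine ⟨z, ?_, hz⟩
    intro j
    refine (hzc j).trans ?_
    rw [hKs]
    apply mul_le_mul_of_nonneg_right _ hs.le
    nlinarith [mul_nonneg hK0 ha'.le, mul_nonneg hK0 hA'.le]
  · push Not at hsmall
    refine ⟨0, ?_, TVFAM.good_zero a n hn⟩
    intro j
    have h1 : ‖(fam a n 0).coeff j - (fam a n x₁).coeff j‖ ≤ ‖a‖ + A' := by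
      refine (norm_sub_le _ _).trans ?_
      exact add_le_add (TVFAM.coeff_zero_le a n j) (hcoef j)
    refine h1.trans ?_
    have h3 : (‖a‖ + A') * 1 ≤ (‖a‖ + A') * (K * s) :=
      mul_le_mul_of_nonneg_left hsmall.le (by positivity)
    have h4 : 0 ≤ K * s := mul_nonneg hK0 hs.le
    nlinarith

theorem mainL (hSCL : StSCL) (hAPX : APXC) (hSURJ : StSURJ)
    (hV : ∀ (a : ℂ) (n : ℕ) (A' : ℝ), a ≠ 0 → 1 ≤ n → 0 < A' → ∃ C : ℝ, 0 < C ∧
      ∀ (x₁ : PE n) (s : ℝ), (∀ j : ℕ, ‖(fam a n x₁).coeff j‖ ≤ A') → 0 < s →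
      volume {z : ℂ | ¬ Good (fx a n x₁) z} < ENNReal.ofReal s →
      ∃ x : PE n, (∀ j : ℕ, ‖(fam a n x).coeff j - (fam a n x₁).coeff j‖ ≤ C * s) ∧
        ∀ i : Fin n, Good (fx a n x) (x (some i)))
    (n : ℕ) (A : ℝ) (hn : 1 ≤ n) (hA : 1 ≤ A) : ∃ C : ℝ, 0 < C ∧ ∀ T : ℂ[X], T.natDegree = n + 1 →
    (∀ j : ℕ, ‖T.coeff j‖ ≤ A) → 1 / A ≤ ‖T.leadingCoeff‖ → volume (JS T) < ⊤ ∧
    ∀ ε : ℝ, C * (volume (JS T)).toReal < ε →
      ∃ S : ℂ[X], S.natDegree = T.natDegree ∧ S.leadingCoeff = T.leadingCoeff ∧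
        (∀ j : ℕ, ‖S.coeff j - T.coeff j‖ < ε) ∧
        ∀ c : ℂ, (derivative S).eval c = 0 → Good (ev S) c := by
  have hA0 : 0 < A := by linarith
  obtain ⟨C₁, hC₁, hV1⟩ := hV 1 n (A ^ (n + 2) * (A + 1)) one_ne_zero hn (by positivity)
  refine ⟨A ^ (n + 4) * C₁, by positivity, ?_⟩
  intro T hT hTA hTl
  have hfin := Pool.Agent.H713R5.QJ.VFIN.js_fin T (by omega)
  refine ⟨hfin, ?_⟩
  intro ε hε
  obtain ⟨ar, har⟩ : ∃ ar : ℝ, ar = (volume (JS T)).toReal := ⟨_, rfl⟩
  have har0 : 0 ≤ ar := by rw [har]; exact ENNReal.toReal_nonneg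
  have hvol : volume (JS T) = ENNReal.ofReal ar := by
    rw [har, ENNReal.ofReal_toReal hfin.ne]
  rw [← har] at hε
  have hε0 : 0 < ε := lt_of_le_of_lt (by positivity) hε
  -- the small number
  obtain ⟨e, he0, he1, he⟩ : ∃ e : ℝ, 0 < e ∧ e ≤ 1 ∧
      A ^ (n + 4) * C₁ * (ar + 2 * e) + e < ε := by
    have hc : Continuous (fun e : ℝ => A ^ (n + 4) * C₁ * (ar + 2 * e) + e) := by
      fun_prop
    have h1 : Tendsto (fun e : ℝ => A ^ (n + 4) * C₁ * (ar + 2 * e) + e) (𝓝 0)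
        (𝓝 (A ^ (n + 4) * C₁ * ar)) := by
      have := hc.tendsto 0
      simpa using this
    have h2 := h1.eventually (gt_mem_nhds hε)
    rw [Metric.eventually_nhds_iff] at h2
    obtain ⟨δ, hδ, h3⟩ := h2
    refine ⟨min (δ / 2) 1, lt_min (by linarith) one_pos, min_le_right _ _, h3 ?_⟩
    rw [dist_zero_right, Real.norm_eq_abs, abs_of_pos (lt_min (by linarith) one_pos)]
    exact lt_of_le_of_lt (min_le_left _ _) (by linarith)
  obtain ⟨S₁, hS1d, hS1l, hS1c, hS1v⟩ := hAPX T (by omega) e he0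
  rw [hvol, ← ENNReal.ofReal_add har0 he0.le] at hS1v
  -- the scaling
  obtain ⟨l, hl⟩ := IsAlgClosed.exists_pow_nat_eq T.leadingCoeff (by omega : 0 < n)
  have hTl0 : T.leadingCoeff ≠ 0 := by
    rw [← norm_pos_iff]
    exact lt_of_lt_of_le (by positivity) hTl
  have hl0 : l ≠ 0 := by
    rintro rfl
    rw [zero_pow (by omega)] at hl
    exact hTl0 hl.symm
  have hln : ‖l‖ ^ n = ‖T.leadingCoeff‖ := by rw [← norm_pow, hl]
  have hlA : ‖l‖ ≤ A := Pool.Agent.H713R5.QJ.VFIN.le_of_pow hA hn (by rw [hln]; exact hTA _)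
  have hlA' : ‖l‖⁻¹ ≤ A := by
    apply Pool.Agent.H713R5.QJ.VFIN.le_of_pow hA hn
    rw [inv_pow, hln]
    have h1 : 0 < ‖T.leadingCoeff‖ := norm_pos_iff.2 hTl0
    rw [inv_le_comm₀ h1 hA0, ← one_div]
    exact hTl
  have hlp : 0 < ‖l‖ := norm_pos_iff.2 hl0
  -- the monic polynomial
  obtain ⟨k1, k2, -, -, k5⟩ := hSCL l S₁ hl0
  have hS1top : S₁.coeff (n + 1) = T.leadingCoeff := by
    rw [← hS1l]
    have : S₁.natDegree = n + 1 := by rw [hS1d, hT]
    rw [Polynomial.leadingCoeff, this]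
  have hS2top : (sc l S₁).coeff (n + 1) = 1 := by
    rw [k2, hS1top, ← hl, pow_succ, inv_pow]
    field_simp
  obtain ⟨x₁, hx₁⟩ := hSURJ n (sc l S₁) hn (by rw [k1, hS1d, hT])
  rw [hS2top] at hx₁
  have hfx : fx 1 n x₁ = ev (sc l S₁) := by
    funext w
    unfold fx ev
    rw [hx₁]
  have hS1A : ∀ j, ‖S₁.coeff j‖ ≤ A + 1 := by
    intro j
    have h1 : S₁.coeff j = (S₁.coeff j - T.coeff j) + T.coeff j := by ring
    rw [h1]
    refine (norm_add_le _ _).trans ?_
    have := hS1c j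
    have := hTA j
    linarith
  have hcoef : ∀ j, ‖(fam 1 n x₁).coeff j‖ ≤ A ^ (n + 2) * (A + 1) := by
    intro j
    rw [hx₁]
    rcases Nat.lt_or_ge (n + 1) j with hj | hj
    · rw [coeff_eq_zero_of_natDegree_lt (by rw [k1, hS1d, hT]; exact hj), norm_zero]
      positivity
    · rw [k2, norm_mul, norm_mul, norm_pow, norm_inv]
      have h1 : ‖l‖ * ‖l‖⁻¹ ^ j ≤ A ^ (n + 2) := by
        calc ‖l‖ * ‖l‖⁻¹ ^ j ≤ A * A ^ j :=
              mul_le_mul hlA (pow_le_pow_left₀ (by positivity) hlA' _) (by positivity) hA0.le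
          _ = A ^ (j + 1) := by rw [pow_succ]; ring
          _ ≤ A ^ (n + 2) := pow_le_pow_right₀ hA (by omega)
      exact mul_le_mul h1 (hS1A j) (norm_nonneg _) (by positivity)
  obtain ⟨s, hs⟩ : ∃ s : ℝ, s = A ^ 2 * (ar + 2 * e) := ⟨_, rfl⟩
  have hs0 : 0 < s := by
    rw [hs]
    positivity
  have hvol2 : volume {z : ℂ | ¬ Good (fx 1 n x₁) z} < ENNReal.ofReal s := by
    rw [hfx, k5]
    calc ENNReal.ofReal (‖l‖ ^ 2) * volume {z : ℂ | ¬ Good (ev S₁) z}
        ≤ ENNReal.ofReal (A ^ 2) * ENNReal.ofReal (ar + e) :=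
          mul_le_mul' (ENNReal.ofReal_le_ofReal (pow_le_pow_left₀ hlp.le hlA 2)) hS1v
      _ = ENNReal.ofReal (A ^ 2 * (ar + e)) := (ENNReal.ofReal_mul (by positivity)).symm
      _ < ENNReal.ofReal s := by
          rw [ENNReal.ofReal_lt_ofReal_iff (by positivity), hs]
          exact mul_lt_mul_of_pos_left (by linarith) (by positivity)
  obtain ⟨x, hx1, hx2⟩ := hV1 x₁ s hcoef hs0 hvol2
  -- the result
  obtain ⟨m1, m2, m3, m4, -⟩ := hSCL l⁻¹ (fam 1 n x) (inv_ne_zero hl0)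
  have hdeg : (sc l⁻¹ (fam 1 n x)).natDegree = n + 1 := by
    rw [m1, natDegree_fam one_ne_zero]
  refine ⟨sc l⁻¹ (fam 1 n x), by rw [hdeg, hT], ?_, ?_, ?_⟩
  · rw [Polynomial.leadingCoeff, hdeg, m2, inv_inv, coeff_fam_top, mul_one, pow_succ, ← hl]
    field_simp
  · intro j
    rcases Nat.lt_or_ge (n + 1) j with hj | hj
    · rw [coeff_eq_zero_of_natDegree_lt (by rw [hdeg]; exact hj),
        coeff_eq_zero_of_natDegree_lt (by rw [hT]; exact hj), sub_zero, norm_zero]
      exact hε0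
    · have e1 : (sc l⁻¹ (fam 1 n x)).coeff j - S₁.coeff j =
          (l⁻¹ * l ^ j) * ((fam 1 n x).coeff j - (fam 1 n x₁).coeff j) := by
        rw [m2, hx₁, k2, inv_inv, mul_sub]
        congr 1
        have h1 : l⁻¹ * l ^ j * (l * l⁻¹ ^ j * S₁.coeff j) =
            (l⁻¹ * l) * (l ^ j * l⁻¹ ^ j) * S₁.coeff j := by ring
        rw [h1, inv_mul_cancel₀ hl0, ← mul_pow, mul_inv_cancel₀ hl0, one_pow, one_mul, one_mul]
      have e2 : ‖(sc l⁻¹ (fam 1 n x)).coeff j - S₁.coeff j‖ ≤ A ^ (n + 2) * (C₁ * s) := by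
        rw [e1, norm_mul, norm_mul, norm_inv, norm_pow]
        have h1 : ‖l‖⁻¹ * ‖l‖ ^ j ≤ A ^ (n + 2) := by
          calc ‖l‖⁻¹ * ‖l‖ ^ j ≤ A * A ^ j :=
                mul_le_mul hlA' (pow_le_pow_left₀ hlp.le hlA _) (by positivity) hA0.le
            _ = A ^ (j + 1) := by rw [pow_succ]; ring
            _ ≤ A ^ (n + 2) := pow_le_pow_right₀ hA (by omega)
        exact mul_le_mul h1 (hx1 j) (norm_nonneg _) (by positivity)
      have e3 : A ^ (n + 2) * (C₁ * s) = A ^ (n + 4) * C₁ * (ar + 2 * e) := by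
        rw [hs]
        ring
      have e4 : (sc l⁻¹ (fam 1 n x)).coeff j - T.coeff j =
          ((sc l⁻¹ (fam 1 n x)).coeff j - S₁.coeff j) + (S₁.coeff j - T.coeff j) := by ring
      rw [e4]
      refine lt_of_le_of_lt (norm_add_le _ _) ?_
      have := hS1c j
      rw [e3] at e2
      linarith
  · intro c hc
    have h1 : l⁻¹ * (l * c) = c := by rw [← mul_assoc, inv_mul_cancel₀ hl0, one_mul]
    have h2 := (m4 (l * c)).1 (by rw [h1]; exact hc)
    have h3 : deriv (fx 1 n x) (l * c) = 0 := by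
      have : fx 1 n x = fun w => (fam 1 n x).eval w := rfl
      rw [this, Polynomial.deriv]
      exact h2
    obtain ⟨i, hi⟩ := exists_crit one_ne_zero h3
    have h4 := hx2 i
    rw [← hi] at h4
    have h5 := (m3 (l * c)).2 h4
    rwa [h1] at h5

/-- The linear law. -/
def VTL : Prop :=
  ∀ (d : ℕ) (A : ℝ), 2 ≤ d → 0 < A → ∃ C : ℝ, 0 < C ∧ ∀ T : ℂ[X], T.natDegree = d →
    (∀ j : ℕ, ‖T.coeff j‖ ≤ A) → 1 / A ≤ ‖T.leadingCoeff‖ → volume (JS T) < ⊤ ∧
    ∀ ε : ℝ, C * (volume (JS T)).toReal < ε →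
      ∃ S : ℂ[X], S.natDegree = T.natDegree ∧ S.leadingCoeff = T.leadingCoeff ∧
        (∀ j : ℕ, ‖S.coeff j - T.coeff j‖ < ε) ∧
        ∀ c : ℂ, (derivative S).eval c = 0 → Good (ev S) c

theorem vtl : VTL := by
  intro d A hd hA
  obtain ⟨n, rfl⟩ : ∃ n, d = n + 1 := ⟨d - 1, by omega⟩
  obtain ⟨C, hC, h⟩ := mainL scl_holds apxc surj_holds (vfamL (core_step hh)) n (max A 1) (by omega)
    (le_max_right _ _)
  refine ⟨C, hC, fun T hT hTA hTl => h T hT (fun j => (hTA j).trans (le_max_left _ _)) ?_⟩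
  exact (one_div_le_one_div_of_le hA (le_max_left _ _)).trans hTl

end Pool.Agent.H20.JL
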